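import Pool.Agent.Helper37.CP.Data.Exit

/-! Assembly of the chains. -/

set_option autoImplicit false

namespace Pool.Agent.Helper37.CP

open Metric Set

theorem frame_mem {t0 t1 : FI} {C U : CI} {x y : ℝ} (hx : t0.mem x) (hy : t1.mem y)
    (h : (frOk t0 t1 && ((frI t0 t1).1.le C && (frI t0 t1).2.le U)) = true) :
    C.mem (frc (1 / x) y) ∧ U.mem (((frr (1 / x) y : ℝ) : ℂ) * fru (1 / x) y) := by
  rw [Bool.and_eq_true, Bool.and_eq_true] at h
  obtain ⟨h1, h2, h3⟩ := h
  obtain ⟨a, b⟩ := frI_mem hx hy h1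
  exact ⟨CI.le_mem h2 a, CI.le_mem h3 b⟩

theorem h_mem : (FI.rat 91 250).mem (91 / 250) := lrat_mem 91 250 (by norm_num) (by norm_num)

theorem hh_ne {j : ℤ} (h : j ≠ 0) : hh j = 91 / 250 := if_neg h

theorem hh_zero : hh 0 = 7 / 20 := if_pos rfl

theorem coreEnv_ok {b : ℝ} (hb : IsB b) {j : ℕ} (hj : 5 ≤ j) :
    coreEnv.Ok (fun l => tt b (j - l)) (fun l => hh (j - l)) [0, 1] [0] := by
  have m0 : (tBox 5).mem (tt b ((j : ℤ) - 0)) := by
    rw [sub_zero]
    exact tBox_mem hb hj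
  have m1 : (tBox 4).mem (tt b ((j : ℤ) - 1)) := by
    have h := tBox_mem hb (show 4 ≤ j - 1 by omega)
    have e : ((j - 1 : ℕ) : ℤ) = (j : ℤ) - 1 := by omega
    rw [e] at h
    exact h
  refine ⟨?_, ?_, ?_, ?_⟩
  · intro l hl
    simp only [List.mem_cons, List.not_mem_nil, or_false] at hl
    rcases hl with rfl | rfl
    · exact ⟨m0, by decide +kernel⟩
    · exact ⟨m1, by decide +kernel⟩
  · intro l hl
    simp only [List.mem_cons, List.not_mem_nil, or_false] at hl
    have hne : (j : ℤ) - l ≠ 0 := by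
      rcases hl with rfl | rfl <;> omega
    show (FI.rat 91 250).mem (hh ((j : ℤ) - l))
    rw [hh_ne hne]
    exact h_mem
  · intro l hl
    simp only [List.mem_cons, List.not_mem_nil, or_false] at hl
    subst hl
    exact (frame_mem m0 m1 core_frame).1
  · intro l hl
    simp only [List.mem_cons, List.not_mem_nil, or_false] at hl
    subst hl
    exact (frame_mem m0 m1 core_frame).2

/-- right end of the interface -/
def u0 : Nm := .N 7085569 0 (-1)

theorem itf_form : ∃ m, itf = .V 0 :: (m ++ [u0]) := ⟨itf.tail.dropLast, by decide +kernel⟩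

theorem core_dec {b : ℝ} (hb : IsB b) {j : ℕ} (hj : 5 ≤ j) :
    Dec0 (12886 / 10000) (fun A => -pthN A (itf.map (lpos b j)) +
      A (lpos b j (.V 0)) (lpos b j (.V 1)) + pthN A ((itf.map (Nm.sh 1)).map (lpos b j)) +
      A (lpos b j (u0.sh 1)) (lpos b j u0) -
      bdN A ((spn j ++ ringOut.map (toT 0)).map (lpos b j))) := by
  have h := modH_dec core_chk (P := lpos b j) (fun n hn => Env.pos_mem (coreEnv_ok hb hj) hn)
    (by norm_num) (by norm_num) core_paths core_holes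
  refine h.congr ?_
  intro A hA
  have hsp : spn j = spn 5 := by
    obtain ⟨k, rfl⟩ := Nat.exists_eq_add_of_le hj
    rw [add_comm]
    rfl
  rw [hsp]
  simp only [List.map_cons, List.map_nil, List.sum_cons, List.sum_nil, add_zero]
  rw [List.map_reverse, pthN_reverse A hA]
  have e1 : pthN A [lpos b j (.V 0), lpos b j (.V 1)] = A (lpos b j (.V 0)) (lpos b j (.V 1)) := by
    show A _ _ + 0 = _
    rw [add_zero]
  have e2 : pthN A [lpos b j (.N 7085569 0 0), lpos b j (.N 7085569 0 (-1))] =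
      A (lpos b j (u0.sh 1)) (lpos b j u0) := by
    show A _ _ + 0 = _
    rw [add_zero]
    rfl
  rw [e1, e2]
  ring

/-- the half disc of level `j` is filled -/
def FillJ (γ b : ℝ) (j : ℕ) : Prop :=
  Dec γ (fun A => A (lpos b j (.V 0)) (lpos b j u0) - pthN A (itf.map (lpos b j)))

theorem lpos_sh (b : ℝ) (j d : ℤ) (n : Nm) :
    lpos b j (n.sh d) = (((3 / 5 : ℝ) ^ d : ℝ) : ℂ) * lpos b (j - d) n := by
  unfold lpos
  refine pos_sh _ _ _ _ d ?_ ?_ n
  · intro l
    congr 1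
    ring
  · intro l
    congr 1
    ring

theorem V_im (b : ℝ) (j l : ℤ) : (lpos b j (.V l)).im = 0 := by
  show ((((3 / 5 : ℝ) ^ l : ℝ) : ℂ) * (-1)).im = 0
  rw [Complex.im_ofReal_mul]
  simp

theorem N_im (b : ℝ) (j X l : ℤ) : (lpos b j (.N X 0 l)).im = 0 := by
  show ((((3 / 5 : ℝ) ^ l : ℝ) : ℂ) * bp X 0).im = 0
  rw [Complex.im_ofReal_mul]
  simp [bp]

theorem fill_step {γ b : ℝ} (hb : IsB b) (hγ : 12886 / 10000 ≤ γ) {j : ℕ} (hj : 5 ≤ j)
    (hH : Hole γ b j) (h : FillJ γ b (j - 1)) : FillJ γ b j := by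
  have h1 := h.lin (a := 3 / 5) (by norm_num) 0
  have h2 := ((core_dec hb hj).mono hγ).dec
  have h3 := Dec0.dec hH
  refine ((h1.add h2).add h3).congr ?_
  intro A hA hF
  have ej : (((j - 1 : ℕ) : ℤ)) = (j : ℤ) - 1 := by omega
  have es : ∀ n : Nm, ((3 / 5 : ℝ) : ℂ) * lpos b ((j - 1 : ℕ) : ℤ) n + ((0 : ℝ) : ℂ) =
      lpos b j (n.sh 1) := by
    intro n
    rw [lpos_sh, ej, zpow_one]
    simp
  simp only
  rw [es, es, ← pthN_map A (fun z => ((3 / 5 : ℝ) : ℂ) * z + ((0 : ℝ) : ℂ)), List.map_map]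
  have e1 : itf.map ((fun z => ((3 / 5 : ℝ) : ℂ) * z + ((0 : ℝ) : ℂ)) ∘ lpos b ((j - 1 : ℕ) : ℤ)) =
      (itf.map (Nm.sh 1)).map (lpos b j) := by
    rw [List.map_map]
    refine List.map_congr_left fun n _ => ?_
    simp only [Function.comp_apply]
    exact es n
  rw [e1]
  have e2 : (Nm.V 0).sh 1 = .V 1 := rfl
  rw [e2]
  have i0 := V_im b j 0
  have i1 := V_im b j 1
  have i2 : (lpos b j u0).im = 0 := N_im b j _ _
  have i3 : (lpos b j (u0.sh 1)).im = 0 := N_im b j _ _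
  have f1 := hF (lpos b j (.V 0)) (lpos b j (.V 1)) (lpos b j (u0.sh 1)) i0 i1 i3
  have f2 := hF (lpos b j (.V 0)) (lpos b j (u0.sh 1)) (lpos b j u0) i0 i3 i2
  linarith

/-! ### the central part -/

theorem tm {b : ℝ} (hb : IsB b) (j : ℕ) (i : ℤ) (h : i = j) : (tFI j).mem (tt b i) := by
  rw [h]
  exact tFI_mem hb j

theorem tm1 (b : ℝ) (i : ℤ) (h : i = -1) : (FI.rat 7 8).mem (tt b i) := by
  rw [h, tt_neg]
  exact lrat_mem 7 8 (by norm_num) (by norm_num)

theorem exitEnv_ok {b : ℝ} (hb : IsB b) :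
    exitEnv.Ok (fun l => tt b (0 - l)) (fun l => hh (0 - l)) [1, 0, -1, -2, -3, -4]
      [0, -1, -2, -3, -4] := by
  refine ⟨?_, ?_, ?_, ?_⟩
  · intro l hl
    simp only [List.mem_cons, List.not_mem_nil, or_false] at hl
    rcases hl with rfl | rfl | rfl | rfl | rfl | rfl
    · exact ⟨tm1 b _ (by norm_num), by decide +kernel⟩
    · exact ⟨tm hb 0 _ (by norm_num), by decide +kernel⟩
    · exact ⟨tm hb 1 _ (by norm_num), by decide +kernel⟩
    · exact ⟨tm hb 2 _ (by norm_num), by decide +kernel⟩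
    · exact ⟨tm hb 3 _ (by norm_num), by decide +kernel⟩
    · exact ⟨tm hb 4 _ (by norm_num), by decide +kernel⟩
  · intro l hl
    simp only [List.mem_cons, List.not_mem_nil, or_false] at hl
    rcases eq_or_ne l 0 with rfl | hne
    · show (FI.rat 7 20).mem (hh (0 - 0))
      rw [sub_zero, hh_zero]
      exact lrat_mem 7 20 (by norm_num) (by norm_num)
    · have e : exitEnv.h l = FI.rat 91 250 := if_neg hne
      show (exitEnv.h l).mem (hh (0 - l))
      rw [e, hh_ne (by omega)]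
      exact h_mem
  · intro l hl
    simp only [List.mem_cons, List.not_mem_nil, or_false] at hl
    rcases hl with rfl | rfl | rfl | rfl | rfl
    · exact (frame_mem (tm hb 0 _ (by norm_num)) (tm1 b _ (by norm_num)) exit_frame0).1
    · exact (frame_mem (tm hb 1 _ (by norm_num)) (tm hb 0 _ (by norm_num)) exit_frame1).1
    · exact (frame_mem (tm hb 2 _ (by norm_num)) (tm hb 1 _ (by norm_num)) exit_frame2).1
    · exact (frame_mem (tm hb 3 _ (by norm_num)) (tm hb 2 _ (by norm_num)) exit_frame3).1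
    · exact (frame_mem (tm hb 4 _ (by norm_num)) (tm hb 3 _ (by norm_num)) exit_frame4).1
  · intro l hl
    simp only [List.mem_cons, List.not_mem_nil, or_false] at hl
    rcases hl with rfl | rfl | rfl | rfl | rfl
    · exact (frame_mem (tm hb 0 _ (by norm_num)) (tm1 b _ (by norm_num)) exit_frame0).2
    · exact (frame_mem (tm hb 1 _ (by norm_num)) (tm hb 0 _ (by norm_num)) exit_frame1).2
    · exact (frame_mem (tm hb 2 _ (by norm_num)) (tm hb 1 _ (by norm_num)) exit_frame2).2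
    · exact (frame_mem (tm hb 3 _ (by norm_num)) (tm hb 2 _ (by norm_num)) exit_frame3).2
    · exact (frame_mem (tm hb 4 _ (by norm_num)) (tm hb 3 _ (by norm_num)) exit_frame4).2

/-- a hole in the chain frame -/
def hnm (j : ℕ) : List Nm := (spn j ++ ringOut.map (toT 0)).map (Nm.sh (-(j : ℤ)))

theorem hole_chain {γ b : ℝ} {j : ℕ} (h : Hole γ b j) :
    Dec0 γ (fun A => bdN A ((hnm j).map (lpos b 0))) := by
  have ha : (((3 / 5 : ℝ) ^ (-(j : ℤ)) : ℝ) : ℂ) ≠ 0 := by
    have : (3 / 5 : ℝ) ^ (-(j : ℤ)) ≠ 0 := by positivity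
    exact_mod_cast this
  refine (Dec0.lin h ha 0).congr ?_
  intro A hA
  rw [← bdN_map A (fun z => (((3 / 5 : ℝ) ^ (-(j : ℤ)) : ℝ) : ℂ) * z + 0), List.map_map]
  unfold hnm
  rw [List.map_map]
  congr 1
  refine List.map_congr_left fun n _ => ?_
  simp only [Function.comp_apply]
  rw [lpos_sh]
  simp

theorem exit_dec {b : ℝ} (hb : IsB b) :
    Dec0 (12886 / 10000) (fun A => -pthN A ((itf.map (Nm.sh (-4))).map (lpos b 0)) +
      pthN A ([.V (-4), .V (-3), .V (-2), .V (-1), .V 0, .V 1].map (lpos b 0)) +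
      pthN A (exitB.map (lpos b 0)) - (bdN A ((hnm 0).map (lpos b 0)) +
      (bdN A ((hnm 1).map (lpos b 0)) + (bdN A ((hnm 2).map (lpos b 0)) +
      (bdN A ((hnm 3).map (lpos b 0)) + bdN A ((hnm 4).map (lpos b 0))))))) := by
  have h := md_dec_holes exitMD exitH (.N 0 0 0) exitEnv.pos
    (Nm.ok [1, 0, -1, -2, -3, -4] [0, -1, -2, -3, -4]) (lpos b 0)
    (fun n hn => Env.pos_mem (exitEnv_ok hb) hn) (τ := 3) (δ := 2) (by norm_num) (by norm_num)
    exit_geo exit_glue exit_near exit_paths exit_holes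
  refine h.congr ?_
  intro A hA
  have e0 : ∀ j : ℕ, hnm j = (spn j ++ ringOut.map (toT 0)).map (Nm.sh (-(j : ℤ))) := fun _ => rfl
  rw [e0 0, e0 1, e0 2, e0 3, e0 4]
  simp only [List.map_cons, List.map_nil, List.sum_cons, List.sum_nil, add_zero]
  rw [List.map_reverse, pthN_reverse A hA]
  norm_num
  ring

end Pool.Agent.Helper37.CP
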