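import Pool.Agent.Helper37.CP.Asm

/-! Assembly of the chains: the half discs of all levels. -/

set_option autoImplicit false

namespace Pool.Agent.Helper37.CP

open Metric Set

/-- names of real points -/
def Nm.real : Nm → Bool
  | .N _ Y _ => decide (Y = 0)
  | .V _ => true
  | .W _ => false
  | .T _ _ _ _ => false

theorem real_im {n : Nm} (h : n.real = true) (b : ℝ) (j : ℤ) : (lpos b j n).im = 0 := by
  cases n with
  | N X Y l =>
    have hY : Y = 0 := by simpa [Nm.real] using h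
    subst hY
    exact N_im b j X l
  | V l => exact V_im b j l
  | W l => simp [Nm.real] at h
  | T X Y k l => simp [Nm.real] at h

theorem exitB_form : exitB = .V 1 :: (exitB.tail.dropLast ++ [u0.sh (-4)]) ∧
    (exitB.all Nm.real) = true := by decide +kernel

theorem exitB_path {A : ℂ → ℂ → ℤ} (hA : Anti A) (hF : Flt A) (b : ℝ) :
    pthN A (exitB.map (lpos b 0)) = A (lpos b 0 (.V 1)) (lpos b 0 (u0.sh (-4))) := by
  obtain ⟨h1, h2⟩ := exitB_form
  have h3 : ∀ n ∈ exitB, (lpos b 0 n).im = 0 := fun n hn =>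
    real_im (List.all_eq_true.1 h2 n hn) b 0
  rw [h1]
  simp only [List.map_cons, List.map_append, List.map_nil]
  refine pthN_flt hA hF _ _ _ (V_im b 0 1) (N_im b 0 _ _) ?_
  intro p hp
  obtain ⟨n, hn, rfl⟩ := List.mem_map.1 hp
  apply h3
  exact List.mem_of_mem_tail (List.mem_of_mem_dropLast hn)

theorem fill_base {γ b : ℝ} (hb : IsB b) (hγ : 12886 / 10000 ≤ γ) (hH : ∀ j, Hole γ b j) :
    FillJ γ b 4 := by
  have h1 := ((exit_dec hb).mono hγ).dec
  have k0 := (hole_chain (hH 0)).dec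
  have k1 := (hole_chain (hH 1)).dec
  have k2 := (hole_chain (hH 2)).dec
  have k3 := (hole_chain (hH 3)).dec
  have k4 := (hole_chain (hH 4)).dec
  have h2 : Dec γ (fun A => A (lpos b 0 (.V (-4))) (lpos b 0 (u0.sh (-4))) -
      pthN A ((itf.map (Nm.sh (-4))).map (lpos b 0))) := by
    refine (((((h1.add k0).add k1).add k2).add k3).add k4).congr ?_
    intro A hA hF
    have e1 : pthN A ([.V (-4), .V (-3), .V (-2), .V (-1), .V 0, .V 1].map (lpos b 0)) =
        A (lpos b 0 (.V (-4))) (lpos b 0 (.V 1)) := by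
      have h := pthN_flt hA hF [lpos b 0 (.V (-3)), lpos b 0 (.V (-2)), lpos b 0 (.V (-1)),
        lpos b 0 (.V 0)] (lpos b 0 (.V (-4))) (lpos b 0 (.V 1)) (V_im b 0 _) (V_im b 0 _) (by
          intro p hp
          simp only [List.mem_cons, List.not_mem_nil, or_false] at hp
          rcases hp with rfl | rfl | rfl | rfl <;> exact V_im b 0 _)
      exact h
    have e2 := exitB_path hA hF b
    have e3 := hF (lpos b 0 (.V (-4))) (lpos b 0 (.V 1)) (lpos b 0 (u0.sh (-4))) (V_im b 0 _)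
      (V_im b 0 _) (N_im b 0 _ _)
    rw [e1, e2]
    linarith
  have h3 := h2.lin (a := (3 / 5) ^ 4) (by norm_num) 0
  have es : ∀ n : Nm, (((3 / 5 : ℝ) ^ 4 : ℝ) : ℂ) * lpos b 0 (n.sh (-4)) + ((0 : ℝ) : ℂ) =
      lpos b 4 n := by
    intro n
    rw [lpos_sh]
    have e : (((3 / 5 : ℝ) ^ 4 : ℝ) : ℂ) * ((((3 / 5 : ℝ) ^ (-4 : ℤ) : ℝ) : ℂ) * lpos b (0 - -4) n) =
        (((3 / 5 : ℝ) ^ 4 * (3 / 5 : ℝ) ^ (-4 : ℤ) : ℝ) : ℂ) * lpos b (0 - -4) n := by
      push_cast
      ring
    rw [e]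
    have e2 : ((3 / 5 : ℝ) ^ 4 * (3 / 5 : ℝ) ^ (-4 : ℤ) : ℝ) = 1 := by
      rw [zpow_neg]
      norm_num
    rw [e2]
    norm_num
  refine h3.congr ?_
  intro A hA hF
  have e4 : (Nm.V (-4)) = (Nm.V 0).sh (-4) := rfl
  simp only
  rw [e4, es, es, ← pthN_map A (fun z => (((3 / 5 : ℝ) ^ 4 : ℝ) : ℂ) * z + ((0 : ℝ) : ℂ)),
    List.map_map, List.map_map]
  congr 2
  refine List.map_congr_left fun n _ => ?_
  simp only [Function.comp_apply]
  exact es n

/-- **half discs of all levels** -/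
theorem fill_all {γ b : ℝ} (hb : IsB b) (hγ : 12886 / 10000 ≤ γ) (hH : ∀ j, Hole γ b j) :
    ∀ j : ℕ, 4 ≤ j → FillJ γ b j := by
  intro j hj
  induction j with
  | zero => omega
  | succ j ih =>
    rcases Nat.lt_or_ge j 4 with h | h
    · have : j + 1 = 4 := by omega
      rw [this]
      exact fill_base hb hγ hH
    · exact fill_step hb hγ (by omega) (hH _) (by
        rw [Nat.add_sub_cancel]
        exact ih h)

end Pool.Agent.Helper37.CP
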