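import Pool.Agent.Helper37.CP.Comb

/-! Certificates for the circularity of a polygon. -/

set_option autoImplicit false

namespace Pool.Agent.Helper37.CP

open Metric Set

/-- a strictly convex polygon with a certificate for the circularity -/
structure Cert (γ : ℝ) (L : List ℂ) : Prop where
  ok : Ok L
  cert : ∃ (c o : ℂ) (r R : ℝ), 0 < r ∧ R ≤ γ * r ∧
    (∀ e ∈ edges L, r * ‖e.2 - e.1‖ ≤ cr e.1 e.2 c) ∧ ∀ v ∈ L, ‖v - o‖ ≤ R

theorem cr_ball {p q c z : ℂ} {r : ℝ} (h : r * ‖q - p‖ ≤ cr p q c) (hz : ‖z - c‖ ≤ r) :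
    0 ≤ cr p q z := by
  have e : cr p q z = cr p q c + ((q.re - p.re) * (z.im - c.im) - (q.im - p.im) * (z.re - c.re)) := by
    unfold cr; ring
  have h1 : ((q.re - p.re) * (z.im - c.im) - (q.im - p.im) * (z.re - c.re)) ^ 2 ≤
      (‖q - p‖ * ‖z - c‖) ^ 2 := by
    rw [mul_pow, normSq', normSq', Complex.sub_re, Complex.sub_im, Complex.sub_re, Complex.sub_im]
    nlinarith [sq_nonneg ((q.re - p.re) * (z.re - c.re) + (q.im - p.im) * (z.im - c.im))]
  have h2 := abs_le_of_sq_le_sq h1 (by positivity)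
  have h3 := (abs_le.1 h2).1
  have h4 : ‖q - p‖ * ‖z - c‖ ≤ r * ‖q - p‖ := by
    rw [mul_comm]
    exact mul_le_mul_of_nonneg_right hz (norm_nonneg _)
  rw [e]
  linarith

theorem cert_gam {γ : ℝ} {L : List ℂ} (h : Cert γ L) : gam (convexHull ℝ (vs L)) ≤ γ := by
  obtain ⟨c, o, r, R, hr, hR, h1, h2⟩ := h.cert
  have hball : closedBall c r ⊆ convexHull ℝ (vs L) := by
    rw [hull_eq h.ok]
    intro z hz e he
    rw [mem_closedBall, dist_eq_norm] at hz
    exact cr_ball (h1 e he) hz
  have hcirc : convexHull ℝ (vs L) ⊆ closedBall o R := by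
    refine convexHull_min (fun v hv => ?_) (convex_closedBall o R)
    rw [mem_closedBall, dist_eq_norm]
    exact h2 v hv
  have hp := ok_poly h.ok
  have hne : (convexHull ℝ (vs L)).Nonempty := poly_nonempty hp
  have hR0 : 0 ≤ R := by
    obtain ⟨z, hz⟩ := hne
    have := hcirc hz
    rw [mem_closedBall] at this
    exact dist_nonneg.trans this
  have hcR : circR (convexHull ℝ (vs L)) ≤ R := by
    refine csInf_le ⟨0, ?_⟩ ⟨o, hcirc⟩
    rintro R' ⟨o', ho'⟩
    obtain ⟨z, hz⟩ := hne
    have := ho' hz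
    rw [mem_closedBall] at this
    exact dist_nonneg.trans this
  have hinR : r ≤ inR (convexHull ℝ (vs L)) := by
    refine le_csSup ⟨R, ?_⟩ ⟨hr.le, c, hball⟩
    rintro r' ⟨hr', c', hc'⟩
    have h3 : closedBall c' r' ⊆ closedBall o R := hc'.trans hcirc
    by_contra hcon
    have hlt : R < r' := not_le.1 hcon
    have a1 := h3 (show c' + (r' : ℂ) ∈ closedBall c' r' by
      rw [mem_closedBall, dist_eq_norm]
      simp [abs_of_nonneg hr'])
    have a2 := h3 (show c' - (r' : ℂ) ∈ closedBall c' r' by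
      rw [mem_closedBall, dist_eq_norm]
      simp [abs_of_nonneg hr'])
    rw [mem_closedBall] at a1 a2
    have a3 := dist_triangle_right (c' + (r' : ℂ)) (c' - (r' : ℂ)) o
    have a4 : dist (c' + (r' : ℂ)) (c' - (r' : ℂ)) = 2 * r' := by
      rw [dist_eq_norm]
      have : c' + (r' : ℂ) - (c' - (r' : ℂ)) = ((2 * r' : ℝ) : ℂ) := by
        push_cast
        ring
      rw [this, Complex.norm_real, Real.norm_of_nonneg (by positivity)]
    rw [a4] at a3
    linarith
  unfold gam
  rw [div_le_iff₀ (lt_of_lt_of_le hr hinR)]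
  have hγ : 0 ≤ γ := by
    by_contra hcon
    have : γ * r < 0 := mul_neg_of_neg_of_pos (not_le.1 hcon) hr
    linarith
  calc circR (convexHull ℝ (vs L)) ≤ R := hcR
    _ ≤ γ * r := hR
    _ ≤ γ * inR (convexHull ℝ (vs L)) := mul_le_mul_of_nonneg_left hinR hγ

theorem Cert.mono {γ γ' : ℝ} {L : List ℂ} (h : Cert γ L) (hγ : γ ≤ γ') : Cert γ' L := by
  obtain ⟨c, o, r, R, hr, hR, h1, h2⟩ := h.cert
  exact ⟨h.ok, c, o, r, R, hr, hR.trans (mul_le_mul_of_nonneg_right hγ hr.le), h1, h2⟩

/-! ### similarities -/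

theorem edges_map (f : ℂ → ℂ) (L : List ℂ) : edges (L.map f) = (edges L).map (Prod.map f f) := by
  unfold edges
  rw [← List.map_tail, ← List.map_take, ← List.map_append, List.zip_map]

theorem mem_edges {L : List ℂ} {e : ℂ × ℂ} (he : e ∈ edges L) : e.1 ∈ L ∧ e.2 ∈ L := by
  unfold edges at he
  obtain ⟨a, b⟩ := e
  have h1 := List.of_mem_zip he
  refine ⟨h1.1, ?_⟩
  rcases List.mem_append.1 h1.2 with h | h
  · exact List.mem_of_mem_tail h
  · exact List.mem_of_mem_take h

/-- cross product under `z ↦ a z + b` -/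
theorem cr_lin (a b p q x : ℂ) : cr (a * p + b) (a * q + b) (a * x + b) = ‖a‖ ^ 2 * cr p q x := by
  rw [normSq']
  unfold cr
  simp only [Complex.add_re, Complex.add_im, Complex.mul_re, Complex.mul_im]
  ring

theorem ok_lin {L : List ℂ} (h : Ok L) {a : ℂ} (ha : a ≠ 0) (b : ℂ) :
    Ok (L.map fun z => a * z + b) := by
  have hpos : 0 < ‖a‖ ^ 2 := by positivity
  refine ⟨?_, ?_, ?_, ?_⟩
  · refine h.nodup.map ?_
    intro x y hxy
    exact mul_left_cancel₀ ha (add_right_cancel hxy)
  · intro e he v hv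
    rw [edges_map] at he
    obtain ⟨e', he', rfl⟩ := List.mem_map.1 he
    obtain ⟨v', hv', rfl⟩ := List.mem_map.1 hv
    show 0 ≤ cr (a * e'.1 + b) (a * e'.2 + b) (a * v' + b)
    rw [cr_lin]
    exact mul_nonneg hpos.le (h.conv e' he' v' hv')
  · obtain ⟨c, hc⟩ := h.inner
    refine ⟨a * c + b, ?_⟩
    intro e he
    rw [edges_map] at he
    obtain ⟨e', he', rfl⟩ := List.mem_map.1 he
    show 0 < cr (a * e'.1 + b) (a * e'.2 + b) (a * c + b)
    rw [cr_lin]
    exact mul_pos hpos (hc e' he')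
  · intro h0
    exact h.ne (List.map_eq_nil_iff.1 h0)

theorem cert_lin {γ : ℝ} {L : List ℂ} (h : Cert γ L) {a : ℂ} (ha : a ≠ 0) (b : ℂ) :
    Cert γ (L.map fun z => a * z + b) := by
  obtain ⟨c, o, r, R, hr, hR, h1, h2⟩ := h.cert
  have hpos : 0 < ‖a‖ := norm_pos_iff.2 ha
  refine ⟨ok_lin h.ok ha b, a * c + b, a * o + b, ‖a‖ * r, ‖a‖ * R, by positivity, ?_, ?_, ?_⟩
  · calc ‖a‖ * R ≤ ‖a‖ * (γ * r) := mul_le_mul_of_nonneg_left hR hpos.le
      _ = γ * (‖a‖ * r) := by ring
  · intro e he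
    rw [edges_map] at he
    obtain ⟨e', he', rfl⟩ := List.mem_map.1 he
    show ‖a‖ * r * ‖a * e'.2 + b - (a * e'.1 + b)‖ ≤ cr (a * e'.1 + b) (a * e'.2 + b) (a * c + b)
    rw [cr_lin]
    have : a * e'.2 + b - (a * e'.1 + b) = a * (e'.2 - e'.1) := by ring
    rw [this, norm_mul]
    have := mul_le_mul_of_nonneg_left (h1 e' he') (sq_nonneg ‖a‖)
    calc ‖a‖ * r * (‖a‖ * ‖e'.2 - e'.1‖) = ‖a‖ ^ 2 * (r * ‖e'.2 - e'.1‖) := by ring
      _ ≤ _ := this
  · intro v hv
    obtain ⟨v', hv', rfl⟩ := List.mem_map.1 hv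
    have : a * v' + b - (a * o + b) = a * (v' - o) := by ring
    rw [this, norm_mul]
    exact mul_le_mul_of_nonneg_left (h2 v' hv') hpos.le

/-! ### reflections -/

theorem mem_edges_iff {L : List ℂ} {e : ℂ × ℂ} : e ∈ edges L ↔
    ∃ (i : ℕ) (hi : i < L.length), e = (L[i], L[(i + 1) % L.length]'(Nat.mod_lt _ (by omega))) := by
  unfold edges
  have hlen : L.length ≤ (L.tail ++ L.take 1).length := by
    simp only [List.length_append, List.length_tail, List.length_take]
    omega
  rw [List.mem_iff_getElem]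
  constructor
  · rintro ⟨i, hi, rfl⟩
    have hi' : i < L.length := by
      rw [List.length_zip] at hi
      omega
    refine ⟨i, hi', ?_⟩
    rw [List.getElem_zip]
    congr 1
    by_cases h : i + 1 < L.length
    · rw [List.getElem_append_left (by rw [List.length_tail]; omega), List.getElem_tail]
      congr 1
      rw [Nat.mod_eq_of_lt h]
    · have h2 : i + 1 = L.length := by omega
      rw [List.getElem_append_right (by rw [List.length_tail]; omega), List.getElem_take]
      congr 1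
      rw [h2, Nat.mod_self, List.length_tail]
      omega
  · rintro ⟨i, hi, rfl⟩
    refine ⟨i, by rw [List.length_zip]; omega, ?_⟩
    rw [List.getElem_zip]
    congr 1
    by_cases h : i + 1 < L.length
    · rw [List.getElem_append_left (by rw [List.length_tail]; omega), List.getElem_tail]
      congr 1
      rw [Nat.mod_eq_of_lt h]
    · have h2 : i + 1 = L.length := by omega
      rw [List.getElem_append_right (by rw [List.length_tail]; omega), List.getElem_take]
      congr 1
      rw [h2, Nat.mod_self, List.length_tail]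
      omega

theorem mem_edges_reverse {L : List ℂ} {e : ℂ × ℂ} (h : e ∈ edges L.reverse) :
    (e.2, e.1) ∈ edges L := by
  rw [mem_edges_iff] at h
  obtain ⟨i, hi, rfl⟩ := h
  rw [List.length_reverse] at hi
  have hn : 0 < L.length := by omega
  have hk : (i + 1) % L.length < L.length := Nat.mod_lt _ hn
  rw [mem_edges_iff]
  refine ⟨L.length - 1 - (i + 1) % L.length, by omega, ?_⟩
  simp only [List.getElem_reverse, List.length_reverse]
  congr 1
  congr 1
  by_cases h : i + 1 < L.length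
  · rw [Nat.mod_eq_of_lt h]
    have : L.length - 1 - (i + 1) + 1 = L.length - 1 - i := by omega
    rw [this, Nat.mod_eq_of_lt (by omega)]
  · have h2 : i + 1 = L.length := by omega
    rw [h2, Nat.mod_self]
    have : L.length - 1 - 0 + 1 = L.length := by omega
    rw [this, Nat.mod_self]
    omega

theorem cr_conj (p q x : ℂ) : cr (starRingEnd ℂ q) (starRingEnd ℂ p) (starRingEnd ℂ x) = cr p q x := by
  unfold cr
  simp only [Complex.conj_re, Complex.conj_im]
  ring

theorem ok_conj {L : List ℂ} (h : Ok L) : Ok (L.map (starRingEnd ℂ)).reverse := by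
  refine ⟨?_, ?_, ?_, ?_⟩
  · rw [List.nodup_reverse]
    exact h.nodup.map (starRingEnd ℂ).injective
  · intro e he v hv
    have he2 := mem_edges_reverse he
    rw [edges_map] at he2
    obtain ⟨e', he', h2⟩ := List.mem_map.1 he2
    rw [List.mem_reverse] at hv
    obtain ⟨v', hv', rfl⟩ := List.mem_map.1 hv
    have h3 : e.2 = starRingEnd ℂ e'.1 := (congrArg Prod.fst h2).symm
    have h4 : e.1 = starRingEnd ℂ e'.2 := (congrArg Prod.snd h2).symm
    rw [h3, h4, cr_conj]
    exact h.conv e' he' v' hv'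
  · obtain ⟨c, hc⟩ := h.inner
    refine ⟨starRingEnd ℂ c, ?_⟩
    intro e he
    have he2 := mem_edges_reverse he
    rw [edges_map] at he2
    obtain ⟨e', he', h2⟩ := List.mem_map.1 he2
    have h3 : e.2 = starRingEnd ℂ e'.1 := (congrArg Prod.fst h2).symm
    have h4 : e.1 = starRingEnd ℂ e'.2 := (congrArg Prod.snd h2).symm
    rw [h3, h4, cr_conj]
    exact hc e' he'
  · intro h0
    apply h.ne
    rwa [List.reverse_eq_nil_iff, List.map_eq_nil_iff] at h0

theorem cert_conj {γ : ℝ} {L : List ℂ} (h : Cert γ L) : Cert γ (L.map (starRingEnd ℂ)).reverse := by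
  obtain ⟨c, o, r, R, hr, hR, h1, h2⟩ := h.cert
  refine ⟨ok_conj h.ok, starRingEnd ℂ c, starRingEnd ℂ o, r, R, hr, hR, ?_, ?_⟩
  · intro e he
    have he2 := mem_edges_reverse he
    rw [edges_map] at he2
    obtain ⟨e', he', h2⟩ := List.mem_map.1 he2
    have h3 : e.2 = starRingEnd ℂ e'.1 := (congrArg Prod.fst h2).symm
    have h4 : e.1 = starRingEnd ℂ e'.2 := (congrArg Prod.snd h2).symm
    rw [h3, h4, cr_conj, ← map_sub, RCLike.norm_conj, norm_sub_rev]
    exact h1 e' he'
  · intro v hv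
    rw [List.mem_reverse] at hv
    obtain ⟨v', hv', rfl⟩ := List.mem_map.1 hv
    rw [← map_sub, RCLike.norm_conj]
    exact h2 v' hv'

end Pool.Agent.Helper37.CP
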