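import Pool.Agent.Helper37.CP.Part2

/-! Combinatorial gluing: cancellation of directed edges. -/

set_option autoImplicit false

namespace Pool.Agent.Helper37.CP

/-- sum of an edge function along an open path -/
def pthN {α : Type} (A : α → α → ℤ) : List α → ℤ
  | a :: b :: l => A a b + pthN A (b :: l)
  | _ => 0

/-- sum of an edge function along a closed path -/
def bdN {α : Type} (A : α → α → ℤ) : List α → ℤ
  | a :: l => pthN A (a :: (l ++ [a]))
  | [] => 0

theorem pth_eq_pthN (l : List ℂ) (x : ℂ) : pth l x = pthN (fun p q => N p q x) l := by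
  induction l with
  | nil => rfl
  | cons a l ih =>
    cases l with
    | nil => rfl
    | cons b l =>
      rw [pth_cons, ih]
      rfl

theorem bd_eq_bdN (l : List ℂ) (x : ℂ) : bd l x = bdN (fun p q => N p q x) l := by
  cases l with
  | nil => rfl
  | cons a l =>
    show pth (a :: (l ++ [a])) x = _
    rw [pth_eq_pthN]
    rfl

theorem pthN_map {α β : Type} (A : β → β → ℤ) (f : α → β) (l : List α) :
    pthN A (l.map f) = pthN (fun i j => A (f i) (f j)) l := by
  induction l with
  | nil => rfl
  | cons a l ih =>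
    cases l with
    | nil => rfl
    | cons b l =>
      simp only [List.map_cons] at ih ⊢
      show A (f a) (f b) + _ = A (f a) (f b) + _
      rw [ih]

theorem bdN_map {α β : Type} (A : β → β → ℤ) (f : α → β) (l : List α) :
    bdN A (l.map f) = bdN (fun i j => A (f i) (f j)) l := by
  cases l with
  | nil => rfl
  | cons a l =>
    show pthN A (f a :: (l.map f ++ [f a])) = _
    have : f a :: (l.map f ++ [f a]) = (a :: (l ++ [a])).map f := by simp
    rw [this, pthN_map]
    rfl

theorem pthN_append {α : Type} (A : α → α → ℤ) (l : List α) (a : α) (l' : List α) :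
    pthN A (l ++ a :: l') = pthN A (l ++ [a]) + pthN A (a :: l') := by
  induction l with
  | nil =>
    show _ = (0 : ℤ) + _
    rw [zero_add]
    rfl
  | cons b l ih =>
    cases l with
    | nil =>
      show A b a + _ = (A b a + 0) + _
      rw [add_zero]
    | cons c l =>
      simp only [List.cons_append] at ih ⊢
      show A b c + _ = (A b c + _) + _
      rw [ih, add_assoc]

theorem pthN_reverse {α : Type} (A : α → α → ℤ) (hA : ∀ i j, A i j = -A j i) (l : List α) :
    pthN A l.reverse = -pthN A l := by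
  induction l with
  | nil => rfl
  | cons a l ih =>
    cases l with
    | nil => rfl
    | cons b l =>
      have h1 : (a :: b :: l).reverse = l.reverse ++ b :: [a] := by simp
      rw [h1, pthN_append]
      have h2 : l.reverse ++ [b] = (b :: l).reverse := by simp
      rw [h2, ih]
      show _ + (A b a + 0) = -(A a b + _)
      rw [hA b a]
      ring

/-! ### tries -/

/-- binary tries with integer weights -/
inductive Tr : Type
  | nil : Tr
  | node (c : ℤ) (l r : Tr) : Tr

/-- weighted sum of the values of a function on the keys -/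
def Tr.ev (A : ℕ → ℤ) : Tr → ℕ → ℕ → ℤ
  | .nil, _, _ => 0
  | .node c l r, b, w => c * A b + (l.ev A b (2 * w) + r.ev A (b + w) (2 * w))

/-- add `d` at the key `k` -/
def Tr.ins : ℕ → ℕ → ℤ → Tr → Tr
  | 0, _, d, .nil => .node d .nil .nil
  | 0, _, d, .node c l r => .node (c + d) l r
  | n + 1, k, d, .nil =>
    if k = 0 then .node d .nil .nil
    else if k % 2 = 0 then .node 0 (Tr.ins n (k / 2) d .nil) .nil
    else .node 0 .nil (Tr.ins n (k / 2) d .nil)
  | n + 1, k, d, .node c l r =>
    if k = 0 then .node (c + d) l r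
    else if k % 2 = 0 then .node c (Tr.ins n (k / 2) d l) r
    else .node c l (Tr.ins n (k / 2) d r)

theorem Tr.ev_ins (A : ℕ → ℤ) : ∀ (n k : ℕ) (d : ℤ) (t : Tr) (b w : ℕ), k < 2 ^ n →
    (Tr.ins n k d t).ev A b w = t.ev A b w + d * A (b + w * k) := by
  intro n
  induction n with
  | zero =>
    intro k d t b w hk
    have hk0 : k = 0 := by simpa using hk
    subst hk0
    cases t with
    | nil => simp [Tr.ins, Tr.ev]
    | node c l r =>
      simp only [Tr.ins, Tr.ev, mul_zero, add_zero]
      ring
  | succ n ih =>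
    intro k d t b w hk
    have hk2 : k / 2 < 2 ^ n := by
      rw [pow_succ] at hk
      omega
    cases t with
    | nil =>
      unfold Tr.ins
      split_ifs with h1 h2
      · subst h1
        simp [Tr.ev]
      · simp only [Tr.ev, ih _ _ _ _ _ hk2]
        have : 2 * w * (k / 2) = w * k := by
          have : k = 2 * (k / 2) := by omega
          conv_rhs => rw [this]
          ring
        rw [this]
        ring
      · simp only [Tr.ev, ih _ _ _ _ _ hk2]
        have : b + w + 2 * w * (k / 2) = b + w * k := by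
          have : k = 2 * (k / 2) + 1 := by omega
          conv_rhs => rw [this]
          ring
        rw [this]
        ring
    | node c l r =>
      unfold Tr.ins
      split_ifs with h1 h2
      · subst h1
        simp only [Tr.ev, mul_zero, add_zero]
        ring
      · simp only [Tr.ev, ih _ _ _ _ _ hk2]
        have : 2 * w * (k / 2) = w * k := by
          have : k = 2 * (k / 2) := by omega
          conv_rhs => rw [this]
          ring
        rw [this]
        ring
      · simp only [Tr.ev, ih _ _ _ _ _ hk2]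
        have : b + w + 2 * w * (k / 2) = b + w * k := by
          have : k = 2 * (k / 2) + 1 := by omega
          conv_rhs => rw [this]
          ring
        rw [this]
        ring

/-- all weights vanish -/
def Tr.zero : Tr → Bool
  | .nil => true
  | .node c l r => (c == 0) && (l.zero && r.zero)

theorem Tr.ev_zero (A : ℕ → ℤ) : ∀ (t : Tr) (b w : ℕ), t.zero = true → t.ev A b w = 0 := by
  intro t
  induction t with
  | nil => intro b w _; rfl
  | node c l r hl hr =>
    intro b w h
    simp only [Tr.zero, Bool.and_eq_true, beq_iff_eq] at h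
    simp only [Tr.ev, h.1, zero_mul, hl _ _ h.2.1, hr _ _ h.2.2, add_zero]

/-- insert the directed edge `(i, j)` with sign `d`; indices below `2 ^ n` -/
def Tr.edge (n : ℕ) (d : ℤ) (i j : ℕ) (t : Tr) : Tr :=
  if i < j then Tr.ins (2 * n) (i * 2 ^ n + j) d t
  else if j < i then Tr.ins (2 * n) (j * 2 ^ n + i) (-d) t
  else t

theorem Tr.ev_edge (A : ℕ → ℕ → ℤ) (hA : ∀ i j, A i j = -A j i) (n : ℕ) (d : ℤ) (i j : ℕ) (t : Tr)
    (hi : i < 2 ^ n) (hj : j < 2 ^ n) :
    (Tr.edge n d i j t).ev (fun k => A (k / 2 ^ n) (k % 2 ^ n)) 0 1 =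
      t.ev (fun k => A (k / 2 ^ n) (k % 2 ^ n)) 0 1 + d * A i j := by
  have key : ∀ a b : ℕ, a < 2 ^ n → b < 2 ^ n → a * 2 ^ n + b < 2 ^ (2 * n) ∧
      (a * 2 ^ n + b) / 2 ^ n = a ∧ (a * 2 ^ n + b) % 2 ^ n = b := by
    intro a b ha hb
    have hp : 0 < 2 ^ n := by positivity
    refine ⟨?_, ?_, ?_⟩
    · have : 2 ^ (2 * n) = 2 ^ n * 2 ^ n := by rw [two_mul, pow_add]
      rw [this]
      calc a * 2 ^ n + b < a * 2 ^ n + 2 ^ n := by omega
        _ = (a + 1) * 2 ^ n := by ring
        _ ≤ 2 ^ n * 2 ^ n := Nat.mul_le_mul_right _ ha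
    · rw [add_comm, Nat.add_mul_div_right _ _ hp, Nat.div_eq_of_lt hb, zero_add]
    · rw [add_comm, Nat.add_mul_mod_self_right, Nat.mod_eq_of_lt hb]
  unfold Tr.edge
  split_ifs with h1 h2
  · obtain ⟨k1, k2, k3⟩ := key i j hi hj
    rw [Tr.ev_ins _ _ _ _ _ _ _ k1]
    simp only [zero_add, one_mul, k2, k3]
  · obtain ⟨k1, k2, k3⟩ := key j i hj hi
    rw [Tr.ev_ins _ _ _ _ _ _ _ k1]
    simp only [zero_add, one_mul, k2, k3]
    rw [hA i j]
    ring
  · have : i = j := by omega
    subst this
    have : A i i = 0 := by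
      have := hA i i
      omega
    rw [this, mul_zero, add_zero]

/-- insert an open path -/
def Tr.path (n : ℕ) (d : ℤ) : List ℕ → Tr → Tr
  | a :: b :: l, t => Tr.path n d (b :: l) (Tr.edge n d a b t)
  | _, t => t

theorem Tr.ev_path (A : ℕ → ℕ → ℤ) (hA : ∀ i j, A i j = -A j i) (n : ℕ) (d : ℤ) (l : List ℕ) :
    ∀ (t : Tr), (∀ i ∈ l, i < 2 ^ n) →
    (Tr.path n d l t).ev (fun k => A (k / 2 ^ n) (k % 2 ^ n)) 0 1 =
      t.ev (fun k => A (k / 2 ^ n) (k % 2 ^ n)) 0 1 + d * pthN A l := by
  induction l with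
  | nil => intro t _; simp [Tr.path, pthN]
  | cons a l ih =>
    cases l with
    | nil => intro t _; simp [Tr.path, pthN]
    | cons b l =>
      intro t h
      show (Tr.path n d (b :: l) (Tr.edge n d a b t)).ev _ 0 1 = _
      rw [ih _ (fun i hi => h i (List.mem_cons_of_mem _ hi)),
        Tr.ev_edge A hA n d a b t (h a (by simp)) (h b (by simp))]
      show _ = _ + d * (A a b + pthN A (b :: l))
      ring

/-- close a path -/
def clo : List ℕ → List ℕ
  | a :: l => a :: (l ++ [a])
  | [] => []

theorem bdN_clo (A : ℕ → ℕ → ℤ) (l : List ℕ) : bdN A l = pthN A (clo l) := by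
  cases l <;> rfl

/-- insert several closed polygons -/
def Tr.cells (n : ℕ) : List (List ℕ) → Tr → Tr
  | c :: cs, t => Tr.cells n cs (Tr.path n 1 (clo c) t)
  | [], t => t

/-- insert several open paths with sign `-1` -/
def Tr.paths (n : ℕ) : List (List ℕ) → Tr → Tr
  | c :: cs, t => Tr.paths n cs (Tr.path n (-1) c t)
  | [], t => t

/-- all indices are small -/
def small (n : ℕ) (cs : List (List ℕ)) : Bool := cs.all fun c => c.all fun i => Nat.blt i (2 ^ n)

theorem small_spec {n : ℕ} {cs : List (List ℕ)} (h : small n cs = true) :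
    ∀ c ∈ cs, ∀ i ∈ c, i < 2 ^ n := by
  intro c hc i hi
  unfold small at h
  rw [List.all_eq_true] at h
  have h1 := h c hc
  rw [List.all_eq_true] at h1
  exact (Nat.blt_eq ▸ h1 i hi : i < 2 ^ n)

theorem clo_mem {l : List ℕ} {i : ℕ} (h : i ∈ clo l) : i ∈ l := by
  cases l with
  | nil => exact h
  | cons a l =>
    simp only [clo, List.mem_cons, List.mem_append, List.not_mem_nil, or_false] at h ⊢
    tauto

theorem Tr.ev_cells (A : ℕ → ℕ → ℤ) (hA : ∀ i j, A i j = -A j i) (n : ℕ) (cs : List (List ℕ)) :
    ∀ (t : Tr), (∀ c ∈ cs, ∀ i ∈ c, i < 2 ^ n) →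
    (Tr.cells n cs t).ev (fun k => A (k / 2 ^ n) (k % 2 ^ n)) 0 1 =
      t.ev (fun k => A (k / 2 ^ n) (k % 2 ^ n)) 0 1 + (cs.map (bdN A)).sum := by
  induction cs with
  | nil => intro t _; simp [Tr.cells]
  | cons c cs ih =>
    intro t h
    show (Tr.cells n cs (Tr.path n 1 (clo c) t)).ev _ 0 1 = _
    rw [ih _ (fun c' hc' => h c' (List.mem_cons_of_mem _ hc')),
      Tr.ev_path A hA n 1 (clo c) t (fun i hi => h c (by simp) i (clo_mem hi))]
    rw [List.map_cons, List.sum_cons, bdN_clo]
    ring

theorem Tr.ev_paths (A : ℕ → ℕ → ℤ) (hA : ∀ i j, A i j = -A j i) (n : ℕ) (cs : List (List ℕ)) :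
    ∀ (t : Tr), (∀ c ∈ cs, ∀ i ∈ c, i < 2 ^ n) →
    (Tr.paths n cs t).ev (fun k => A (k / 2 ^ n) (k % 2 ^ n)) 0 1 =
      t.ev (fun k => A (k / 2 ^ n) (k % 2 ^ n)) 0 1 - (cs.map (pthN A)).sum := by
  induction cs with
  | nil => intro t _; simp [Tr.paths]
  | cons c cs ih =>
    intro t h
    show (Tr.paths n cs (Tr.path n (-1) c t)).ev _ 0 1 = _
    rw [ih _ (fun c' hc' => h c' (List.mem_cons_of_mem _ hc')),
      Tr.ev_path A hA n (-1) c t (fun i hi => h c (by simp) i hi)]
    rw [List.map_cons, List.sum_cons]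
    ring

/-- the check: the directed edges of the cells are the directed edges of the paths, up to cancellation -/
def glue (n : ℕ) (cells paths : List (List ℕ)) : Bool :=
  small n cells && (small n paths && (Tr.paths n paths (Tr.cells n cells .nil)).zero)

theorem glue_spec {n : ℕ} {cells paths : List (List ℕ)} (h : glue n cells paths = true)
    (A : ℕ → ℕ → ℤ) (hA : ∀ i j, A i j = -A j i) :
    (cells.map (bdN A)).sum = (paths.map (pthN A)).sum := by
  unfold glue at h
  rw [Bool.and_eq_true, Bool.and_eq_true] at h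
  obtain ⟨h1, h2, h3⟩ := h
  have e := Tr.ev_zero (fun k => A (k / 2 ^ n) (k % 2 ^ n)) _ 0 1 h3
  rw [Tr.ev_paths A hA n paths _ (small_spec h2), Tr.ev_cells A hA n cells _ (small_spec h1)] at e
  simp only [Tr.ev, zero_add] at e
  linarith

/-- geometric form -/
theorem glue_bd {n : ℕ} {cells paths : List (List ℕ)} (h : glue n cells paths = true)
    (pos : ℕ → ℂ) (x : ℂ) :
    (cells.map fun c => bd (c.map pos) x).sum = (paths.map fun c => pth (c.map pos) x).sum := by
  have h1 := glue_spec h (fun i j => N (pos i) (pos j) x) (fun i j => N_neg _ _ _)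
  have h2 : (cells.map fun c => bd (c.map pos) x) =
      cells.map (bdN fun i j => N (pos i) (pos j) x) := by
    refine List.map_congr_left fun c _ => ?_
    rw [bd_eq_bdN, bdN_map]
  have h3 : (paths.map fun c => pth (c.map pos) x) =
      paths.map (pthN fun i j => N (pos i) (pos j) x) := by
    refine List.map_congr_left fun c _ => ?_
    rw [pth_eq_pthN, pthN_map]
  rw [h2, h3]
  exact h1

end Pool.Agent.Helper37.CP
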