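import Mathlib

/-! Convex partitions and circularity (definitions for `MP_ca50fe_co`).  The plane is `ℂ`. -/

namespace Pool.Agent.Helper37.CP

/-- the radius of the smallest closed disk containing `P` -/
noncomputable def circR (P : Set ℂ) : ℝ := sInf {R : ℝ | ∃ o : ℂ, P ⊆ Metric.closedBall o R}

/-- the radius of the largest closed disk contained in `P` -/
noncomputable def inR (P : Set ℂ) : ℝ :=
  sSup {r : ℝ | 0 ≤ r ∧ ∃ c : ℂ, Metric.closedBall c r ⊆ P}

/-- the circularity -/
noncomputable def gam (P : Set ℂ) : ℝ := circR P / inR P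

/-- a convex polygon: the convex hull of a finite set, with nonempty interior -/
def IsPoly (P : Set ℂ) : Prop :=
  (∃ S : Finset ℂ, P = convexHull ℝ (S : Set ℂ)) ∧ (interior P).Nonempty

/-- a finite convex partition of `K` -/
structure IsPart (K : Set ℂ) {n : ℕ} (P : Fin n → Set ℂ) : Prop where
  poly : ∀ i, IsPoly (P i)
  disj : ∀ i j, i ≠ j → Disjoint (interior (P i)) (interior (P j))
  union : ⋃ i, P i = K

/-- the unit square -/
def sqr : Set ℂ := {z : ℂ | 0 ≤ z.re ∧ z.re ≤ 1 ∧ 0 ≤ z.im ∧ z.im ≤ 1}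

end Pool.Agent.Helper37.CP
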