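import Pool.Agent.Helper37.CP.Defs

/-! Costs of convex partitions of the square (definitions for `MP_ca50fe_co`). -/

namespace Pool.Agent.Helper37.CP

/-- the cost of a partition: the largest circularity of a piece -/
noncomputable def cost {n : ℕ} (P : Fin n → Set ℂ) : ℝ := ⨆ i, gam (P i)

/-- the infimum of the costs of the convex partitions of the square -/
noncomputable def rhoStar : ℝ :=
  sInf {c : ℝ | ∃ (n : ℕ) (P : Fin n → Set ℂ), IsPart sqr P ∧ c = cost P}

end Pool.Agent.Helper37.CP
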