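import Pool.Agent.Helper37.CP.Sq

/-! Fixed point interval arithmetic. -/

set_option autoImplicit false

namespace Pool.Agent.Helper37.CP

/-- the scale -/
def SC : ℤ := 1000000000000

/-- an interval with end points `lo / SC`, `hi / SC` -/
structure FI : Type where
  lo : ℤ
  hi : ℤ

namespace FI

/-- membership -/
def mem (I : FI) (x : ℝ) : Prop := (I.lo : ℝ) ≤ x * (SC : ℝ) ∧ x * (SC : ℝ) ≤ (I.hi : ℝ)

def add (I J : FI) : FI := ⟨I.lo + J.lo, I.hi + J.hi⟩
def neg (I : FI) : FI := ⟨-I.hi, -I.lo⟩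
def sub (I J : FI) : FI := ⟨I.lo - J.hi, I.hi - J.lo⟩

def mul (I J : FI) : FI :=
  let p := I.lo * J.lo
  let q := I.lo * J.hi
  let r := I.hi * J.lo
  let s := I.hi * J.hi
  ⟨min (min p q) (min r s) / SC, -(-(max (max p q) (max r s)) / SC)⟩

def inv (I : FI) : FI := ⟨SC * SC / I.hi, -(-(SC * SC) / I.lo)⟩

/-- enclosure of `n / d` -/
def rat (n d : ℤ) : FI := ⟨n * SC / d, -(-(n * SC) / d)⟩

end FI

theorem SC_pos : (0 : ℝ) < (SC : ℝ) := by
  unfold SC
  norm_num

theorem fdiv_le (a : ℤ) {b : ℤ} (hb : 0 < b) : ((a / b : ℤ) : ℝ) ≤ (a : ℝ) / (b : ℝ) := by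
  have hb' : (0 : ℝ) < (b : ℝ) := by exact_mod_cast hb
  rw [le_div_iff₀ hb']
  exact_mod_cast Int.ediv_mul_le a hb.ne'

theorem le_cdiv (a : ℤ) {b : ℤ} (hb : 0 < b) : (a : ℝ) / (b : ℝ) ≤ ((-(-a / b) : ℤ) : ℝ) := by
  have h := fdiv_le (-a) hb
  push_cast at h ⊢
  rw [neg_div] at h
  linarith

theorem le_mul_min {a b c d x y : ℝ} (h1 : a ≤ x) (h2 : x ≤ b) (h3 : c ≤ y) (h4 : y ≤ d) :
    min (min (a * c) (a * d)) (min (b * c) (b * d)) ≤ x * y := by
  have k1 : min (x * c) (x * d) ≤ x * y := by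
    rcases le_total 0 x with h | h
    · exact (min_le_left _ _).trans (mul_le_mul_of_nonneg_left h3 h)
    · exact (min_le_right _ _).trans (mul_le_mul_of_nonpos_left h4 h)
  have k2 : min (a * c) (b * c) ≤ x * c := by
    rcases le_total 0 c with h | h
    · exact (min_le_left _ _).trans (mul_le_mul_of_nonneg_right h1 h)
    · exact (min_le_right _ _).trans (mul_le_mul_of_nonpos_right h2 h)
  have k3 : min (a * d) (b * d) ≤ x * d := by
    rcases le_total 0 d with h | h
    · exact (min_le_left _ _).trans (mul_le_mul_of_nonneg_right h1 h)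
    · exact (min_le_right _ _).trans (mul_le_mul_of_nonpos_right h2 h)
  refine le_trans ?_ k1
  refine le_min (le_trans ?_ k2) (le_trans ?_ k3)
  · exact le_min ((min_le_left _ _).trans (min_le_left _ _)) ((min_le_right _ _).trans (min_le_left _ _))
  · exact le_min ((min_le_left _ _).trans (min_le_right _ _)) ((min_le_right _ _).trans (min_le_right _ _))

theorem mul_max_le {a b c d x y : ℝ} (h1 : a ≤ x) (h2 : x ≤ b) (h3 : c ≤ y) (h4 : y ≤ d) :
    x * y ≤ max (max (a * c) (a * d)) (max (b * c) (b * d)) := by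
  have k1 : x * y ≤ max (x * c) (x * d) := by
    rcases le_total 0 x with h | h
    · exact (mul_le_mul_of_nonneg_left h4 h).trans (le_max_right _ _)
    · exact (mul_le_mul_of_nonpos_left h3 h).trans (le_max_left _ _)
  have k2 : x * c ≤ max (a * c) (b * c) := by
    rcases le_total 0 c with h | h
    · exact (mul_le_mul_of_nonneg_right h2 h).trans (le_max_right _ _)
    · exact (mul_le_mul_of_nonpos_right h1 h).trans (le_max_left _ _)
  have k3 : x * d ≤ max (a * d) (b * d) := by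
    rcases le_total 0 d with h | h
    · exact (mul_le_mul_of_nonneg_right h2 h).trans (le_max_right _ _)
    · exact (mul_le_mul_of_nonpos_right h1 h).trans (le_max_left _ _)
  refine le_trans k1 ?_
  refine max_le (le_trans k2 ?_) (le_trans k3 ?_)
  · exact max_le ((le_max_left _ _).trans (le_max_left _ _)) ((le_max_left _ _).trans (le_max_right _ _))
  · exact max_le ((le_max_right _ _).trans (le_max_left _ _)) ((le_max_right _ _).trans (le_max_right _ _))

namespace FI

theorem add_mem {I J : FI} {x y : ℝ} (hx : I.mem x) (hy : J.mem y) : (I.add J).mem (x + y) := by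
  obtain ⟨h1, h2⟩ := hx
  obtain ⟨h3, h4⟩ := hy
  constructor
  · simp only [add]
    push_cast
    linarith
  · simp only [add]
    push_cast
    linarith

theorem neg_mem {I : FI} {x : ℝ} (hx : I.mem x) : I.neg.mem (-x) := by
  obtain ⟨h1, h2⟩ := hx
  constructor
  · simp only [neg]
    push_cast
    linarith
  · simp only [neg]
    push_cast
    linarith

theorem sub_mem {I J : FI} {x y : ℝ} (hx : I.mem x) (hy : J.mem y) : (I.sub J).mem (x - y) := by
  obtain ⟨h1, h2⟩ := hx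
  obtain ⟨h3, h4⟩ := hy
  constructor
  · simp only [sub]
    push_cast
    linarith
  · simp only [sub]
    push_cast
    linarith

theorem mul_mem {I J : FI} {x y : ℝ} (hx : I.mem x) (hy : J.mem y) : (I.mul J).mem (x * y) := by
  obtain ⟨h1, h2⟩ := hx
  obtain ⟨h3, h4⟩ := hy
  have hS := SC_pos
  have e : x * y * (SC : ℝ) = (x * (SC : ℝ)) * (y * (SC : ℝ)) / (SC : ℝ) := by
    field_simp
  constructor
  · simp only [mul]
    rw [e]
    refine (fdiv_le _ (by unfold SC; norm_num)).trans ?_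
    push_cast
    exact div_le_div_of_nonneg_right (le_mul_min h1 h2 h3 h4) hS.le
  · simp only [mul]
    rw [e]
    refine le_trans ?_ (le_cdiv _ (by unfold SC; norm_num))
    push_cast
    exact div_le_div_of_nonneg_right (mul_max_le h1 h2 h3 h4) hS.le

theorem inv_mem {I : FI} {x : ℝ} (hx : I.mem x) (h0 : 0 < I.lo) : I.inv.mem x⁻¹ := by
  obtain ⟨h1, h2⟩ := hx
  have hS := SC_pos
  have h0' : (0 : ℝ) < (I.lo : ℝ) := by exact_mod_cast h0
  have hX : 0 < x * (SC : ℝ) := lt_of_lt_of_le h0' h1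
  have hx0 : 0 < x := by
    by_contra h
    push Not at h
    have := mul_nonpos_of_nonpos_of_nonneg h hS.le
    linarith
  have hhi : (0 : ℝ) < (I.hi : ℝ) := lt_of_lt_of_le hX h2
  have hhi' : 0 < I.hi := by exact_mod_cast hhi
  have e : x⁻¹ * (SC : ℝ) = (SC : ℝ) * (SC : ℝ) / (x * (SC : ℝ)) := by
    field_simp
  constructor
  · simp only [inv]
    rw [e]
    refine (fdiv_le _ hhi').trans ?_
    push_cast
    exact div_le_div_of_nonneg_left (by positivity) hX h2
  · simp only [inv]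
    rw [e]
    refine le_trans ?_ (le_cdiv _ h0)
    push_cast
    exact div_le_div_of_nonneg_left (by positivity) h0' h1

theorem rat_mem (n : ℤ) {d : ℤ} (hd : 0 < d) : (rat n d).mem ((n : ℝ) / (d : ℝ)) := by
  have e : (n : ℝ) / (d : ℝ) * (SC : ℝ) = ((n * SC : ℤ) : ℝ) / (d : ℝ) := by
    push_cast
    ring
  constructor
  · simp only [rat]
    rw [e]
    exact fdiv_le _ hd
  · simp only [rat]
    rw [e]
    exact le_cdiv _ hd

theorem pos_of {I : FI} {x : ℝ} (hx : I.mem x) (h : 0 < I.lo) : 0 < x := by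
  have h0' : (0 : ℝ) < (I.lo : ℝ) := by exact_mod_cast h
  have h1 := hx.1
  by_contra hc
  push Not at hc
  have := mul_nonpos_of_nonpos_of_nonneg hc SC_pos.le
  linarith

theorem neg_of {I : FI} {x : ℝ} (hx : I.mem x) (h : I.hi < 0) : x < 0 := by
  have := pos_of (neg_mem hx) (by simp only [neg]; omega)
  linarith

end FI

/-- complex intervals -/
structure CI : Type where
  re : FI
  im : FI

namespace CI

def mem (I : CI) (z : ℂ) : Prop := I.re.mem z.re ∧ I.im.mem z.im

def add (I J : CI) : CI := ⟨I.re.add J.re, I.im.add J.im⟩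
def sub (I J : CI) : CI := ⟨I.re.sub J.re, I.im.sub J.im⟩
def mul (I J : CI) : CI :=
  ⟨(I.re.mul J.re).sub (I.im.mul J.im), (I.re.mul J.im).add (I.im.mul J.re)⟩
def conj (I : CI) : CI := ⟨I.re, I.im.neg⟩
def smul (k : FI) (I : CI) : CI := ⟨k.mul I.re, k.mul I.im⟩

/-- squared modulus -/
def nsq (I : CI) : FI := (I.re.mul I.re).add (I.im.mul I.im)

/-- inverse -/
def inv (I : CI) : CI := smul I.nsq.inv I.conj

theorem add_mem {I J : CI} {x y : ℂ} (hx : I.mem x) (hy : J.mem y) : (I.add J).mem (x + y) :=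
  ⟨FI.add_mem hx.1 hy.1, FI.add_mem hx.2 hy.2⟩

theorem sub_mem {I J : CI} {x y : ℂ} (hx : I.mem x) (hy : J.mem y) : (I.sub J).mem (x - y) :=
  ⟨FI.sub_mem hx.1 hy.1, FI.sub_mem hx.2 hy.2⟩

theorem mul_mem {I J : CI} {x y : ℂ} (hx : I.mem x) (hy : J.mem y) : (I.mul J).mem (x * y) :=
  ⟨by
    rw [Complex.mul_re]
    exact FI.sub_mem (FI.mul_mem hx.1 hy.1) (FI.mul_mem hx.2 hy.2), by
    rw [Complex.mul_im]
    exact FI.add_mem (FI.mul_mem hx.1 hy.2) (FI.mul_mem hx.2 hy.1)⟩

theorem conj_mem {I : CI} {x : ℂ} (hx : I.mem x) : I.conj.mem (starRingEnd ℂ x) :=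
  ⟨by rw [Complex.conj_re]; exact hx.1, by rw [Complex.conj_im]; exact FI.neg_mem hx.2⟩

theorem smul_mem {k : FI} {I : CI} {r : ℝ} {x : ℂ} (hk : k.mem r) (hx : I.mem x) :
    (smul k I).mem ((r : ℂ) * x) :=
  ⟨by
    rw [Complex.mul_re, Complex.ofReal_re, Complex.ofReal_im, zero_mul, sub_zero]
    exact FI.mul_mem hk hx.1, by
    rw [Complex.mul_im, Complex.ofReal_re, Complex.ofReal_im, zero_mul, add_zero]
    exact FI.mul_mem hk hx.2⟩

theorem nsq_mem {I : CI} {x : ℂ} (hx : I.mem x) : I.nsq.mem (‖x‖ ^ 2) := by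
  have e : ‖x‖ ^ 2 = x.re * x.re + x.im * x.im := by
    rw [normSq']
    ring
  rw [e]
  exact FI.add_mem (FI.mul_mem hx.1 hx.1) (FI.mul_mem hx.2 hx.2)

theorem inv_mem {I : CI} {x : ℂ} (hx : I.mem x) (h0 : 0 < I.nsq.lo) : I.inv.mem x⁻¹ := by
  have e : x⁻¹ = (((‖x‖ ^ 2)⁻¹ : ℝ) : ℂ) * starRingEnd ℂ x := by
    rw [Complex.inv_def, Complex.normSq_eq_norm_sq, mul_comm]
  rw [e]
  exact smul_mem (FI.inv_mem (nsq_mem hx) h0) (conj_mem hx)

end CI

/-- cross product of intervals -/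
def crI (p q x : CI) : FI :=
  ((q.re.sub p.re).mul (x.im.sub p.im)).sub ((q.im.sub p.im).mul (x.re.sub p.re))

theorem crI_mem {p q x : CI} {p' q' x' : ℂ} (hp : p.mem p') (hq : q.mem q') (hx : x.mem x') :
    (crI p q x).mem (cr p' q' x') := by
  unfold crI cr
  exact FI.sub_mem (FI.mul_mem (FI.sub_mem hq.1 hp.1) (FI.sub_mem hx.2 hp.2))
    (FI.mul_mem (FI.sub_mem hq.2 hp.2) (FI.sub_mem hx.1 hp.1))

end Pool.Agent.Helper37.CP
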