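import Pool.Agent.Helper37.CP.Tower

/-! Certified families of cells with a prescribed boundary. -/

set_option autoImplicit false

namespace Pool.Agent.Helper37.CP

open Metric Set

/-- antisymmetric edge functions -/
def Anti (A : ℂ → ℂ → ℤ) : Prop := ∀ p q, A p q = -A q p

/-- additive on the real axis -/
def Flt (A : ℂ → ℂ → ℤ) : Prop :=
  ∀ p q r : ℂ, p.im = 0 → q.im = 0 → r.im = 0 → A p q + A q r = A p r

/-- certified cells whose boundary is given by a functional -/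
def Dec0 (γ : ℝ) (Φ : (ℂ → ℂ → ℤ) → ℤ) : Prop :=
  ∃ Ls : List (List ℂ), (∀ L ∈ Ls, Cert γ L) ∧ ∀ A, Anti A → (Ls.map (bdN A)).sum = Φ A

/-- the same, modulo additivity on the real axis -/
def Dec (γ : ℝ) (Φ : (ℂ → ℂ → ℤ) → ℤ) : Prop :=
  ∃ Ls : List (List ℂ), (∀ L ∈ Ls, Cert γ L) ∧ ∀ A, Anti A → Flt A → (Ls.map (bdN A)).sum = Φ A

theorem Dec0.dec {γ : ℝ} {Φ : (ℂ → ℂ → ℤ) → ℤ} (h : Dec0 γ Φ) : Dec γ Φ := by
  obtain ⟨Ls, h1, h2⟩ := h
  exact ⟨Ls, h1, fun A hA _ => h2 A hA⟩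

theorem Dec0.add {γ : ℝ} {Φ Ψ : (ℂ → ℂ → ℤ) → ℤ} (h : Dec0 γ Φ) (h' : Dec0 γ Ψ) :
    Dec0 γ (fun A => Φ A + Ψ A) := by
  obtain ⟨Ls, h1, h2⟩ := h
  obtain ⟨Ls', h1', h2'⟩ := h'
  refine ⟨Ls ++ Ls', ?_, ?_⟩
  · intro L hL
    rcases List.mem_append.1 hL with h | h
    · exact h1 L h
    · exact h1' L h
  · intro A hA
    rw [List.map_append, List.sum_append, h2 A hA, h2' A hA]

theorem Dec.add {γ : ℝ} {Φ Ψ : (ℂ → ℂ → ℤ) → ℤ} (h : Dec γ Φ) (h' : Dec γ Ψ) :
    Dec γ (fun A => Φ A + Ψ A) := by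
  obtain ⟨Ls, h1, h2⟩ := h
  obtain ⟨Ls', h1', h2'⟩ := h'
  refine ⟨Ls ++ Ls', ?_, ?_⟩
  · intro L hL
    rcases List.mem_append.1 hL with h | h
    · exact h1 L h
    · exact h1' L h
  · intro A hA hF
    rw [List.map_append, List.sum_append, h2 A hA hF, h2' A hA hF]

theorem Dec0.congr {γ : ℝ} {Φ Ψ : (ℂ → ℂ → ℤ) → ℤ} (h : Dec0 γ Φ) (e : ∀ A, Anti A → Φ A = Ψ A) :
    Dec0 γ Ψ := by
  obtain ⟨Ls, h1, h2⟩ := h
  exact ⟨Ls, h1, fun A hA => by rw [h2 A hA, e A hA]⟩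

theorem Dec.congr {γ : ℝ} {Φ Ψ : (ℂ → ℂ → ℤ) → ℤ} (h : Dec γ Φ)
    (e : ∀ A, Anti A → Flt A → Φ A = Ψ A) : Dec γ Ψ := by
  obtain ⟨Ls, h1, h2⟩ := h
  exact ⟨Ls, h1, fun A hA hF => by rw [h2 A hA hF, e A hA hF]⟩

theorem Dec0.mono {γ γ' : ℝ} {Φ : (ℂ → ℂ → ℤ) → ℤ} (h : Dec0 γ Φ) (hγ : γ ≤ γ') : Dec0 γ' Φ := by
  obtain ⟨Ls, h1, h2⟩ := h
  exact ⟨Ls, fun L hL => (h1 L hL).mono hγ, h2⟩

theorem Dec.mono {γ γ' : ℝ} {Φ : (ℂ → ℂ → ℤ) → ℤ} (h : Dec γ Φ) (hγ : γ ≤ γ') : Dec γ' Φ := by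
  obtain ⟨Ls, h1, h2⟩ := h
  exact ⟨Ls, fun L hL => (h1 L hL).mono hγ, h2⟩

theorem dec0_single {γ : ℝ} {L : List ℂ} (h : Cert γ L) : Dec0 γ (fun A => bdN A L) := by
  refine ⟨[L], ?_, ?_⟩
  · intro L' hL'
    rw [List.mem_singleton.1 hL']
    exact h
  · intro A _
    simp

theorem dec0_nil (γ : ℝ) : Dec0 γ (fun _ => 0) := ⟨[], by simp, fun A _ => by simp⟩

/-- similarities -/
theorem Dec0.lin {γ : ℝ} {Φ : (ℂ → ℂ → ℤ) → ℤ} (h : Dec0 γ Φ) {a : ℂ} (ha : a ≠ 0) (b : ℂ) :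
    Dec0 γ (fun A => Φ (fun p q => A (a * p + b) (a * q + b))) := by
  obtain ⟨Ls, h1, h2⟩ := h
  refine ⟨Ls.map fun L => L.map fun z => a * z + b, ?_, ?_⟩
  · intro L hL
    obtain ⟨L', hL', rfl⟩ := List.mem_map.1 hL
    exact cert_lin (h1 L' hL') ha b
  · intro A hA
    show _ = Φ (fun p q => A (a * p + b) (a * q + b))
    rw [← h2 (fun p q => A (a * p + b) (a * q + b)) (fun p q => hA _ _), List.map_map]
    congr 1
    refine List.map_congr_left fun L _ => ?_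
    exact bdN_map A _ L

/-- similarities preserving the real axis -/
theorem Dec.lin {γ : ℝ} {Φ : (ℂ → ℂ → ℤ) → ℤ} (h : Dec γ Φ) {a : ℝ} (ha : a ≠ 0) (b : ℝ) :
    Dec γ (fun A => Φ (fun p q => A (a * p + b) (a * q + b))) := by
  obtain ⟨Ls, h1, h2⟩ := h
  have ha' : (a : ℂ) ≠ 0 := by exact_mod_cast ha
  refine ⟨Ls.map fun L => L.map fun z => (a : ℂ) * z + (b : ℂ), ?_, ?_⟩
  · intro L hL
    obtain ⟨L', hL', rfl⟩ := List.mem_map.1 hL
    exact cert_lin (h1 L' hL') ha' b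
  · intro A hA hF
    show _ = Φ (fun p q => A (a * p + b) (a * q + b))
    rw [← h2 (fun p q => A (a * p + b) (a * q + b)) (fun p q => hA _ _) ?_, List.map_map]
    · congr 1
      refine List.map_congr_left fun L _ => ?_
      exact bdN_map A _ L
    · intro p q r hp hq hr
      exact hF _ _ _ (by simp [hp]) (by simp [hq]) (by simp [hr])

theorem bdN_reverse {α : Type} (A : α → α → ℤ) (hA : ∀ i j, A i j = -A j i) (l : List α) :
    bdN A l.reverse = -bdN A l := by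
  cases l with
  | nil => rfl
  | cons a l =>
    -- both are closed paths through a
    have h1 : ∀ (l' : List α) (b : α), bdN A (l' ++ [b]) = pthN A (b :: (l' ++ [b])) := by
      intro l' b
      cases l' with
      | nil =>
        show A b b + 0 = A b b + 0
        rfl
      | cons c l' =>
        show pthN A (c :: ((l' ++ [b]) ++ [c])) = A b c + pthN A (c :: (l' ++ [b]))
        have e1 : c :: ((l' ++ [b]) ++ [c]) = (c :: l') ++ b :: [c] := by simp
        rw [e1, pthN_append]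
        have e2 : pthN A [b, c] = A b c := by
          show A b c + 0 = _
          rw [add_zero]
        rw [e2]
        simp only [List.cons_append]
        ring
    rw [List.reverse_cons, h1]
    have e3 : a :: (l.reverse ++ [a]) = (a :: (l ++ [a])).reverse := by simp
    rw [e3, pthN_reverse A hA]
    rfl

/-- reflections -/
theorem Dec0.refl {γ : ℝ} {Φ : (ℂ → ℂ → ℤ) → ℤ} (h : Dec0 γ Φ) {a : ℂ} (ha : a ≠ 0) (b : ℂ) :
    Dec0 γ (fun A => Φ (fun p q => A (a * starRingEnd ℂ q + b) (a * starRingEnd ℂ p + b))) := by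
  obtain ⟨Ls, h1, h2⟩ := h
  refine ⟨Ls.map fun L => ((L.map (starRingEnd ℂ)).reverse).map fun z => a * z + b, ?_, ?_⟩
  · intro L hL
    obtain ⟨L', hL', rfl⟩ := List.mem_map.1 hL
    exact cert_lin (cert_conj (h1 L' hL')) ha b
  · intro A hA
    show _ = Φ (fun p q => A (a * starRingEnd ℂ q + b) (a * starRingEnd ℂ p + b))
    rw [← h2 (fun p q => A (a * starRingEnd ℂ q + b) (a * starRingEnd ℂ p + b))
      (fun p q => hA _ _), List.map_map]
    congr 1
    refine List.map_congr_left fun L _ => ?_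
    show bdN A (((L.map (starRingEnd ℂ)).reverse).map fun z => a * z + b) = _
    rw [bdN_map, bdN_reverse _ (fun i j => hA _ _), bdN_map]
    have e1 : (fun p q => A (a * starRingEnd ℂ q + b) (a * starRingEnd ℂ p + b)) =
        fun p q => -A (a * starRingEnd ℂ p + b) (a * starRingEnd ℂ q + b) := by
      funext p q
      exact hA _ _
    rw [e1]
    have e2 : ∀ (B : ℂ → ℂ → ℤ) (l : List ℂ), pthN (fun p q => -B p q) l = -pthN B l := by
      intro B l
      induction l with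
      | nil => rfl
      | cons c l ih =>
        cases l with
        | nil => rfl
        | cons d l =>
          show -B c d + _ = -(B c d + _)
          rw [ih]
          ring
    have e3 : ∀ (B : ℂ → ℂ → ℤ) (l : List ℂ), bdN (fun p q => -B p q) l = -bdN B l := by
      intro B l
      cases l with
      | nil => rfl
      | cons c l => exact e2 B _
    rw [e3]

/-- the region above the real axis and under the path `v, l, u` -/
def Fill (γ : ℝ) (v : ℂ) (l : List ℂ) (u : ℂ) : Prop :=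
  Dec γ (fun A => A v u - pthN A (v :: (l ++ [u])))

theorem pthN_flt {A : ℂ → ℂ → ℤ} (hA : Anti A) (hF : Flt A) : ∀ (l : List ℂ) (a b : ℂ),
    a.im = 0 → b.im = 0 → (∀ p ∈ l, p.im = 0) → pthN A (a :: (l ++ [b])) = A a b := by
  intro l
  induction l with
  | nil =>
    intro a b _ _ _
    show A a b + 0 = _
    rw [add_zero]
  | cons c l ih =>
    intro a b ha hb hl
    show A a c + pthN A (c :: (l ++ [b])) = _
    rw [ih c b (hl c (by simp)) hb (fun p hp => hl p (List.mem_cons_of_mem _ hp))]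
    exact hF a c b ha (hl c (by simp)) hb

/-- one level of the recursion -/
theorem Fill.step {γ : ℝ} {v v' u u' : ℂ} {l l' rb : List ℂ} (h : Fill γ v' l' u') (hv : v.im = 0)
    (hv' : v'.im = 0) (hu : u.im = 0) (hu' : u'.im = 0) (hrb : ∀ p ∈ rb, p.im = 0)
    (hd : Dec γ (fun A => A v v' + pthN A (v' :: (l' ++ [u'])) + pthN A (u' :: (rb ++ [u])) -
      pthN A (v :: (l ++ [u])))) : Fill γ v l u := by
  refine (h.add hd).congr ?_
  intro A hA hF
  rw [pthN_flt hA hF rb u' u hu' hu hrb]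
  have e1 := hF v v' u' hv hv' hu'
  have e2 := hF v u' u hv hu' hu
  linarith

end Pool.Agent.Helper37.CP
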