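import Pool.Agent.Helper37.CP.Place
import Pool.Agent.Helper37.CP.DefsC

/-! The upper bound and the final theorem, from the statements of `Iface.lean`. -/

set_option autoImplicit false

namespace Pool.Agent.Helper37.CP

open Metric Set Filter Topology

/-- the similarity to the unit square -/
noncomputable def sg (z : ℂ) : ℂ := (5 / 33 : ℂ) * z + ⟨1 / 2, 1 / 2⟩

theorem sg_re (z : ℂ) : (sg z).re = 5 / 33 * z.re + 1 / 2 := by
  unfold sg
  simp

theorem sg_im (z : ℂ) : (sg z).im = 5 / 33 * z.im + 1 / 2 := by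
  unfold sg
  simp

theorem rot0 (z : ℂ) : rot 0 z = z := by
  unfold rot
  simp

theorem rot1 (z : ℂ) : rot 1 z = ⟨-z.im, z.re⟩ := by
  unfold rot
  apply Complex.ext <;> simp

theorem rot2 (z : ℂ) : rot 2 z = ⟨-z.re, -z.im⟩ := by
  unfold rot
  apply Complex.ext <;> simp

theorem rot4 (r : ℕ) (z : ℂ) : rot (r + 4) z = rot r z := by
  unfold rot
  rw [pow_add, Complex.I_pow_four, mul_one]

theorem sid_L4 {A : ℂ → ℂ → ℤ} (h : Sid A) : L4 (fun p q => A (sg p) (sg q)) := by
  intro r x y z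
  simp only
  induction r using Nat.strong_induction_on with
  | _ r ih =>
    rcases Nat.lt_or_ge r 4 with hr | hr
    · interval_cases r
      · rw [rot0, rot0, rot0]
        refine h.b _ ?_ _ ?_ _ ?_ <;>
        · show (sg _).im = 0
          rw [sg_im]
          norm_num
      · rw [rot1, rot1, rot1]
        refine h.r _ ?_ _ ?_ _ ?_ <;>
        · show (sg _).re = 1
          rw [sg_re]
          norm_num
      · rw [rot2, rot2, rot2]
        refine h.t _ ?_ _ ?_ _ ?_ <;>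
        · show (sg _).im = 1
          rw [sg_im]
          norm_num
      · rw [rot3, rot3, rot3]
        refine h.l _ ?_ _ ?_ _ ?_ <;>
        · show (sg _).re = 0
          rw [sg_re]
          norm_num
    · obtain ⟨k, rfl⟩ := Nat.exists_eq_add_of_le hr
      rw [add_comm 4 k, rot4, rot4, rot4]
      exact ih k (by omega)

theorem square_of {γ : ℝ}
    (h : DecP L4 γ (fun A => A (rot 0 ⟨-33 / 10, -33 / 10⟩) (rot 0 ⟨33 / 10, -33 / 10⟩) +
      (A (rot 1 ⟨-33 / 10, -33 / 10⟩) (rot 1 ⟨33 / 10, -33 / 10⟩) +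
      (A (rot 2 ⟨-33 / 10, -33 / 10⟩) (rot 2 ⟨33 / 10, -33 / 10⟩) +
      A (rot 3 ⟨-33 / 10, -33 / 10⟩) (rot 3 ⟨33 / 10, -33 / 10⟩))))) :
    ∃ (n : ℕ) (P : Fin n → Set ℂ), IsPart sqr P ∧ ∀ i, gam (P i) ≤ γ := by
  obtain ⟨Ls, h1, h2⟩ := h
  refine square_part (γ := γ) (Ls := Ls.map fun L => L.map sg) ?_ ?_
  · intro L hL
    obtain ⟨L', hL', rfl⟩ := List.mem_map.1 hL
    exact cert_lin (h1 L' hL') (by norm_num) _
  · intro A hA hS
    have h3 := h2 (fun p q => A (sg p) (sg q)) (fun p q => hA _ _) (sid_L4 hS)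
    rw [List.map_map]
    have e : (Ls.map (bdN A ∘ fun L => L.map sg)) = Ls.map (bdN fun p q => A (sg p) (sg q)) := by
      refine List.map_congr_left fun L _ => ?_
      exact bdN_map A sg L
    rw [e, h3]
    have c0 : sg (rot 0 ⟨-33 / 10, -33 / 10⟩) = 0 := by
      apply Complex.ext
      · rw [sg_re, rot0]; norm_num
      · rw [sg_im, rot0]; norm_num
    have c1 : sg (rot 0 ⟨33 / 10, -33 / 10⟩) = 1 := by
      apply Complex.ext
      · rw [sg_re, rot0]; norm_num
      · rw [sg_im, rot0]; norm_num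
    have c2 : sg (rot 1 ⟨-33 / 10, -33 / 10⟩) = 1 := by
      apply Complex.ext
      · rw [sg_re, rot1]; norm_num
      · rw [sg_im, rot1]; norm_num
    have c3 : sg (rot 1 ⟨33 / 10, -33 / 10⟩) = ⟨1, 1⟩ := by
      apply Complex.ext
      · rw [sg_re, rot1]; norm_num
      · rw [sg_im, rot1]; norm_num
    have c4 : sg (rot 2 ⟨-33 / 10, -33 / 10⟩) = ⟨1, 1⟩ := by
      apply Complex.ext
      · rw [sg_re, rot2]; norm_num
      · rw [sg_im, rot2]; norm_num
    have c5 : sg (rot 2 ⟨33 / 10, -33 / 10⟩) = Complex.I := by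
      apply Complex.ext
      · rw [sg_re, rot2]; norm_num
      · rw [sg_im, rot2]; norm_num
    have c6 : sg (rot 3 ⟨-33 / 10, -33 / 10⟩) = Complex.I := by
      apply Complex.ext
      · rw [sg_re, rot3]; norm_num
      · rw [sg_im, rot3]; norm_num
    have c7 : sg (rot 3 ⟨33 / 10, -33 / 10⟩) = 0 := by
      apply Complex.ext
      · rw [sg_re, rot3]; norm_num
      · rw [sg_im, rot3]; norm_num
    simp only [c0, c1, c2, c3, c4, c5, c6, c7]
    show _ = A 0 1 + (A 1 ⟨1, 1⟩ + (A ⟨1, 1⟩ Complex.I + (A Complex.I 0 + 0)))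
    rw [add_zero]

theorem gb_lo {b : ℝ} (hb : IsB b) : 12886 / 10000 ≤ gb b := by
  rw [← hb.eq]
  have h2 : √2 < 1.414214 := by
    rw [Real.sqrt_lt' (by norm_num)]
    norm_num
  have h0 : 0 < √2 := by positivity
  rw [le_div_iff₀ h0]
  have := hb.lo
  nlinarith

/-- **upper bound** -/
theorem upper (hSP : ST_SP2) (hF : ST_FACT) (hC : ST_CORNER) {b : ℝ} (hb : IsB b) {ε : ℝ}
    (hε : 0 < ε) : ∃ (n : ℕ) (P : Fin n → Set ℂ), IsPart sqr P ∧ ∀ i, gam (P i) ≤ gb b + ε := by
  have hg := gb_lo hb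
  have hγ0 : 0 < gb b + ε := by linarith
  set r := gb b / (gb b + ε) with hr
  have hr0 : 0 < r := div_pos (by linarith) hγ0
  have hr1 : r < 1 := by
    rw [hr, div_lt_one hγ0]
    linarith
  have hgr : gb b / r ≤ gb b + ε := by
    rw [hr, div_div_eq_mul_div, mul_comm, mul_div_assoc, div_self (by linarith), mul_one]
  have hγ : 12886 / 10000 ≤ gb b + ε := by linarith
  obtain ⟨m₀, hm₀⟩ := small_ev hr1
  have hH : ∀ j, Hole (gb b + ε) b j := fun j =>
    hole_fill hSP hF hb hr0 hr1.le hgr hγ (m := max m₀ 24) (le_max_right _ _)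
      (hm₀ _ (le_max_left _ _)) j
  obtain ⟨k, hk⟩ := exists_pow_lt_of_lt_one hε (show (1 / 8 : ℝ) < 1 by norm_num)
  set n := max k 5 with hn
  have hn5 : 5 ≤ n := le_max_right _ _
  have hkn : k ≤ n := le_max_left _ _
  have htt : tt b n ≤ b + ε := by
    rw [ltt_nat]
    have e : (3 : ℝ) / (250 * 8 ^ n) = 3 / 250 * (1 / 8) ^ n := by
      rw [one_div, inv_pow]
      field_simp
    rw [e]
    have h1 : (1 / 8 : ℝ) ^ n ≤ (1 / 8) ^ k := pow_le_pow_of_le_one (by norm_num) (by norm_num) hkn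
    have h2 : (0 : ℝ) < (1 / 8) ^ n := by positivity
    nlinarith
  have ht1 : (0.8224 : ℝ) < tt b n := by
    have := lt_tt b n
    have := hb.lo
    linarith
  have ht2 : tt b n < 0.8226 := by
    have h1 := tt_anti b hn5
    have h2 : tt b (5 : ℕ) = b + 3 / (250 * 8 ^ 5) := ltt_nat b 5
    have h3 := hb.hi
    rw [h2] at h1
    norm_num at h1
    linarith
  have hc : Cert (gb b + ε) (cornerL (tt b n)) := by
    refine (hC _ ht1 ht2).mono ?_
    have h0 : 0 < √2 := by positivity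
    have h1 : 1 ≤ √2 := by
      rw [Real.one_le_sqrt]
      norm_num
    rw [← hb.eq, div_le_iff₀ h0]
    have e : ((1 + b) / √2 + ε) * √2 = (1 + b) + ε * √2 := by
      field_simp
    rw [e]
    nlinarith
  exact square_of (whole hb hγ hn5 (fill_all hb hγ hH n (by omega)) hc)

theorem gb_strict {x y : ℝ} (hx : 0 < x) (hxy : x < y) (hy : y ≤ 1) :
    (1 + x) / √2 - gb x < (1 + y) / √2 - gb y := by
  have h0 : 0 < √2 := by positivity
  have h1 : (1 + x) / √2 < (1 + y) / √2 := div_lt_div_of_pos_right (by linarith) h0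
  have hy0 : 0 < y := by linarith
  have h2 : gb y ≤ gb x := by
    unfold gb
    have e : (x ^ 2 + (1 / x) ^ 2) - (y ^ 2 + (1 / y) ^ 2) =
        (y ^ 2 - x ^ 2) * (1 / (x ^ 2 * y ^ 2) - 1) := by
      field_simp
      ring
    have h3 : 0 ≤ y ^ 2 - x ^ 2 := by nlinarith
    have h4 : x ^ 2 * y ^ 2 ≤ 1 := by
      have a1 : x ^ 2 ≤ 1 := by nlinarith
      have a2 : y ^ 2 ≤ 1 := by nlinarith
      nlinarith [sq_nonneg x, sq_nonneg y]
    have h5 : 0 ≤ 1 / (x ^ 2 * y ^ 2) - 1 := by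
      rw [sub_nonneg, le_div_iff₀ (by positivity), one_mul]
      exact h4
    have := mul_nonneg h3 h5
    linarith
  linarith

/-- **the theorem**, from the statements on the special pieces -/
theorem final (hB : ST_B) (hSP : ST_SP2) (hF : ST_FACT) (hC : ST_CORNER) :
    ∃ b : ℝ, (0.8224 < b ∧ b < 0.8225 ∧ (1 + b) / √2 = 3 / 4 + (b ^ 2 + (1 / b) ^ 2) / 4) ∧
      (∀ b' : ℝ, 0 < b' → b' ≤ 1 → (1 + b') / √2 = 3 / 4 + (b' ^ 2 + (1 / b') ^ 2) / 4 → b' = b) ∧
      rhoStar = (1 + b) / √2 ∧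
      ∀ (n : ℕ) (P : Fin n → Set ℂ), IsPart sqr P → rhoStar < cost P := by
  obtain ⟨b, hb⟩ := hB
  have hlo := hb.lo
  have hhi := hb.hi
  have hcost : ∀ (n : ℕ) (P : Fin n → Set ℂ), IsPart sqr P → (1 + b) / √2 < cost P := by
    intro n P hP
    obtain ⟨i, hi⟩ := low hP (by linarith) (by linarith) hb.eq
    rw [hb.eq]
    refine lt_of_lt_of_le hi ?_
    exact le_ciSup (f := fun i => gam (P i)) (Set.finite_range _).bddAbove i
  have hrho : rhoStar = (1 + b) / √2 := by
    apply le_antisymm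
    · apply le_of_forall_pos_le_add
      intro ε hε
      obtain ⟨n, P, hP, hg⟩ := upper hSP hF hC hb hε
      have hbdd : BddBelow {c : ℝ | ∃ (n : ℕ) (P : Fin n → Set ℂ), IsPart sqr P ∧ c = cost P} := by
        refine ⟨(1 + b) / √2, ?_⟩
        rintro c ⟨n, P, hP, rfl⟩
        exact (hcost n P hP).le
      refine (csInf_le hbdd ⟨n, P, hP, rfl⟩).trans ?_
      rw [hb.eq]
      have hne : Nonempty (Fin n) := by
        obtain ⟨i, -⟩ := low hP (by linarith) (by linarith) hb.eq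
        exact ⟨i⟩
      exact ciSup_le hg
    · refine le_csInf ?_ ?_
      · obtain ⟨n, P, hP, -⟩ := upper hSP hF hC hb one_pos
        exact ⟨_, n, P, hP, rfl⟩
      · rintro c ⟨n, P, hP, rfl⟩
        exact (hcost n P hP).le
  refine ⟨b, ⟨by linarith, by linarith, hb.eq⟩, ?_, hrho, ?_⟩
  · intro b' h0 h1 h2
    have e1 : (1 + b') / √2 - gb b' = 0 := by
      rw [h2]
      unfold gb
      ring
    have e2 : (1 + b) / √2 - gb b = 0 := by
      rw [hb.eq]
      ring
    rcases lt_trichotomy b' b with h | h | h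
    · have := gb_strict h0 h (by linarith)
      linarith
    · exact h
    · have := gb_strict (by linarith) h h1
      linarith
  · intro n P hP
    rw [hrho]
    exact hcost n P hP

end Pool.Agent.Helper37.CP
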