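import Pool.Agent.Helper37.CP.Tower2

/-! Statements of the parts that concern the special pieces. -/

set_option autoImplicit false

namespace Pool.Agent.Helper37.CP

/-- wall parameters -/
noncomputable def tt (b : ℝ) (j : ℤ) : ℝ := if 0 ≤ j then b + 3 / 250 * (1 / 8) ^ j else 7 / 8

/-- wall heights -/
noncomputable def hh (j : ℤ) : ℝ := if j = 0 then 7 / 20 else 91 / 250

/-- positions in the frame of level `j` -/
noncomputable def lpos (b : ℝ) (j : ℤ) (n : Nm) : ℂ :=
  pos (fun l => tt b (j - l)) (fun l => hh (j - l)) n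

/-- the critical parameter -/
structure IsB (b : ℝ) : Prop where
  lo : 0.822475043596 < b
  hi : b < 0.822475043597
  eq : (1 + b) / √2 = gb b

/-- vertices of the special piece of level `j` outside the tower, in the frame of level `j` -/
def spn : ℕ → List Nm
  | 0 => [.N (-7688842) 3911060 0, .N (-8084905) 3920133 0, .N (-8576092) 3854653 0, .W 0, .V 0,
      .V 1, .W 1]
  | 1 => [.N (-12462912) 6547182 1, .N (-13099834) 6613401 1, .N (-13830013) 6577419 1,
      .N (-14570591) 6500338 1, .W 0, .V 0, .V 1, .W 1]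
  | 2 => [.N (-20529410) 10921997 2, .N (-21676419) 10913990 2, .N (-23036948) 10869107 2,
      .N (-24283774) 10802416 2, .W 0, .V 0, .V 1, .W 1]
  | 3 => [.N (-34214461) 18218877 3, .N (-36118018) 18195362 3, .N (-38392907) 18116169 3,
      .N (-40467240) 18002384 3, .W 0, .V 0, .V 1, .W 1]
  | 4 => [.N (-57028874) 30369534 4, .N (-60192212) 30325798 4, .N (-64001702) 30196888 4,
      .N (-8741779) 3889424 0, .W 0, .V 0, .V 1, .W 1]
  | _ + 5 => [.N (-7393636) 3936560 0, .N (-7805060) 3930654 0, .N (-8290786) 3913962 0,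
      .N (-8741779) 3889424 0, .W 0, .V 0, .V 1, .W 1]

/-- largest parameter of the tower -/
noncomputable def XRc : ℝ := 25 / 56 * (sq (-1) * (8682970 / 10000000))

/-- smallest parameter of the tower -/
noncomputable def XLc : ℝ := 25 / 56 * (sq 0 * (-10433832 / 10000000))

/-- second largest parameter of the tower -/
noncomputable def XR1 : ℝ := 25 / 56 * (sq 0 * (8682970 / 10000000))

/-- the special pieces -/
def ST_SP2 : Prop := ∀ (b : ℝ), IsB b → ∀ (j : ℕ) (r : ℝ) (Xs : List ℝ), 0 < r → r ≤ 1 →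
  TX (31 / 25) XLc XR1 r Xs →
  Cert ((1 + frS (1 / tt b j) (tt b (j - 1))) / r)
    ((spn j).map (lpos b j) ++
      (XRc :: Xs).map fun X => frM (1 / tt b j) (tt b (j - 1)) (PP (31 / 25) X))

/-- their cost -/
def ST_FACT : Prop := ∀ (b : ℝ), IsB b → ∀ j : ℕ, 1 + frS (1 / tt b j) (tt b (j - 1)) ≤ gb b

/-- the corner piece -/
noncomputable def cornerL (t : ℝ) : List ℂ :=
  [⟨-33 / 10, -2817 / 1000⟩, ⟨-33 / 10, -33 / 10⟩, ⟨-2817 / 1000, -33 / 10⟩,
    ⟨-2817 / 1000 + 91 / 250 * ((1 / t - t) / 2), -2936 / 1000⟩,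
    ⟨-27714343 / 10000000, -28759993 / 10000000⟩, ⟨-28181135 / 10000000, -28266135 / 10000000⟩,
    ⟨-28737645 / 10000000, -27749920 / 10000000⟩,
    ⟨-2936 / 1000, -2817 / 1000 + 91 / 250 * ((1 / t - t) / 2)⟩]

def ST_CORNER : Prop := ∀ t : ℝ, 0.8224 < t → t < 0.8226 → Cert ((1 + t) / √2) (cornerL t)

def ST_B : Prop := ∃ b : ℝ, IsB b

end Pool.Agent.Helper37.CP
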