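import Pool.Agent.Helper37.CP.Defs

/-! The strict lower bound: every finite convex partition of the square has a piece of circularity
greater than `(1 + b) / √2`. -/

namespace Pool.Agent.Helper37.CP

open Metric Set

lemma normSq' (z : ℂ) : ‖z‖ ^ 2 = z.re ^ 2 + z.im ^ 2 := by
  rw [Complex.sq_norm, Complex.normSq_apply]; ring

lemma poly_compact {P : Set ℂ} (h : IsPoly P) : IsCompact P := by
  obtain ⟨⟨S, rfl⟩, -⟩ := h
  exact S.finite_toSet.isCompact_convexHull (𝕜 := ℝ)

lemma poly_convex {P : Set ℂ} (h : IsPoly P) : Convex ℝ P := by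
  obtain ⟨⟨S, rfl⟩, -⟩ := h
  exact convex_convexHull _ _

lemma poly_nonempty {P : Set ℂ} (h : IsPoly P) : P.Nonempty := h.2.mono interior_subset

lemma closedBall_subset_iff {P : Set ℂ} {c : ℂ} {r : ℝ} (hr : 0 ≤ r) :
    closedBall c r ⊆ P ↔ ∀ u : ℂ, ‖u‖ ≤ 1 → c + (r : ℂ) * u ∈ P := by
  constructor
  · intro h u hu
    apply h
    rw [mem_closedBall, dist_eq_norm]
    simp only [add_sub_cancel_left, norm_mul, Complex.norm_real, Real.norm_eq_abs, abs_of_nonneg hr]
    nlinarith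
  · intro h z hz
    rw [mem_closedBall, dist_eq_norm] at hz
    rcases hr.eq_or_lt with h0 | h0
    · subst h0
      have : z - c = 0 := by
        rw [← norm_eq_zero]; exact le_antisymm hz (norm_nonneg _)
      have h1 := h 0 (by simp)
      simp at h1
      rw [sub_eq_zero] at this
      rwa [this]
    · have h1 := h ((z - c) / r) (by
        rw [norm_div, Complex.norm_real, Real.norm_eq_abs, abs_of_pos h0]
        exact (div_le_one h0).2 hz)
      have h2 : c + (r : ℂ) * ((z - c) / r) = z := by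
        have : (r : ℂ) ≠ 0 := by exact_mod_cast h0.ne'
        field_simp
        ring
      rwa [h2] at h1

/-- the largest inscribed disc exists -/
lemma exists_in {P : Set ℂ} (h : IsPoly P) :
    0 < inR P ∧ ∃ c : ℂ, closedBall c (inR P) ⊆ P := by
  obtain ⟨o, M, hM⟩ : ∃ o M, P ⊆ closedBall (o : ℂ) M :=
    ⟨0, (poly_compact h).isBounded.subset_closedBall 0 |>.choose,
      (poly_compact h).isBounded.subset_closedBall 0 |>.choose_spec⟩
  set T : Set (ℂ × ℝ) := {x | 0 ≤ x.2 ∧ ∀ u : ℂ, ‖u‖ ≤ 1 → x.1 + (x.2 : ℂ) * u ∈ P} with hT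
  have hTc : IsClosed T := by
    have : T = {x : ℂ × ℝ | 0 ≤ x.2} ∩ ⋂ (u : ℂ) (_ : ‖u‖ ≤ 1),
        (fun x : ℂ × ℝ => x.1 + (x.2 : ℂ) * u) ⁻¹' P := by
      ext x
      simp [hT]
    rw [this]
    refine (isClosed_le continuous_const continuous_snd).inter ?_
    refine isClosed_iInter fun u => isClosed_iInter fun _ => ?_
    exact (poly_compact h).isClosed.preimage (by fun_prop)
  have hTb : T ⊆ closedBall o M ×ˢ Icc 0 M := by
    intro x hx
    obtain ⟨h0, hx⟩ := hx
    have hb : closedBall x.1 x.2 ⊆ closedBall o M :=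
      ((closedBall_subset_iff h0).2 hx).trans hM
    refine ⟨hb (mem_closedBall_self h0), h0, ?_⟩
    have h1 := hb (show x.1 + x.2 ∈ closedBall x.1 x.2 by
      simp [mem_closedBall, dist_eq_norm, abs_of_nonneg h0])
    have h2 := hb (show x.1 - x.2 ∈ closedBall x.1 x.2 by
      simp [mem_closedBall, dist_eq_norm, abs_of_nonneg h0])
    rw [mem_closedBall] at h1 h2
    have h3 : dist (x.1 + x.2) (x.1 - x.2) ≤ M + M := by
      refine (dist_triangle_right _ _ o).trans (add_le_add h1 h2)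
    have h4 : dist (x.1 + (x.2 : ℂ)) (x.1 - x.2) = 2 * x.2 := by
      rw [dist_eq_norm]
      have : x.1 + (x.2 : ℂ) - (x.1 - x.2) = ((2 * x.2 : ℝ) : ℂ) := by push_cast; ring
      rw [this, Complex.norm_real, Real.norm_eq_abs, abs_of_nonneg (by positivity)]
    linarith
  have hTk : IsCompact T :=
    ((isCompact_closedBall o M).prod isCompact_Icc).of_isClosed_subset hTc hTb
  obtain ⟨z, hz⟩ := h.2
  obtain ⟨e, he, hze⟩ := Metric.isOpen_iff.1 isOpen_interior z hz
  have hin : closedBall z (e / 2) ⊆ P :=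
    ((closedBall_subset_ball (by linarith)).trans hze).trans interior_subset
  have hTn : T.Nonempty := ⟨(z, e / 2), by positivity, (closedBall_subset_iff (by positivity)).1 hin⟩
  obtain ⟨x, hx, hmax⟩ := hTk.exists_isMaxOn hTn continuous_snd.continuousOn
  have hxr : inR P = x.2 := by
    unfold inR
    refine le_antisymm ?_ ?_
    · refine csSup_le ⟨0, le_refl _, z, ?_⟩ ?_
      · rw [closedBall_zero]
        exact singleton_subset_iff.2 (interior_subset hz)
      · rintro r ⟨hr, c, hc⟩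
        exact hmax (show (c, r) ∈ T from ⟨hr, (closedBall_subset_iff hr).1 hc⟩)
    · refine le_csSup ⟨M, ?_⟩ ⟨hx.1, x.1, (closedBall_subset_iff hx.1).2 hx.2⟩
      rintro r ⟨hr, c, hc⟩
      exact (hTb (show (c, r) ∈ T from ⟨hr, (closedBall_subset_iff hr).1 hc⟩)).2.2
  refine ⟨?_, x.1, ?_⟩
  · rw [hxr]
    have : e / 2 ≤ x.2 := hmax (show (z, e / 2) ∈ T from
      ⟨by positivity, (closedBall_subset_iff (by positivity)).1 hin⟩)
    linarith
  · rw [hxr]
    exact (closedBall_subset_iff hx.1).2 hx.2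

/-- the smallest enclosing disc exists -/
lemma exists_circ {P : Set ℂ} (h : IsPoly P) : ∃ o : ℂ, P ⊆ closedBall o (circR P) := by
  obtain ⟨M, hM⟩ : ∃ M, P ⊆ closedBall (0 : ℂ) M := (poly_compact h).isBounded.subset_closedBall 0
  obtain ⟨z, hz⟩ := poly_nonempty h
  set T : Set (ℂ × ℝ) := {x | ∀ u ∈ P, dist u x.1 ≤ x.2} ∩ {x | x.2 ≤ M} with hT
  have hTc : IsClosed T := by
    refine IsClosed.inter ?_ (isClosed_le continuous_snd continuous_const)
    have : {x : ℂ × ℝ | ∀ u ∈ P, dist u x.1 ≤ x.2} = ⋂ (u : ℂ) (_ : u ∈ P),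
        {x : ℂ × ℝ | dist u x.1 ≤ x.2} := by
      ext x
      simp
    rw [this]
    exact isClosed_iInter fun u => isClosed_iInter fun _ =>
      isClosed_le (by fun_prop) (by fun_prop)
  have hTb : T ⊆ closedBall z M ×ˢ Icc 0 M := by
    intro x hx
    have h1 := hx.1 z hz
    refine ⟨?_, ?_, hx.2⟩
    · rw [mem_closedBall, dist_comm]
      exact h1.trans hx.2
    · exact dist_nonneg.trans h1
  have hTk : IsCompact T :=
    ((isCompact_closedBall z M).prod isCompact_Icc).of_isClosed_subset hTc hTb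
  have h0T : ((0 : ℂ), M) ∈ T := ⟨fun u hu => by simpa using hM hu, le_refl M⟩
  obtain ⟨x, hx, hmin⟩ := hTk.exists_isMinOn ⟨_, h0T⟩ continuous_snd.continuousOn
  have hxr : circR P = x.2 := by
    unfold circR
    refine le_antisymm ?_ ?_
    · refine csInf_le ⟨0, ?_⟩ ⟨x.1, fun u hu => hx.1 u hu⟩
      rintro R ⟨o, ho⟩
      exact dist_nonneg.trans (ho hz)
    · refine le_csInf ⟨M, 0, hM⟩ ?_
      rintro R ⟨o, ho⟩
      rcases le_or_gt R M with h1 | h1
      · exact hmin (show (o, R) ∈ T from ⟨fun u hu => ho hu, h1⟩)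
      · exact (hmin h0T).trans h1.le
  refine ⟨x.1, fun u hu => ?_⟩
  rw [hxr]
  exact hx.1 u hu

/-- a disc inside a polygon inside a disc: the inner disc is not internally tangent -/
lemma strict_inside {P : Set ℂ} (h : IsPoly P) {c o : ℂ} {r R : ℝ} (hr : 0 < r)
    (hc : closedBall c r ⊆ P) (ho : P ⊆ closedBall o R) : ‖o - c‖ < R - r := by
  by_contra hcon
  push Not at hcon
  obtain ⟨⟨S, hS⟩, -⟩ := h
  -- unit vector
  obtain ⟨n, hn, hnc⟩ : ∃ n : ℂ, ‖n‖ = 1 ∧ c - o = (‖c - o‖ : ℂ) * n := by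
    by_cases h0 : c - o = 0
    · exact ⟨1, by simp, by simp [h0]⟩
    · refine ⟨(c - o) / (‖c - o‖ : ℂ), ?_, ?_⟩
      · rw [norm_div]
        simp only [Complex.norm_real, norm_norm]
        exact div_self (norm_ne_zero_iff.2 h0)
      · have : (‖c - o‖ : ℂ) ≠ 0 := by exact_mod_cast norm_ne_zero_iff.2 h0
        field_simp
  have hRle : ‖c - o‖ + r ≤ R := by
    have h1 := ho (hc (show c + r * n ∈ closedBall c r by
      simp [mem_closedBall, dist_eq_norm, hn, abs_of_pos hr]))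
    rw [mem_closedBall, dist_eq_norm] at h1
    have h2 : c + r * n - o = ((‖c - o‖ + r : ℝ) : ℂ) * n := by
      push_cast
      linear_combination hnc
    rw [h2, norm_mul, hn, mul_one, Complex.norm_real, Real.norm_eq_abs,
      abs_of_nonneg (by positivity)] at h1
    exact h1
  have hReq : ‖c - o‖ = R - r := by
    rw [norm_sub_rev] at hcon
    linarith
  set T : ℂ := c + r * n with hTdef
  have hTo : T - o = (R : ℂ) * n := by
    rw [hTdef]
    have : c + r * n - o = (c - o) + r * n := by ring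
    rw [this, hnc, hReq]
    push_cast; ring
  have hRpos : 0 < R := by linarith [norm_nonneg (c - o)]
  have hn2 : n.re ^ 2 + n.im ^ 2 = 1 := by
    rw [← normSq', hn]; norm_num
  -- the functional
  set φ : ℂ → ℝ := fun x => (x.re - T.re) * n.re + (x.im - T.im) * n.im with hφ
  have hTre : T.re = o.re + R * n.re := by
    have := congrArg Complex.re hTo
    simp at this
    linarith
  have hTim : T.im = o.im + R * n.im := by
    have := congrArg Complex.im hTo
    simp at this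
    linarith
  have hφ1 : ∀ x ∈ closedBall o R, ‖x - T‖ ^ 2 + 2 * R * φ x ≤ 0 := by
    intro x hx
    rw [mem_closedBall, dist_eq_norm] at hx
    have h1 : ‖x - o‖ ^ 2 ≤ R ^ 2 := by
      have := norm_nonneg (x - o)
      nlinarith
    rw [normSq'] at h1 ⊢
    simp only [hφ, Complex.sub_re, Complex.sub_im] at h1 ⊢
    rw [hTre, hTim]
    nlinarith [hn2]
  -- kappa
  obtain ⟨κ, hκ, hκS⟩ : ∃ κ : ℝ, 0 < κ ∧ ∀ s ∈ S, s ≠ T → 2 * R * κ ≤ ‖s - T‖ := by
    by_cases hne : (S.filter (fun s => s ≠ T)).Nonempty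
    · obtain ⟨s0, hs0, hmin⟩ := Finset.exists_min_image _ (fun s => ‖s - T‖) hne
      rw [Finset.mem_filter] at hs0
      refine ⟨‖s0 - T‖ / (2 * R), by
        have : 0 < ‖s0 - T‖ := norm_pos_iff.2 (sub_ne_zero.2 hs0.2)
        positivity, ?_⟩
      intro s hs hsT
      have := hmin s (by rw [Finset.mem_filter]; exact ⟨hs, hsT⟩)
      have h2 : 2 * R * (‖s0 - T‖ / (2 * R)) = ‖s0 - T‖ := by field_simp
      rw [h2]
      exact this
    · refine ⟨1, one_pos, fun s hs hsT => ?_⟩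
      exact absurd ⟨s, by rw [Finset.mem_filter]; exact ⟨hs, hsT⟩⟩ hne
  have hconv : ConvexOn ℝ univ (fun x : ℂ => φ x + κ * ‖x - T‖) := by
    refine ⟨convex_univ, ?_⟩
    intro x _ y _ a b ha hb hab
    have e1 : a • x + b • y - T = a • (x - T) + b • (y - T) := by
      simp only [Complex.real_smul]
      have : (a : ℂ) + b = 1 := by exact_mod_cast hab
      linear_combination T * this
    have e2 : φ (a • x + b • y) = a * φ x + b * φ y := by
      simp only [hφ, Complex.real_smul, Complex.add_re, Complex.mul_re, Complex.ofReal_re,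
        Complex.ofReal_im, Complex.add_im, Complex.mul_im]
      linear_combination (T.re * n.re + T.im * n.im) * hab
    have e3 : ‖a • x + b • y - T‖ ≤ a * ‖x - T‖ + b * ‖y - T‖ := by
      rw [e1]
      refine (norm_add_le _ _).trans ?_
      rw [norm_smul, norm_smul, Real.norm_eq_abs, Real.norm_eq_abs, abs_of_nonneg ha,
        abs_of_nonneg hb]
    simp only [smul_eq_mul]
    rw [e2]
    nlinarith [mul_le_mul_of_nonneg_left e3 hκ.le]
  have hP : ∀ x ∈ P, φ x + κ * ‖x - T‖ ≤ 0 := by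
    intro x hx
    rw [hS] at hx
    obtain ⟨y, hy, hxy⟩ := (hconv.subset (subset_univ _) (convex_convexHull ℝ (S : Set ℂ))).exists_ge_of_mem_convexHull
      (subset_convexHull ℝ _) hx
    refine hxy.trans ?_
    by_cases hyT : y = T
    · subst hyT
      simp [hφ]
    · have h1 := hφ1 y (ho (by rw [hS]; exact subset_convexHull ℝ _ hy))
      have h2 := hκS y hy hyT
      have h3 : 0 < ‖y - T‖ := norm_pos_iff.2 (sub_ne_zero.2 hyT)
      have h4 : 2 * R * (φ y + κ * ‖y - T‖) ≤ 0 := by nlinarith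
      by_contra h5
      push Not at h5
      have : 0 < 2 * R * (φ y + κ * ‖y - T‖) := by positivity
      linarith
  -- contradiction
  set v : ℝ := min κ 1 / 2 with hv
  have hv0 : 0 < v := by
    have : 0 < min κ 1 := lt_min hκ one_pos
    positivity
  have hvκ : v < κ := by
    have h1 := min_le_left κ 1
    have h2 : 0 < min κ 1 := lt_min hκ one_pos
    rw [hv]
    linarith
  have hv1 : v ≤ 1 := by
    have h1 := min_le_right κ 1
    rw [hv]
    linarith
  set x : ℂ := c + (r : ℂ) * (((1 - v ^ 2 : ℝ) : ℂ) + (v : ℂ) * Complex.I) * n with hx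
  have hxP : x ∈ P := by
    apply hc
    rw [mem_closedBall, dist_eq_norm, hx]
    simp only [add_sub_cancel_left, norm_mul, Complex.norm_real, Real.norm_eq_abs,
      abs_of_pos hr, hn, mul_one]
    have : ‖(((1 - v ^ 2 : ℝ) : ℂ) + (v : ℂ) * Complex.I)‖ ≤ 1 := by
      have e : ‖(((1 - v ^ 2 : ℝ) : ℂ) + (v : ℂ) * Complex.I)‖ ^ 2 = (1 - v ^ 2) ^ 2 + v ^ 2 := by
        rw [normSq']
        simp only [Complex.add_re, Complex.ofReal_re, Complex.mul_re, Complex.I_re, Complex.I_im,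
          Complex.ofReal_im, Complex.add_im, Complex.mul_im]
        ring
      rw [← sq_le_one_iff₀ (norm_nonneg _), e]
      nlinarith [sq_nonneg v, mul_nonneg (sq_nonneg v) (show (0:ℝ) ≤ 1 - v ^ 2 by nlinarith)]
    nlinarith
  have h1 := hP x hxP
  have hxT : x - T = (r : ℂ) * (((- v ^ 2 : ℝ) : ℂ) + (v : ℂ) * Complex.I) * n := by
    rw [hx, hTdef]; push_cast; ring
  have h2 : φ x = - (r * v ^ 2) := by
    have e1 := congrArg Complex.re hxT
    have e2 := congrArg Complex.im hxT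
    simp at e1 e2
    norm_cast at e1 e2
    simp only [hφ]
    rw [e1, e2]
    simp
    linear_combination (-(r * v ^ 2)) * hn2
  have h3 : r * v ≤ ‖x - T‖ := by
    rw [hxT, norm_mul, norm_mul, hn, mul_one, Complex.norm_real, Real.norm_eq_abs, abs_of_pos hr]
    apply mul_le_mul_of_nonneg_left _ hr.le
    have h5 := Complex.abs_im_le_norm (((- v ^ 2 : ℝ) : ℂ) + (v : ℂ) * Complex.I)
    have h6 : (((- v ^ 2 : ℝ) : ℂ) + (v : ℂ) * Complex.I).im = v := by
      rw [Complex.add_im, Complex.ofReal_im, Complex.mul_im, Complex.ofReal_re, Complex.ofReal_im,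
        Complex.I_re, Complex.I_im]
      ring
    rwa [h6, abs_of_pos hv0] at h5
  rw [h2] at h1
  have h4 : κ * (r * v) ≤ κ * ‖x - T‖ := mul_le_mul_of_nonneg_left h3 hκ.le
  have h5 : r * v * (κ - v) ≤ 0 := by nlinarith
  have h6 : 0 < r * v * (κ - v) := by
    have : 0 < κ - v := by linarith
    positivity
  linarith


/-- the critical value as a function of the slope parameter -/
noncomputable def gb (b : ℝ) : ℝ := 3 / 4 + (b ^ 2 + (1 / b) ^ 2) / 4

/-- inscribed disc and a half plane bounded by a slanted line on the left -/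
lemma ball_left {P : Set ℂ} {c : ℂ} {r α t : ℝ} (hr : 0 < r) (hc : closedBall c r ⊆ P)
    (h : ∀ z ∈ P, α + t * z.im ≤ z.re) : α + t * c.im + r * √(1 + t ^ 2) ≤ c.re := by
  set s := √(1 + t ^ 2) with hs
  have hs0 : 0 < s := Real.sqrt_pos.2 (by positivity)
  have hs2 : s ^ 2 = 1 + t ^ 2 := Real.sq_sqrt (by positivity)
  have hmem : c + (r : ℂ) * (((-(1 / s) : ℝ) : ℂ) + ((t / s : ℝ) : ℂ) * Complex.I) ∈ P := by
    apply (closedBall_subset_iff hr.le).1 hc
    have e : ‖(((-(1 / s) : ℝ) : ℂ) + ((t / s : ℝ) : ℂ) * Complex.I)‖ ^ 2 = 1 := by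
      rw [normSq']
      simp only [Complex.add_re, Complex.ofReal_re, Complex.mul_re, Complex.I_re, Complex.I_im,
        Complex.ofReal_im, Complex.add_im, Complex.mul_im]
      field_simp
      nlinarith
    have := norm_nonneg (((-(1 / s) : ℝ) : ℂ) + ((t / s : ℝ) : ℂ) * Complex.I)
    nlinarith
  have h1 := h _ hmem
  simp only [Complex.add_re, Complex.ofReal_re, Complex.mul_re, Complex.I_re, Complex.I_im,
        Complex.ofReal_im, Complex.add_im, Complex.mul_im] at h1
  have h2 : r * s = r * (1 / s) + t * (r * (t / s)) := by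
    field_simp
    nlinarith
  nlinarith

/-- the same on the right -/
lemma ball_right {P : Set ℂ} {c : ℂ} {r β t : ℝ} (hr : 0 < r) (hc : closedBall c r ⊆ P)
    (h : ∀ z ∈ P, z.re ≤ β + t * z.im) : c.re + r * √(1 + t ^ 2) ≤ β + t * c.im := by
  set s := √(1 + t ^ 2) with hs
  have hs0 : 0 < s := Real.sqrt_pos.2 (by positivity)
  have hs2 : s ^ 2 = 1 + t ^ 2 := Real.sq_sqrt (by positivity)
  have hmem : c + (r : ℂ) * (((1 / s : ℝ) : ℂ) + ((-(t / s) : ℝ) : ℂ) * Complex.I) ∈ P := by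
    apply (closedBall_subset_iff hr.le).1 hc
    have e : ‖(((1 / s : ℝ) : ℂ) + ((-(t / s) : ℝ) : ℂ) * Complex.I)‖ ^ 2 = 1 := by
      rw [normSq']
      simp only [Complex.add_re, Complex.ofReal_re, Complex.mul_re, Complex.I_re, Complex.I_im,
        Complex.ofReal_im, Complex.add_im, Complex.mul_im]
      field_simp
      nlinarith
    have := norm_nonneg (((1 / s : ℝ) : ℂ) + ((-(t / s) : ℝ) : ℂ) * Complex.I)
    nlinarith
  have h1 := h _ hmem
  simp only [Complex.add_re, Complex.ofReal_re, Complex.mul_re, Complex.I_re, Complex.I_im,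
        Complex.ofReal_im, Complex.add_im, Complex.mul_im] at h1
  have h2 : r * s = r * (1 / s) + t * (r * (t / s)) := by
    field_simp
    nlinarith
  nlinarith

lemma ball_im {P : Set ℂ} {c : ℂ} {r : ℝ} (hr : 0 < r) (hc : closedBall c r ⊆ P)
    (h : ∀ z ∈ P, 0 ≤ z.im) : r ≤ c.im := by
  have hmem : c + (r : ℂ) * (-Complex.I) ∈ P := by
    apply (closedBall_subset_iff hr.le).1 hc
    simp
  have h1 := h _ hmem
  simp at h1
  exact h1

lemma ball_re {P : Set ℂ} {c : ℂ} {r : ℝ} (hr : 0 < r) (hc : closedBall c r ⊆ P)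
    (h : ∀ z ∈ P, 0 ≤ z.re) : r ≤ c.re := by
  have hmem : c + (r : ℂ) * (-1) ∈ P := by
    apply (closedBall_subset_iff hr.le).1 hc
    simp
  have h1 := h _ hmem
  simp at h1
  exact h1

lemma slope_aux1 {S T s t : ℝ} (hS : S ^ 2 = 1 + T ^ 2) (hs : s ^ 2 = 1 + t ^ 2)
    (hs0 : 0 < s) (hT0 : 0 < T) (h : T ≤ t) : S ≤ s := by
  by_contra hlt
  push Not at hlt
  nlinarith

lemma slope_aux0 {s t : ℝ} (hs : s ^ 2 = 1 + t ^ 2) (hs0 : 0 < s) : 0 < s + t ∧ 0 < s - t := by
  constructor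
  · by_contra hlt
    push Not at hlt
    nlinarith
  · by_contra hlt
    push Not at hlt
    nlinarith

lemma slope_aux2 {S T s t : ℝ} (hS : S ^ 2 = 1 + T ^ 2) (hs : s ^ 2 = 1 + t ^ 2)
    (hS0 : 0 < S) (hs0 : 0 < s) (h : t ≤ T) : S - T ≤ s - t := by
  by_contra hlt
  push Not at hlt
  obtain ⟨h1, h2⟩ := slope_aux0 hS hS0
  obtain ⟨h3, h4⟩ := slope_aux0 hs hs0
  have h5 : S + T < s + t := by
    by_contra h6
    push Not at h6
    have e1 : (S - T) * (S + T) = 1 := by linear_combination hS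
    have e2 : (s - t) * (s + t) = 1 := by linear_combination hs
    have e3 : (s - t) * (s + t) < (S - T) * (S + T) := by
      calc (s - t) * (s + t) < (S - T) * (s + t) := mul_lt_mul_of_pos_right hlt h3
        _ ≤ (S - T) * (S + T) := mul_le_mul_of_nonneg_left h6 h2.le
    linarith
  linarith

lemma slope_aux2' {S T s t : ℝ} (hS : S ^ 2 = 1 + T ^ 2) (hs : s ^ 2 = 1 + t ^ 2)
    (hS0 : 0 < S) (hs0 : 0 < s) (h : t < T) : S - T < s - t := by
  rcases (slope_aux2 hS hs hS0 hs0 h.le).lt_or_eq with h1 | h1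
  · exact h1
  · exfalso
    obtain ⟨h3, h4⟩ := slope_aux0 hs hs0
    have e1 : (S - T) * (S + T) = 1 := by linear_combination hS
    have e2 : (s - t) * (s + t) = 1 := by linear_combination hs
    rw [h1] at e1
    have e3 : (s - t) * ((S + T) - (s + t)) = 0 := by linear_combination e1 - e2
    rcases mul_eq_zero.1 e3 with e4 | e4
    · linarith
    · linarith

lemma cmp_aux {a b T S A B q r : ℝ} (ha : a = T + S) (hb : b = S - T) (hT0 : 0 < T)
    (hT1 : T < 1) (hb0 : 0 < b) (hbT : b * T < 1) (hr0 : 0 < r) (hq : r ≤ q)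
    (hA : T * q + r * S ≤ A) (hB : r * S - T * q ≤ B) :
    ((a + b) * r) ^ 2 ≤ (A + B) ^ 2 ∧ (a * r) ^ 2 + r ^ 2 ≤ A ^ 2 + q ^ 2 ∧
      (b * r) ^ 2 + r ^ 2 ≤ B ^ 2 + q ^ 2 := by
  have hS0 : 0 < S := by linarith
  have h5 : 0 ≤ q - r := by linarith
  have hTq : 0 ≤ T * (q - r) := mul_nonneg hT0.le h5
  have hqq : r ^ 2 + 2 * (r * (q - r)) ≤ q ^ 2 := by nlinarith
  refine ⟨?_, ?_, ?_⟩
  · apply pow_le_pow_left₀ (by rw [ha, hb]; nlinarith)
    rw [ha, hb]
    linarith
  · have h1 : (a * r) ^ 2 ≤ A ^ 2 := by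
      apply pow_le_pow_left₀ (by rw [ha]; nlinarith)
      rw [ha]
      linarith
    have h2 : r ^ 2 ≤ q ^ 2 := pow_le_pow_left₀ hr0.le hq 2
    linarith
  · have h1 : b * r - T * (q - r) ≤ B := by
      rw [hb]
      linarith
    have hrq : 0 ≤ r * (q - r) := mul_nonneg hr0.le h5
    rcases le_or_gt (T * (q - r)) (b * r) with h2 | h2
    · have h3 : (b * r - T * (q - r)) ^ 2 ≤ B ^ 2 :=
        pow_le_pow_left₀ (by linarith) h1 2
      have h4 : (b * r) ^ 2 - 2 * (b * T) * (r * (q - r)) ≤ (b * r - T * (q - r)) ^ 2 := by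
        nlinarith [sq_nonneg (T * (q - r))]
      have h6 : (b * T) * (r * (q - r)) ≤ 1 * (r * (q - r)) :=
        mul_le_mul_of_nonneg_right hbT.le hrq
      linarith
    · have h3 : b * r ≤ q - r := by
        have : T * (q - r) ≤ 1 * (q - r) := mul_le_mul_of_nonneg_right hT1.le h5
        linarith
      have h4 : (b * r) ^ 2 ≤ (q - r) ^ 2 := pow_le_pow_left₀ (by positivity) h3 2
      have h6 : 0 ≤ B ^ 2 := sq_nonneg _
      nlinarith

lemma ident_aux {b : ℝ} (hb : 0 < b) {a g l0 l1 l2 : ℝ} (ha : a * b = 1)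
    (hg : g = 3 / 4 + (b ^ 2 + a ^ 2) / 4) (hl2 : l2 = g - 1 / 2)
    (hl1 : l1 * (a + b) = a * (3 / 2 - g) + (b - a) / 2)
    (hl0 : l0 * (a + b) = b * (3 / 2 - g) - (b - a) / 2) :
    l0 * l1 * (a + b) ^ 2 + l0 * l2 * (a ^ 2 + 1) + l1 * l2 * (b ^ 2 + 1) =
      (l0 + l1) * g ^ 2 + l2 * (g - 1) ^ 2 := by
  have hab : a = 1 / b := by field_simp; linarith
  have h1 : l1 = (a * (3 / 2 - g) + (b - a) / 2) / (a + b) := by
    have : a + b ≠ 0 := by rw [hab]; positivity
    field_simp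
    linarith
  have h0 : l0 = (b * (3 / 2 - g) - (b - a) / 2) / (a + b) := by
    have : a + b ≠ 0 := by rw [hab]; positivity
    field_simp
    linarith
  subst hl2
  rw [h1, h0, hg, hab]
  field_simp
  ring

/-- a piece standing on a side, between two lines which both lean to the right, the left one
more than the critical slope, the right one less -/
lemma base_strict {P : Set ℂ} (h : IsPoly P) {α β t t' b : ℝ} (hb1 : 0.822 < b) (hb2 : b < 0.823)
    (him : ∀ z ∈ P, 0 ≤ z.im) (hα : (α : ℂ) ∈ P) (hβ : (β : ℂ) ∈ P)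
    (hl : ∀ z ∈ P, α + t * z.im ≤ z.re) (hr : ∀ z ∈ P, z.re ≤ β + t' * z.im)
    (ht : (1 / b - b) / 2 ≤ t) (ht' : t' ≤ (1 / b - b) / 2) : gb b < gam P := by
  have hb0 : 0 < b := by linarith
  set a : ℝ := 1 / b with ha
  have hab : a * b = 1 := by rw [ha]; field_simp
  have ha1 : 1.215 < a := by rw [ha, lt_div_iff₀ hb0]; nlinarith
  have ha2 : a < 1.2166 := by rw [ha, div_lt_iff₀ hb0]; nlinarith
  by_contra hcon
  push Not at hcon
  obtain ⟨hr0, c, hc⟩ := exists_in h
  obtain ⟨o, ho⟩ := exists_circ h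
  set r := inR P with hrdef
  set R := circR P with hRdef
  have hstr := strict_inside h hr0 hc ho
  have hRg : R ≤ gb b * r := by
    unfold gam at hcon
    rwa [div_le_iff₀ hr0] at hcon
  set g := gb b with hg
  have hgval : g = 3 / 4 + (b ^ 2 + a ^ 2) / 4 := rfl
  have hg1 : 1.28 < g := by rw [hgval]; nlinarith
  have hg2 : g < 1.29 := by rw [hgval]; nlinarith
  set p := c.re with hp
  set q := c.im with hq
  have hq1 : r ≤ q := ball_im hr0 hc him
  have hA := ball_left hr0 hc hl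
  have hB := ball_right hr0 hc hr
  set T : ℝ := (a - b) / 2 with hT
  set S : ℝ := (a + b) / 2 with hS
  have hTS : S ^ 2 = 1 + T ^ 2 := by rw [hT, hS]; nlinarith
  have hT0 : 0 < T := by rw [hT]; linarith
  have hS0 : 0 < S := by rw [hS]; linarith
  have hs2 : √(1 + t ^ 2) ^ 2 = 1 + t ^ 2 := Real.sq_sqrt (by positivity)
  have hs2' : √(1 + t' ^ 2) ^ 2 = 1 + t' ^ 2 := Real.sq_sqrt (by positivity)
  have hs0 : 0 < √(1 + t ^ 2) := Real.sqrt_pos.2 (by positivity)
  have hs0' : 0 < √(1 + t' ^ 2) := Real.sqrt_pos.2 (by positivity)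
  set s := √(1 + t ^ 2) with hs
  set s' := √(1 + t' ^ 2) with hs'
  have hsS : S ≤ s := slope_aux1 hTS hs2 hs0 hT0 ht
  have hdiff : S - T ≤ s' - t' := slope_aux2 hTS hs2' hS0 hs0' ht'
  have hq0 : 0 < q := by linarith
  have hA' : T * q + r * S ≤ p - α := by
    have k1 := mul_le_mul_of_nonneg_right ht hq0.le
    have k2 := mul_le_mul_of_nonneg_left hsS hr0.le
    linarith
  have hB' : r * S - T * q ≤ β - p := by
    have k1 := mul_le_mul_of_nonneg_left hdiff hr0.le
    have k2 := mul_nonneg (show 0 ≤ T - t' by linarith) (show 0 ≤ q - r by linarith)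
    linarith
  -- squares
  have e1 : (o.re - α) ^ 2 + o.im ^ 2 ≤ (g * r) ^ 2 := by
    have h1 := ho hα
    rw [mem_closedBall, dist_eq_norm] at h1
    have h2 : ‖(α : ℂ) - o‖ ^ 2 = (o.re - α) ^ 2 + o.im ^ 2 := by
      rw [normSq']; simp; ring
    rw [← h2]
    exact pow_le_pow_left₀ (norm_nonneg _) (h1.trans hRg) 2
  have e2 : (o.re - β) ^ 2 + o.im ^ 2 ≤ (g * r) ^ 2 := by
    have h1 := ho hβ
    rw [mem_closedBall, dist_eq_norm] at h1
    have h2 : ‖(β : ℂ) - o‖ ^ 2 = (o.re - β) ^ 2 + o.im ^ 2 := by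
      rw [normSq']; simp; ring
    rw [← h2]
    exact pow_le_pow_left₀ (norm_nonneg _) (h1.trans hRg) 2
  have e3 : (o.re - p) ^ 2 + (o.im - q) ^ 2 < ((g - 1) * r) ^ 2 := by
    have h2 : ‖o - c‖ ^ 2 = (o.re - p) ^ 2 + (o.im - q) ^ 2 := by
      rw [normSq']; simp [hp, hq]
    rw [← h2]
    have h3 : ‖o - c‖ < (g - 1) * r := by linarith
    exact pow_lt_pow_left₀ h3 (norm_nonneg _) (by norm_num)
  -- weights
  set l2 : ℝ := g - 1 / 2 with hl2
  set l1 : ℝ := (a * (3 / 2 - g) + (b - a) / 2) / (a + b) with hl1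
  set l0 : ℝ := (b * (3 / 2 - g) - (b - a) / 2) / (a + b) with hl0
  have hsum : l0 + l1 + l2 = 1 := by
    rw [hl0, hl1, hl2]
    have : a + b ≠ 0 := by positivity
    field_simp
    ring
  have hl2p : 0 < l2 := by rw [hl2]; linarith
  have hl1p : 0 < l1 := by
    rw [hl1]
    apply div_pos _ (by positivity)
    have k1 : a * (3 / 2 - 1.29) ≤ a * (3 / 2 - g) :=
      mul_le_mul_of_nonneg_left (by linarith) (by linarith)
    linarith
  have hl0p : 0 < l0 := by
    rw [hl0]
    apply div_pos _ (by positivity)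
    have k1 : 0 < b * (3 / 2 - g) := mul_pos hb0 (by linarith)
    linarith
  -- the variance inequality
  set A := p - α with hAdef
  set B := β - p with hBdef
  have var : l0 * l1 * (A + B) ^ 2 + l0 * l2 * (A ^ 2 + q ^ 2) + l1 * l2 * (B ^ 2 + q ^ 2) <
      (l0 + l1) * (g * r) ^ 2 + l2 * ((g - 1) * r) ^ 2 := by
    have k1 := mul_le_mul_of_nonneg_left e1 hl0p.le
    have k2 := mul_le_mul_of_nonneg_left e2 hl1p.le
    have k3 := mul_lt_mul_of_pos_left e3 hl2p
    have k4 : 0 ≤ (o.re - (l0 * α + l1 * β + l2 * p)) ^ 2 + (o.im - l2 * q) ^ 2 := by positivity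
    have k5 : (o.re - (l0 * α + l1 * β + l2 * p)) ^ 2 + (o.im - l2 * q) ^ 2 =
        (l0 * ((o.re - α) ^ 2 + o.im ^ 2) + l1 * ((o.re - β) ^ 2 + o.im ^ 2) +
        l2 * ((o.re - p) ^ 2 + (o.im - q) ^ 2)) -
        (l0 * l1 * (A + B) ^ 2 + l0 * l2 * (A ^ 2 + q ^ 2) + l1 * l2 * (B ^ 2 + q ^ 2)) := by
      have h0 : l0 = 1 - l1 - l2 := by linarith
      rw [hAdef, hBdef, h0]
      ring
    rw [k5] at k4
    have k6 : (l0 + l1) * (g * r) ^ 2 = l0 * (g * r) ^ 2 + l1 * (g * r) ^ 2 := by ring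
    rw [k6]
    linarith
  -- comparison
  obtain ⟨c1, c2, c3⟩ := cmp_aux (a := a) (b := b) (T := T) (S := S) (A := A) (B := B) (q := q)
    (r := r) (by rw [hT, hS]; ring) (by rw [hT, hS]; ring) hT0 (by rw [hT]; linarith) hb0
    (by rw [hT]; nlinarith) hr0 hq1 hA' hB'
  have ident : l0 * l1 * (a + b) ^ 2 + l0 * l2 * (a ^ 2 + 1) + l1 * l2 * (b ^ 2 + 1) =
      (l0 + l1) * g ^ 2 + l2 * (g - 1) ^ 2 := by
    have hab0 : a + b ≠ 0 := by positivity
    refine ident_aux hb0 hab hgval hl2 ?_ ?_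
    · rw [hl1]; field_simp
    · rw [hl0]; field_simp
  have d1 := mul_le_mul_of_nonneg_left c1 (mul_pos hl0p hl1p).le
  have d2 := mul_le_mul_of_nonneg_left c2 (mul_pos hl0p hl2p).le
  have d3 := mul_le_mul_of_nonneg_left c3 (mul_pos hl1p hl2p).le
  have d4 : l0 * l1 * ((a + b) * r) ^ 2 + l0 * l2 * ((a * r) ^ 2 + r ^ 2) +
      l1 * l2 * ((b * r) ^ 2 + r ^ 2) = (l0 + l1) * (g * r) ^ 2 + l2 * ((g - 1) * r) ^ 2 := by
    linear_combination r ^ 2 * ident
  linarith

end Pool.Agent.Helper37.CP
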