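import Pool.Agent.Helper37.CP.Low

/-! The strict lower bound, second part: corners, separation, induction along a side. -/

namespace Pool.Agent.Helper37.CP

open Metric Set

lemma ball_up {P : Set ℂ} {c : ℂ} {r β t : ℝ} (hr : 0 < r) (hc : closedBall c r ⊆ P)
    (h : ∀ z ∈ P, z.im ≤ β + t * z.re) : c.im + r * √(1 + t ^ 2) ≤ β + t * c.re := by
  set s := √(1 + t ^ 2) with hs
  have hs0 : 0 < s := Real.sqrt_pos.2 (by positivity)
  have hs2 : s ^ 2 = 1 + t ^ 2 := Real.sq_sqrt (by positivity)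
  have hmem : c + (r : ℂ) * (((-(t / s) : ℝ) : ℂ) + ((1 / s : ℝ) : ℂ) * Complex.I) ∈ P := by
    apply (closedBall_subset_iff hr.le).1 hc
    have e : ‖(((-(t / s) : ℝ) : ℂ) + ((1 / s : ℝ) : ℂ) * Complex.I)‖ ^ 2 = 1 := by
      rw [normSq']
      simp only [Complex.add_re, Complex.ofReal_re, Complex.mul_re, Complex.I_re, Complex.I_im,
        Complex.ofReal_im, Complex.add_im, Complex.mul_im]
      field_simp
      nlinarith
    have := norm_nonneg (((-(t / s) : ℝ) : ℂ) + ((1 / s : ℝ) : ℂ) * Complex.I)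
    nlinarith
  have h1 := h _ hmem
  simp only [Complex.add_re, Complex.ofReal_re, Complex.mul_re, Complex.I_re, Complex.I_im,
        Complex.ofReal_im, Complex.add_im, Complex.mul_im] at h1
  have h2 : r * s = r * (1 / s) + t * (r * (t / s)) := by
    field_simp
    nlinarith
  nlinarith

/-- a corner piece -/
lemma corner_strict {P : Set ℂ} (h : IsPoly P) {x1 y1 t1 t2 b : ℝ} (hb1 : 0.822 < b)
    (hb2 : b < 0.823) (hre : ∀ z ∈ P, 0 ≤ z.re) (him : ∀ z ∈ P, 0 ≤ z.im)
    (hx : (x1 : ℂ) ∈ P) (hy : (y1 : ℂ) * Complex.I ∈ P)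
    (h1 : ∀ z ∈ P, z.re ≤ x1 + t1 * z.im) (h2 : ∀ z ∈ P, z.im ≤ y1 + t2 * z.re)
    (ht1 : t1 < (1 / b - b) / 2) (ht2 : t2 < (1 / b - b) / 2) : (1 + b) / √2 < gam P := by
  have hb0 : 0 < b := by linarith
  obtain ⟨hr0, c, hc⟩ := exists_in h
  obtain ⟨o, ho⟩ := exists_circ h
  unfold gam
  set r := inR P with hrdef
  set R := circR P with hRdef
  have ha1 : 1 / b < 1.2166 := by rw [div_lt_iff₀ hb0]; nlinarith
  have hab : 1 / b * b = 1 := by field_simp
  set a : ℝ := 1 / b with ha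
  have hp := ball_re hr0 hc hre
  have hq := ball_im hr0 hc him
  have hA := ball_right hr0 hc h1
  have hB := ball_up hr0 hc h2
  set p := c.re
  set q := c.im
  set T : ℝ := (a - b) / 2 with hT
  set S : ℝ := (a + b) / 2 with hS
  have hTS : S ^ 2 = 1 + T ^ 2 := by rw [hT, hS]; nlinarith
  have hS0 : 0 < S := by rw [hS]; positivity
  have d1 : S - T < √(1 + t1 ^ 2) - t1 := slope_aux2' hTS (Real.sq_sqrt (by positivity)) hS0
    (Real.sqrt_pos.2 (by positivity)) ht1
  have d2 : S - T < √(1 + t2 ^ 2) - t2 := slope_aux2' hTS (Real.sq_sqrt (by positivity)) hS0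
    (Real.sqrt_pos.2 (by positivity)) ht2
  have hST : S - T = b := by rw [hS, hT]; ring
  rw [hST] at d1 d2
  have hT1 : T < 1 := by rw [hT]; linarith
  have ht1' : 0 ≤ 1 - t1 := by linarith
  have ht2' : 0 ≤ 1 - t2 := by linarith
  have k1 := mul_le_mul_of_nonneg_left hp ht2'
  have k2 := mul_le_mul_of_nonneg_left hq ht1'
  have k3 := mul_lt_mul_of_pos_left d1 hr0
  have k4 := mul_lt_mul_of_pos_left d2 hr0
  have hsum : 2 * (1 + b) * r < x1 + y1 := by nlinarith
  -- the distance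
  have e1 : ‖(x1 : ℂ) - (y1 : ℂ) * Complex.I‖ ≤ 2 * R := by
    have f1 := ho hx
    have f2 := ho hy
    rw [mem_closedBall] at f1 f2
    rw [← dist_eq_norm]
    refine (dist_triangle_right _ _ o).trans ?_
    linarith
  have e2 : ‖(x1 : ℂ) - (y1 : ℂ) * Complex.I‖ ^ 2 = x1 ^ 2 + y1 ^ 2 := by
    rw [normSq']; simp
  have e3 : x1 ^ 2 + y1 ^ 2 ≤ (2 * R) ^ 2 := by
    rw [← e2]
    exact pow_le_pow_left₀ (norm_nonneg _) e1 2
  have hR0 : 0 ≤ 2 * R := (norm_nonneg _).trans e1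
  have hs2 : √2 ^ 2 = 2 := Real.sq_sqrt (by norm_num)
  have hs0 : 0 < √2 := Real.sqrt_pos.2 (by norm_num)
  have e4 : (2 * (1 + b) * r) ^ 2 < 2 * (2 * R) ^ 2 := by
    have g1 : (2 * (1 + b) * r) ^ 2 < (x1 + y1) ^ 2 :=
      pow_lt_pow_left₀ hsum (by positivity) (by norm_num)
    nlinarith [sq_nonneg (x1 - y1)]
  have e5 : (1 + b) * r < √2 * R := by
    have g1 : ((1 + b) * r) ^ 2 < (√2 * R) ^ 2 := by
      rw [mul_pow, mul_pow √2 R, hs2]
      nlinarith
    exact lt_of_pow_lt_pow_left₀ 2 (by nlinarith) g1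
  rw [lt_div_iff₀ hr0, div_mul_eq_mul_div, div_lt_iff₀ hs0]
  linarith

/-- a piece inside an angle of `45` degrees -/
lemma wedge_strict {P : Set ℂ} (h : IsPoly P) (h0 : (0 : ℂ) ∈ P) (him : ∀ z ∈ P, 0 ≤ z.im)
    (h1 : ∀ z ∈ P, z.im ≤ z.re) : 1.7 < gam P := by
  obtain ⟨hr0, c, hc⟩ := exists_in h
  obtain ⟨o, ho⟩ := exists_circ h
  have hstr := strict_inside h hr0 hc ho
  unfold gam
  set r := inR P with hrdef
  set R := circR P with hRdef
  have hq := ball_im hr0 hc him
  have hB := ball_up (β := 0) (t := 1) hr0 hc (fun z hz => by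
    have := h1 z hz
    linarith)
  have hs : √(1 + 1 ^ 2) = √2 := by norm_num
  rw [hs] at hB
  have hs2 : √2 ^ 2 = 2 := Real.sq_sqrt (by norm_num)
  have hs0 : 0 < √2 := Real.sqrt_pos.2 (by norm_num)
  have hs1 : 1.41 < √2 := by
    rw [Real.lt_sqrt (by norm_num)]; norm_num
  have e1 : ‖c‖ ≤ ‖o‖ + ‖o - c‖ := by
    have : c = o - (o - c) := by ring
    calc ‖c‖ = ‖o - (o - c)‖ := by rw [← this]
      _ ≤ _ := norm_sub_le _ _
  have e2 : ‖o‖ ≤ R := by
    have := ho h0
    rw [mem_closedBall, dist_eq_norm, zero_sub, norm_neg] at this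
    exact this
  have e3 : ‖c‖ ^ 2 = c.re ^ 2 + c.im ^ 2 := normSq' c
  have e4 : 2.41 * r ≤ c.re := by nlinarith
  have e5 : (2.6 * r) ^ 2 ≤ ‖c‖ ^ 2 := by
    rw [e3]
    have g1 : (2.41 * r) ^ 2 ≤ c.re ^ 2 := pow_le_pow_left₀ (by positivity) e4 2
    have g2 : r ^ 2 ≤ c.im ^ 2 := pow_le_pow_left₀ hr0.le hq 2
    nlinarith [sq_nonneg r]
  have e6 : 2.6 * r ≤ ‖c‖ := (pow_le_pow_iff_left₀ (by positivity) (norm_nonneg _) (by norm_num)).1 e5
  rw [lt_div_iff₀ hr0]
  linarith

lemma poly_closure {P : Set ℂ} (h : IsPoly P) : closure (interior P) = P := by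
  have h1 := (poly_convex h).closure_interior_eq_closure_of_nonempty_interior h.2
  rw [h1, (poly_compact h).isClosed.closure_eq]

/-- separation of two pieces with a common point -/
lemma separate {A B : Set ℂ} (hA : IsPoly A) (hB : IsPoly B)
    (hd : Disjoint (interior A) (interior B)) {v : ℂ} (hvA : v ∈ A) (hvB : v ∈ B) :
    ∃ f1 f2 : ℝ, (f1 ≠ 0 ∨ f2 ≠ 0) ∧
      (∀ z ∈ A, f1 * (z.re - v.re) + f2 * (z.im - v.im) ≤ 0) ∧
      (∀ z ∈ B, 0 ≤ f1 * (z.re - v.re) + f2 * (z.im - v.im)) := by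
  obtain ⟨f, u, h1, h2⟩ := geometric_hahn_banach_open (poly_convex hA).interior isOpen_interior
    (poly_convex hB).interior hd
  have hcA : ∀ z ∈ A, f z ≤ u := by
    intro z hz
    rw [← poly_closure hA] at hz
    have hcl : IsClosed {z : ℂ | f z ≤ u} := isClosed_le f.continuous continuous_const
    exact hcl.closure_subset_iff.2 (fun w hw => (h1 w hw).le) hz
  have hcB : ∀ z ∈ B, u ≤ f z := by
    intro z hz
    rw [← poly_closure hB] at hz
    have hcl : IsClosed {z : ℂ | u ≤ f z} := isClosed_le continuous_const f.continuous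
    exact hcl.closure_subset_iff.2 (fun w hw => h2 w hw) hz
  have hv : f v = u := le_antisymm (hcA v hvA) (hcB v hvB)
  have hf : ∀ z : ℂ, f z = f 1 * z.re + f Complex.I * z.im := by
    intro z
    have e : z = z.re • (1 : ℂ) + z.im • Complex.I := by
      simp only [Complex.real_smul, mul_one]
      exact (Complex.re_add_im z).symm
    calc f z = f (z.re • (1 : ℂ) + z.im • Complex.I) := by rw [← e]
      _ = z.re • f 1 + z.im • f Complex.I := by rw [map_add, map_smul, map_smul]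
      _ = _ := by simp only [smul_eq_mul]; ring
  refine ⟨f 1, f Complex.I, ?_, ?_, ?_⟩
  · by_contra hcon
    push Not at hcon
    obtain ⟨a, ha⟩ := hA.2
    have h3 := h1 a ha
    rw [hf a, hcon.1, hcon.2] at h3
    rw [hf v, hcon.1, hcon.2] at hv
    linarith
  · intro z hz
    have h3 := hcA z hz
    rw [← hv, hf z, hf v] at h3
    linarith
  · intro z hz
    have h3 := hcB z hz
    rw [← hv, hf z, hf v] at h3
    linarith

/-- the points of the interior are strictly above the side -/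
lemma exists_pos_im {A : Set ℂ} (hA : IsPoly A) (him : ∀ z ∈ A, 0 ≤ z.im) : ∃ z ∈ A, 0 < z.im := by
  obtain ⟨hr0, c, hc⟩ := exists_in hA
  exact ⟨c, hc (mem_closedBall_self hr0.le), lt_of_lt_of_le hr0 (ball_im hr0 hc him)⟩

/-- separation of two neighbours on the side `im = 0` -/
lemma separate_base {A B : Set ℂ} (hA : IsPoly A) (hB : IsPoly B)
    (hd : Disjoint (interior A) (interior B)) (hAi : ∀ z ∈ A, 0 ≤ z.im) (hBi : ∀ z ∈ B, 0 ≤ z.im)
    {α β γ : ℝ} (hαβ : α < β) (hβγ : β < γ) (h1 : (α : ℂ) ∈ A) (h2 : (β : ℂ) ∈ A)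
    (h3 : (β : ℂ) ∈ B) (h4 : (γ : ℂ) ∈ B) :
    ∃ t : ℝ, (∀ z ∈ A, z.re ≤ β + t * z.im) ∧ (∀ z ∈ B, β + t * z.im ≤ z.re) := by
  obtain ⟨f1, f2, hf, hfA, hfB⟩ := separate hA hB hd h2 h3
  simp only [Complex.ofReal_re, Complex.ofReal_im, sub_zero] at hfA hfB
  have k1 := hfA _ h1
  simp only [Complex.ofReal_re, Complex.ofReal_im, mul_zero, add_zero] at k1
  have hf1 : 0 ≤ f1 := by
    by_contra hcon
    push Not at hcon
    nlinarith
  have hf1' : 0 < f1 := by
    rcases hf1.eq_or_lt with h0 | h0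
    · exfalso
      rw [← h0] at hfA hfB hf
      obtain ⟨a, ha, ha'⟩ := exists_pos_im hA hAi
      obtain ⟨b, hb, hb'⟩ := exists_pos_im hB hBi
      have e1 := hfA a ha
      have e2 := hfB b hb
      have e3 : f2 ≤ 0 := by
        by_contra hcon
        push Not at hcon
        nlinarith
      have e4 : 0 ≤ f2 := by
        by_contra hcon
        push Not at hcon
        nlinarith
      rcases hf with h | h
      · exact h rfl
      · exact h (le_antisymm e3 e4)
    · exact h0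
  refine ⟨-(f2 / f1), fun z hz => ?_, fun z hz => ?_⟩
  · have := hfA z hz
    have e : f1 * (z.re - β) + f2 * z.im = f1 * (z.re - (β + -(f2 / f1) * z.im)) := by
      field_simp
      ring
    rw [e] at this
    have := nonpos_of_mul_nonpos_right this hf1'
    linarith
  · have := hfB z hz
    have e : f1 * (z.re - β) + f2 * z.im = f1 * (z.re - (β + -(f2 / f1) * z.im)) := by
      field_simp
      ring
    rw [e] at this
    have := nonneg_of_mul_nonneg_right this hf1'
    linarith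

end Pool.Agent.Helper37.CP
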