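import Pool.Agent.Helper37.CP.Low2

/-! The strict lower bound, third part. -/

namespace Pool.Agent.Helper37.CP

open Metric Set Filter Topology

/-- exchange of the coordinates -/
noncomputable def sw : ℂ ≃ₗᵢ[ℝ] ℂ where
  toFun z := ⟨z.im, z.re⟩
  invFun z := ⟨z.im, z.re⟩
  left_inv z := by simp
  right_inv z := by simp
  map_add' z w := by apply Complex.ext <;> simp
  map_smul' r z := by apply Complex.ext <;> simp
  norm_map' z := by
    have h : ‖(⟨z.im, z.re⟩ : ℂ)‖ ^ 2 = ‖z‖ ^ 2 := by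
      rw [normSq', normSq']; simp; ring
    exact (pow_left_inj₀ (norm_nonneg _) (norm_nonneg _) (by norm_num)).1 h

@[simp] lemma sw_re (z : ℂ) : (sw z).re = z.im := rfl
@[simp] lemma sw_im (z : ℂ) : (sw z).im = z.re := rfl
lemma sw_sw (z : ℂ) : sw (sw z) = z := by apply Complex.ext <;> simp
lemma sw_symm : sw.symm = sw := by ext z <;> rfl

lemma sw_ball (c : ℂ) (r : ℝ) : sw '' closedBall c r = closedBall (sw c) r := by
  simp

lemma sw_circR (P : Set ℂ) : circR (sw '' P) = circR P := by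
  unfold circR
  congr 1
  ext R
  constructor
  · rintro ⟨o, ho⟩
    refine ⟨sw o, fun z hz => ?_⟩
    have h1 := ho (mem_image_of_mem sw hz)
    rw [mem_closedBall] at h1 ⊢
    rw [← sw.dist_map, sw_sw]
    exact h1
  · rintro ⟨o, ho⟩
    refine ⟨sw o, ?_⟩
    rintro _ ⟨z, hz, rfl⟩
    have h1 := ho hz
    rw [mem_closedBall] at h1 ⊢
    rw [sw.dist_map]
    exact h1

lemma sw_inR (P : Set ℂ) : inR (sw '' P) = inR P := by
  unfold inR
  congr 1
  ext r
  constructor
  · rintro ⟨h0, c, hc⟩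
    refine ⟨h0, sw c, fun z hz => ?_⟩
    have h1 : sw z ∈ closedBall c r := by
      rw [mem_closedBall] at hz ⊢
      rw [← sw.dist_map, sw_sw]
      exact hz
    obtain ⟨w, hw, hwz⟩ := hc h1
    rwa [← sw.injective hwz]
  · rintro ⟨h0, c, hc⟩
    refine ⟨h0, sw c, fun z hz => ?_⟩
    have h1 : sw z ∈ closedBall c r := by
      rw [mem_closedBall] at hz ⊢
      rw [← sw.dist_map, sw_sw]
      exact hz
    exact ⟨sw z, hc h1, sw_sw z⟩

lemma sw_gam (P : Set ℂ) : gam (sw '' P) = gam P := by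
  unfold gam
  rw [sw_circR, sw_inR]

lemma sw_interior (P : Set ℂ) : interior (sw '' P) = sw '' interior P :=
  (sw.toHomeomorph.image_interior P).symm

lemma sw_poly {P : Set ℂ} (h : IsPoly P) : IsPoly (sw '' P) := by
  classical
  obtain ⟨⟨S, hS⟩, hne⟩ := h
  refine ⟨⟨S.image sw, ?_⟩, ?_⟩
  · rw [hS, Finset.coe_image]
    exact (sw.toLinearEquiv : ℂ →ₗ[ℝ] ℂ).image_convexHull (S : Set ℂ)
  · rw [sw_interior]
    exact hne.image _

lemma sw_disj {A B : Set ℂ} (h : Disjoint (interior A) (interior B)) :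
    Disjoint (interior (sw '' A)) (interior (sw '' B)) := by
  rw [sw_interior, sw_interior]
  exact (disjoint_image_iff sw.injective).2 h

/-- a family of pieces along the side `[0, 1]` -/
structure Fam {n : ℕ} (P : Fin n → Set ℂ) : Prop where
  poly : ∀ i, IsPoly (P i)
  disj : ∀ i j, i ≠ j → Disjoint (interior (P i)) (interior (P j))
  him : ∀ i, ∀ z ∈ P i, 0 ≤ z.im
  hre : ∀ i, ∀ z ∈ P i, z.re ≤ 1
  cov : ∀ x : ℝ, 0 ≤ x → x ≤ 1 → ∃ i, (x : ℂ) ∈ P i

lemma successor {n : ℕ} {P : Fin n → Set ℂ} (h : Fam P) {β : ℝ} (h0 : 0 ≤ β) (h1 : β < 1) :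
    ∃ j, (β : ℂ) ∈ P j ∧ ∃ γ : ℝ, β < γ ∧ (γ : ℂ) ∈ P j := by
  have hex : ∃ j, ∃ᶠ t : ℝ in 𝓝[>] β, (t : ℂ) ∈ P j := by
    by_contra hcon
    push Not at hcon
    have h2 : ∀ᶠ t : ℝ in 𝓝[>] β, ∀ j, ¬ (t : ℂ) ∈ P j := by
      rw [eventually_all]
      intro j
      have := hcon j
      exact this
    have h3 : ∀ᶠ t : ℝ in 𝓝[>] β, t ∈ Ioc β 1 := Ioc_mem_nhdsGT h1
    obtain ⟨t, ht1, ht2⟩ := (h2.and h3).exists
    obtain ⟨i, hi⟩ := h.cov t (h0.trans ht2.1.le) ht2.2
    exact ht1 i hi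
  obtain ⟨j, hj⟩ := hex
  refine ⟨j, ?_, ?_⟩
  · have hcl := (poly_compact (h.poly j)).isClosed
    have ht : Tendsto (fun t : ℝ => (t : ℂ)) (𝓝[>] β) (𝓝 (β : ℂ)) :=
      (Complex.continuous_ofReal.tendsto β).mono_left nhdsWithin_le_nhds
    exact hcl.mem_of_frequently_of_tendsto hj ht
  · obtain ⟨t, ht1, ht2⟩ := (hj.and_eventually self_mem_nhdsWithin).exists
    exact ⟨t, ht2, ht1⟩

/-- the right end of a piece on the side -/
noncomputable def rend (A : Set ℂ) : ℝ := sSup {x : ℝ | (x : ℂ) ∈ A}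

lemma rend_spec {A : Set ℂ} (hA : IsPoly A) {x : ℝ} (hx : (x : ℂ) ∈ A) :
    (rend A : ℂ) ∈ A ∧ ∀ y : ℝ, (y : ℂ) ∈ A → y ≤ rend A := by
  have hc : IsCompact {x : ℝ | (x : ℂ) ∈ A} := by
    apply Metric.isCompact_of_isClosed_isBounded
    · exact (poly_compact hA).isClosed.preimage Complex.continuous_ofReal
    · obtain ⟨M, hM⟩ := (poly_compact hA).isBounded.subset_closedBall 0
      refine (isBounded_closedBall (x := (0 : ℝ)) (r := M)).subset fun y hy => ?_
      have := hM hy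
      simpa using this
  have hg := hc.isGreatest_sSup ⟨x, hx⟩
  exact ⟨hg.1, fun y hy => hg.2 hy⟩

lemma chain {n : ℕ} {P : Fin n → Set ℂ} (h : Fam P) {b : ℝ} (hb1 : 0.822 < b) (hb2 : b < 0.823)
    (hg : ∀ i, gam (P i) ≤ gb b) (i : Fin n) {α γ t : ℝ} (h0 : 0 ≤ α) (hαγ : α < γ)
    (hα : (α : ℂ) ∈ P i) (hγ : (γ : ℂ) ∈ P i) (ht : (1 / b - b) / 2 ≤ t)
    (hl : ∀ z ∈ P i, α + t * z.im ≤ z.re) : False := by
  classical
  have hb0 : 0 < b := by linarith
  have hT : 0 ≤ (1 / b - b) / 2 := by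
    have : 1.215 < 1 / b := by rw [lt_div_iff₀ hb0]; nlinarith
    linarith
  set Z : Finset (Fin n) := Finset.univ.filter fun i => ∃ α γ t : ℝ, 0 ≤ α ∧ α < γ ∧
    (α : ℂ) ∈ P i ∧ (γ : ℂ) ∈ P i ∧ (1 / b - b) / 2 ≤ t ∧ ∀ z ∈ P i, α + t * z.im ≤ z.re with hZ
  have hne : Z.Nonempty := ⟨i, by
    rw [hZ, Finset.mem_filter]
    exact ⟨Finset.mem_univ _, α, γ, t, h0, hαγ, hα, hγ, ht, hl⟩⟩
  obtain ⟨k, hk, hmax⟩ := Finset.exists_max_image Z (fun i => rend (P i)) hne
  have hk' := hk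
  rw [hZ, Finset.mem_filter] at hk
  obtain ⟨-, α, γ, t, h0, hαγ, hα, hγ, ht, hl⟩ := hk
  obtain ⟨hβ, hβmax⟩ := rend_spec (h.poly k) hα
  set β := rend (P k) with hβdef
  have hγβ : γ ≤ β := hβmax γ hγ
  have hβ1 : β ≤ 1 := by
    have := h.hre k _ hβ
    simpa using this
  rcases hβ1.eq_or_lt with h1 | h1
  · have hr : ∀ z ∈ P k, z.re ≤ β + 0 * z.im := by
      intro z hz
      have := h.hre k z hz
      rw [h1]
      linarith
    have := base_strict (h.poly k) hb1 hb2 (h.him k) hα hβ hl hr ht hT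
    linarith [hg k]
  · obtain ⟨j, hj1, γ', hγ', hj2⟩ := successor h (by linarith : (0 : ℝ) ≤ β) h1
    have hkj : k ≠ j := by
      rintro rfl
      have := hβmax γ' hj2
      linarith
    obtain ⟨t', ht1, ht2⟩ := separate_base (h.poly k) (h.poly j) (h.disj k j hkj) (h.him k)
      (h.him j) (by linarith : α < β) hγ' hα hβ hj1 hj2
    rcases le_or_gt t' ((1 / b - b) / 2) with h3 | h3
    · have := base_strict (h.poly k) hb1 hb2 (h.him k) hα hβ hl ht1 ht h3
      linarith [hg k]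
    · have hjZ : j ∈ Z := by
        rw [hZ, Finset.mem_filter]
        exact ⟨Finset.mem_univ _, β, γ', t', by linarith, hγ', hj1, hj2, h3.le, ht2⟩
      have h4 := hmax j hjZ
      have h5 := (rend_spec (h.poly j) hj1).2 γ' hj2
      linarith

lemma side_slope {n : ℕ} {P : Fin n → Set ℂ} (h : Fam P) {b : ℝ} (hb1 : 0.822 < b)
    (hb2 : b < 0.823) (hg : ∀ i, gam (P i) ≤ gb b) (i : Fin n) (h0 : ((0 : ℝ) : ℂ) ∈ P i) {γ : ℝ}
    (hγ : 0 < γ) (h1 : (γ : ℂ) ∈ P i) : ∃ x1 t1 : ℝ, (x1 : ℂ) ∈ P i ∧ t1 < (1 / b - b) / 2 ∧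
      ∀ z ∈ P i, z.re ≤ x1 + t1 * z.im := by
  have hb0 : 0 < b := by linarith
  have hT : 0 < (1 / b - b) / 2 := by
    have : 1.215 < 1 / b := by rw [lt_div_iff₀ hb0]; nlinarith
    linarith
  obtain ⟨hβ, hβmax⟩ := rend_spec (h.poly i) h0
  set β := rend (P i) with hβdef
  have hγβ : γ ≤ β := hβmax γ h1
  have hβ1 : β ≤ 1 := by
    have := h.hre i _ hβ
    simpa using this
  rcases hβ1.eq_or_lt with h2 | h2
  · refine ⟨β, 0, hβ, hT, fun z hz => ?_⟩
    have := h.hre i z hz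
    rw [h2]
    linarith
  · obtain ⟨j, hj1, γ', hγ', hj2⟩ := successor h (by linarith : (0 : ℝ) ≤ β) h2
    have hij : i ≠ j := by
      rintro rfl
      have := hβmax γ' hj2
      linarith
    obtain ⟨t', ht1, ht2⟩ := separate_base (h.poly i) (h.poly j) (h.disj i j hij) (h.him i)
      (h.him j) (by linarith : (0 : ℝ) < β) hγ' h0 hβ hj1 hj2
    refine ⟨β, t', hβ, ?_, ht1⟩
    by_contra h3
    push Not at h3
    exact chain h hb1 hb2 hg j (by linarith : (0 : ℝ) ≤ β) hγ' hj1 hj2 h3 ht2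

/-- **strict lower bound** -/
theorem low {n : ℕ} {P : Fin n → Set ℂ} (h : IsPart sqr P) {b : ℝ} (hb1 : 0.822 < b)
    (hb2 : b < 0.823) (hb : (1 + b) / √2 = gb b) : ∃ i, gb b < gam (P i) := by
  by_contra hcon
  push Not at hcon
  have hb0 : 0 < b := by linarith
  have hsub : ∀ i, P i ⊆ sqr := fun i => by
    rw [← h.union]
    exact subset_iUnion P i
  have hF : Fam P :=
    { poly := h.poly
      disj := h.disj
      him := fun i z hz => (hsub i hz).2.2.1
      hre := fun i z hz => (hsub i hz).2.1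
      cov := fun x h0 h1 => by
        have : (x : ℂ) ∈ ⋃ i, P i := by
          rw [h.union]
          exact ⟨by simpa using h0, by simpa using h1, by simp, by simp⟩
        exact mem_iUnion.1 this }
  have hF' : Fam (fun i => sw '' P i) :=
    { poly := fun i => sw_poly (h.poly i)
      disj := fun i j hij => sw_disj (h.disj i j hij)
      him := by
        rintro i _ ⟨z, hz, rfl⟩
        exact (hsub i hz).1
      hre := by
        rintro i _ ⟨z, hz, rfl⟩
        exact (hsub i hz).2.2.2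
      cov := fun x h0 h1 => by
        have : (x : ℂ) * Complex.I ∈ ⋃ i, P i := by
          rw [h.union]
          exact ⟨by simp, by simp, by simpa using h0, by simpa using h1⟩
        obtain ⟨i, hi⟩ := mem_iUnion.1 this
        refine ⟨i, _, hi, ?_⟩
        apply Complex.ext <;> simp }
  have hg' : ∀ i, gam (sw '' P i) ≤ gb b := fun i => by rw [sw_gam]; exact hcon i
  obtain ⟨j, hj0, γ, hγ, hjγ⟩ := successor hF (le_refl 0) one_pos
  obtain ⟨k, hk0, γ', hγ', hkγ⟩ := successor hF' (le_refl 0) one_pos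
  have hk0' : (0 : ℂ) ∈ P k := by
    obtain ⟨z, hz, hz0⟩ := hk0
    have : z = 0 := by
      apply sw.injective
      rw [hz0, map_zero]; simp
    rwa [this] at hz
  have hkγ' : (γ' : ℂ) * Complex.I ∈ P k := by
    obtain ⟨z, hz, hz0⟩ := hkγ
    have : z = (γ' : ℂ) * Complex.I := by
      apply sw.injective
      rw [hz0]
      apply Complex.ext <;> simp
    rwa [this] at hz
  have hj0' : (0 : ℂ) ∈ P j := by simpa using hj0
  have hgval : gb b < 1.3 := by
    have ha1 : 1 / b < 1.2166 := by rw [div_lt_iff₀ hb0]; nlinarith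
    have ha0 : 0 < 1 / b := by positivity
    unfold gb
    nlinarith
  have hjk : j = k := by
    by_contra hne
    obtain ⟨f1, f2, hf, hA, hB⟩ := separate (h.poly j) (h.poly k) (h.disj j k hne) hj0' hk0'
    simp only [Complex.zero_re, Complex.zero_im, sub_zero] at hA hB
    have k1 := hA _ hjγ
    have k2 := hB _ hkγ'
    simp at k1 k2
    have hf1 : f1 ≤ 0 := by
      by_contra h1
      push Not at h1
      have := mul_pos h1 hγ
      linarith
    have hf2 : 0 ≤ f2 := by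
      by_contra h1
      push Not at h1
      have := mul_neg_of_neg_of_pos h1 hγ'
      linarith
    rcases le_or_gt (-f1) f2 with h1 | h1
    · have hf2' : 0 < f2 := by
        rcases hf2.eq_or_lt with h2 | h2
        · exfalso
          rcases hf with h3 | h3
          · exact h3 (by linarith)
          · exact h3 h2.symm
        · exact h2
      have := wedge_strict (h.poly j) hj0' (hF.him j) (by
        intro z hz
        have e1 := hA z hz
        have e2 : 0 ≤ z.re := (hsub j hz).1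
        have e3 : -f1 * z.re ≤ f2 * z.re := mul_le_mul_of_nonneg_right h1 e2
        have e4 : f2 * z.im ≤ f2 * z.re := by linarith
        exact le_of_mul_le_mul_left e4 hf2')
      linarith [hcon j]
    · have hf1' : 0 < -f1 := by linarith
      have hk0'' : (0 : ℂ) ∈ sw '' P k := ⟨0, hk0', map_zero _⟩
      have := wedge_strict (sw_poly (h.poly k)) hk0'' (hF'.him k) (by
        rintro _ ⟨z, hz, rfl⟩
        simp only [sw_re, sw_im]
        have e1 := hB z hz
        have e2 : 0 ≤ z.im := (hsub k hz).2.2.1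
        have e3 : f2 * z.im ≤ -f1 * z.im := mul_le_mul_of_nonneg_right h1.le e2
        have e4 : -f1 * z.re ≤ -f1 * z.im := by linarith
        exact le_of_mul_le_mul_left e4 hf1')
      rw [sw_gam] at this
      linarith [hcon k]
  subst hjk
  obtain ⟨x1, t1, hx1, ht1, h1⟩ := side_slope hF hb1 hb2 hcon j hj0 hγ hjγ
  obtain ⟨y1, t2, hy1, ht2, h2⟩ := side_slope hF' hb1 hb2 hg' j hk0 hγ' hkγ
  have hy1' : (y1 : ℂ) * Complex.I ∈ P j := by
    obtain ⟨z, hz, hz0⟩ := hy1
    have : z = (y1 : ℂ) * Complex.I := by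
      apply sw.injective
      rw [hz0]
      apply Complex.ext <;> simp
    rwa [this] at hz
  have h2' : ∀ z ∈ P j, z.im ≤ y1 + t2 * z.re := by
    intro z hz
    have := h2 (sw z) (mem_image_of_mem _ hz)
    simpa using this
  have := corner_strict (h.poly j) hb1 hb2 (fun z hz => (hsub j hz).1) (hF.him j) hx1 hy1' h1 h2'
    ht1 ht2
  rw [hb] at this
  linarith [hcon j]

end Pool.Agent.Helper37.CP
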