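import Pool.Agent.Helper37.CP.TowerAsm

/-! Levels: enclosures of the frames, holes, modules with holes. -/

set_option autoImplicit false

namespace Pool.Agent.Helper37.CP

open Metric Set

/-! ### modules with holes -/

theorem md_dec_holes {ν : Type} (M : MD ν) (holes : List (List ℕ)) (d : ν) (encl : ν → CI)
    (okf : ν → Bool) (P : ν → ℂ) (hP : ∀ n, okf n = true → (encl n).mem (P n)) {τ δ : ℤ} {n : ℕ}
    (hτ : 0 ≤ τ) (hδ : 2 * δ * δ ≤ τ * τ)
    (h1 : (M.cells.all fun C => C.chk τ 12886 10000 (tget (0, 0) M.Z)) = true)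
    (h2 : glue n (holes ++ M.cells.map Cell.idx) M.paths = true)
    (h3 : tabAll (fun Z v => near δ Z (encl v) && okf v) M.Z M.nm (0, 0) d = true)
    {Ps Hs : List (List ν)} (h4 : M.paths.map (List.map (tget d M.nm)) = Ps)
    (h5 : holes.map (List.map (tget d M.nm)) = Hs) :
    Dec0 (12886 / 10000) (fun A => (Ps.map fun p => pthN A (p.map P)).sum -
      (Hs.map fun p => bdN A (p.map P)).sum) := by
  have hz : ∀ i, ‖(10000000 : ℂ) * P (tget d M.nm i) - toC (tget (0, 0) M.Z i)‖ ≤ τ := by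
    intro i
    have h := tabAll_spec h3 i
    rw [Bool.and_eq_true] at h
    exact near_spec h.1 (hP _ h.2) hτ hδ
  have eg : (((12886 : ℤ) : ℝ) / ((10000 : ℤ) : ℝ)) = 12886 / 10000 := by norm_num
  refine ⟨M.cells.map fun C => C.idx.map fun i => P (tget d M.nm i), ?_, ?_⟩
  · intro L hL
    obtain ⟨C, hC, rfl⟩ := List.mem_map.1 hL
    have hc := Cell.chk_spec (List.all_eq_true.1 h1 C hC) hτ (by norm_num)
      (pos := fun i => (10000000 : ℂ) * P (tget d M.nm i)) (fun i _ => hz i)
    have hl := cert_lin hc (a := (1 / 10000000 : ℂ)) (by norm_num) 0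
    have e : (C.idx.map fun i => (10000000 : ℂ) * P (tget d M.nm i)).map
        (fun z => (1 / 10000000 : ℂ) * z + 0) = C.idx.map fun i => P (tget d M.nm i) := by
      rw [List.map_map]
      refine List.map_congr_left fun i _ => ?_
      simp only [Function.comp_apply]
      ring
    rw [e, eg] at hl
    exact hl
  · intro A hA
    have hg := glue_spec h2 (fun i j => A (P (tget d M.nm i)) (P (tget d M.nm j))) (fun i j => hA _ _)
    rw [List.map_append, List.sum_append, List.map_map] at hg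
    rw [List.map_map]
    have e1 : (M.cells.map ((bdN A) ∘ fun C => C.idx.map fun i => P (tget d M.nm i))).sum =
        (M.cells.map ((bdN fun i j => A (P (tget d M.nm i)) (P (tget d M.nm j))) ∘ Cell.idx)).sum := by
      congr 1
      refine List.map_congr_left fun C _ => ?_
      exact bdN_map A _ C.idx
    have e2 : (Ps.map fun p => pthN A (p.map P)).sum =
        (M.paths.map (pthN fun i j => A (P (tget d M.nm i)) (P (tget d M.nm j)))).sum := by
      rw [← h4, List.map_map]
      congr 1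
      refine List.map_congr_left fun p _ => ?_
      simp only [Function.comp_apply]
      rw [pthN_map, pthN_map]
    have e3 : (Hs.map fun p => bdN A (p.map P)).sum =
        (holes.map (bdN fun i j => A (P (tget d M.nm i)) (P (tget d M.nm j)))).sum := by
      rw [← h5, List.map_map]
      congr 1
      refine List.map_congr_left fun p _ => ?_
      simp only [Function.comp_apply]
      rw [bdN_map, bdN_map]
    rw [e1]
    show _ = (Ps.map fun p => pthN A (p.map P)).sum - (Hs.map fun p => bdN A (p.map P)).sum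
    rw [e2, e3, ← hg]
    ring

/-- the check of a module with holes -/
def modChkH {ν : Type} (M : MD ν) (holes : List (List ℕ)) (d : ν) (n : ℕ) (δ τ : ℤ) (encl : ν → CI)
    (okf : ν → Bool) : Bool :=
  (M.cells.all fun C => C.chk τ 12886 10000 (tget (0, 0) M.Z)) &&
    (glue n (holes ++ M.cells.map Cell.idx) M.paths &&
      tabAll (fun Z v => near δ Z (encl v) && okf v) M.Z M.nm (0, 0) d)

theorem modH_dec {ν : Type} {M : MD ν} {holes : List (List ℕ)} {d : ν} {n : ℕ} {δ τ : ℤ}
    {encl : ν → CI} {okf : ν → Bool} (h : modChkH M holes d n δ τ encl okf = true) {P : ν → ℂ}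
    (hP : ∀ n, okf n = true → (encl n).mem (P n)) (hτ : 0 ≤ τ) (hδ : 2 * δ * δ ≤ τ * τ)
    {Ps Hs : List (List ν)} (h4 : M.paths.map (List.map (tget d M.nm)) = Ps)
    (h5 : holes.map (List.map (tget d M.nm)) = Hs) :
    Dec0 (12886 / 10000) (fun A => (Ps.map fun p => pthN A (p.map P)).sum -
      (Hs.map fun p => bdN A (p.map P)).sum) := by
  unfold modChkH at h
  rw [Bool.and_eq_true, Bool.and_eq_true] at h
  exact md_dec_holes M holes d encl okf P hP hτ hδ h.1 h.2.1 h.2.2 h4 h5

/-! ### enclosures of the frames -/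

/-- `(b - a)^2 + (a b)^2` over `4 a b` -/
def frSI (a b : FI) : FI :=
  (((b.sub a).mul (b.sub a)).add ((a.mul b).mul (a.mul b))).mul (((FI.rat 4 1).mul (a.mul b)).inv)

/-- enclosure of the centre and of the rotation times the radius -/
def frI (t0 t1 : FI) : CI × CI :=
  let a := t0.inv
  let r := (FI.rat 2 5).mul (a.add t1).inv
  let S := frSI a t1
  (⟨(FI.rat (-1) 1).add (a.mul r), r⟩,
    ⟨r.mul (((FI.rat (-1) 2).mul (t1.sub a)).mul S.inv),
      r.mul ((((FI.rat 1 2).mul (a.mul t1)).sub S).mul S.inv)⟩)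

/-- side conditions -/
def frOk (t0 t1 : FI) : Bool :=
  decide (0 < t0.lo) && (decide (0 < (t0.inv.add t1).lo) &&
    (decide (0 < ((FI.rat 4 1).mul (t0.inv.mul t1)).lo) && decide (0 < (frSI t0.inv t1).lo)))

theorem lrat_mem (n d : ℤ) (hd : 0 < d) {x : ℝ} (hx : x = (n : ℝ) / (d : ℝ)) : (FI.rat n d).mem x := by
  rw [hx]
  exact FI.rat_mem n hd

theorem frSI_mem {a b : FI} {x y : ℝ} (hx : a.mem x) (hy : b.mem y)
    (h : 0 < ((FI.rat 4 1).mul (a.mul b)).lo) : (frSI a b).mem (frS x y) := by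
  have e : frS x y = ((y - x) * (y - x) + (x * y) * (x * y)) * (4 * (x * y))⁻¹ := by
    unfold frS
    rw [div_eq_mul_inv]
    ring
  rw [e]
  exact FI.mul_mem (FI.add_mem (FI.mul_mem (FI.sub_mem hy hx) (FI.sub_mem hy hx))
    (FI.mul_mem (FI.mul_mem hx hy) (FI.mul_mem hx hy)))
    (FI.inv_mem (FI.mul_mem (lrat_mem 4 1 (by norm_num) (by norm_num)) (FI.mul_mem hx hy)) h)

theorem frI_mem {t0 t1 : FI} {x y : ℝ} (hx : t0.mem x) (hy : t1.mem y) (h : frOk t0 t1 = true) :
    (frI t0 t1).1.mem (frc (1 / x) y) ∧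
      (frI t0 t1).2.mem (((frr (1 / x) y : ℝ) : ℂ) * fru (1 / x) y) := by
  unfold frOk at h
  simp only [Bool.and_eq_true, decide_eq_true_eq] at h
  obtain ⟨h0, h1, h2, h3⟩ := h
  have ha : t0.inv.mem (1 / x) := by
    rw [one_div]
    exact FI.inv_mem hx h0
  have hr : ((FI.rat 2 5).mul (t0.inv.add t1).inv).mem (frr (1 / x) y) := by
    unfold frr
    rw [div_eq_mul_inv (2 / 5 : ℝ)]
    exact FI.mul_mem (lrat_mem 2 5 (by norm_num) (by norm_num)) (FI.inv_mem (FI.add_mem ha hy) h1)
  have hS := frSI_mem ha hy h2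
  refine ⟨⟨?_, hr⟩, ?_, ?_⟩
  · exact FI.add_mem (lrat_mem (-1) 1 (by norm_num) (by norm_num)) (FI.mul_mem ha hr)
  · have e : (((frr (1 / x) y : ℝ) : ℂ) * fru (1 / x) y).re =
        frr (1 / x) y * ((-1 / 2 * (y - 1 / x)) * (frS (1 / x) y)⁻¹) := by
      rw [Complex.mul_re, Complex.ofReal_re, Complex.ofReal_im, zero_mul, sub_zero]
      unfold fru
      simp only
      rw [div_eq_mul_inv _ (frS (1 / x) y)]
      ring
    rw [e]
    exact FI.mul_mem hr (FI.mul_mem (FI.mul_mem (lrat_mem (-1) 2 (by norm_num) (by norm_num))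
      (FI.sub_mem hy ha)) (FI.inv_mem hS h3))
  · have e : (((frr (1 / x) y : ℝ) : ℂ) * fru (1 / x) y).im =
        frr (1 / x) y * ((1 / 2 * (1 / x * y) - frS (1 / x) y) * (frS (1 / x) y)⁻¹) := by
      rw [Complex.mul_im, Complex.ofReal_re, Complex.ofReal_im, zero_mul, add_zero]
      unfold fru
      simp only
      rw [div_eq_mul_inv _ (frS (1 / x) y)]
      ring
    rw [e]
    exact FI.mul_mem hr (FI.mul_mem (FI.sub_mem (FI.mul_mem (lrat_mem 1 2 (by norm_num) (by norm_num))
      (FI.mul_mem ha hy)) hS) (FI.inv_mem hS h3))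

/-! ### enclosures of the wall parameters -/

def bFI : FI := ⟨822475043596, 822475043597⟩

theorem bFI_mem {b : ℝ} (h : IsB b) : bFI.mem b := by
  have h1 := h.lo
  have h2 := h.hi
  have hS : (SC : ℝ) = 1000000000000 := by
    unfold SC
    norm_num
  unfold bFI FI.mem
  rw [hS]
  constructor
  · push_cast
    linarith
  · push_cast
    linarith

def tFI (j : ℕ) : FI := bFI.add (FI.rat 3 (250 * 8 ^ j))

theorem ltt_nat (b : ℝ) (j : ℕ) : tt b j = b + 3 / (250 * 8 ^ j) := by
  unfold tt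
  rw [if_pos (by positivity), zpow_natCast, one_div, inv_pow]
  field_simp

theorem tFI_mem {b : ℝ} (h : IsB b) (j : ℕ) : (tFI j).mem (tt b j) := by
  rw [ltt_nat]
  refine FI.add_mem (bFI_mem h) (lrat_mem 3 (250 * 8 ^ j) (by positivity) ?_)
  push_cast
  ring

def tBox (j : ℕ) : FI := ⟨bFI.lo, (tFI j).hi⟩

theorem tt_anti (b : ℝ) {j k : ℕ} (h : j ≤ k) : tt b k ≤ tt b j := by
  rw [ltt_nat, ltt_nat]
  have h1 : (8 : ℝ) ^ j ≤ 8 ^ k := pow_le_pow_right₀ (by norm_num) h
  have h2 : (0 : ℝ) < 8 ^ j := by positivity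
  have : (3 : ℝ) / (250 * 8 ^ k) ≤ 3 / (250 * 8 ^ j) := by
    apply div_le_div_of_nonneg_left (by norm_num) (by positivity)
    linarith
  linarith

theorem lt_tt (b : ℝ) (j : ℕ) : b < tt b j := by
  rw [ltt_nat]
  have : (0 : ℝ) < 3 / (250 * 8 ^ j) := by positivity
  linarith

theorem tBox_mem {b : ℝ} (h : IsB b) {j k : ℕ} (hjk : j ≤ k) : (tBox j).mem (tt b k) := by
  have hS := SC_pos
  constructor
  · exact (bFI_mem h).1.trans (mul_le_mul_of_nonneg_right (lt_tt b k).le hS.le)
  · exact (mul_le_mul_of_nonneg_right (tt_anti b hjk) hS.le).trans (tFI_mem h j).2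

theorem tt_neg (b : ℝ) : tt b (-1) = 7 / 8 := by
  unfold tt
  rw [if_neg (by norm_num)]

/-! ### environments given by tables -/

/-- entry of an environment -/
structure ER : Type where
  l : ℤ
  t : FI
  h : FI
  c : CI
  u : CI

/-- the environment of a table -/
def mkEnv (L : List ER) (d : ER) : Env :=
  ⟨fun l => ((L.find? fun e => decide (e.l = l)).getD d).t,
    fun l => ((L.find? fun e => decide (e.l = l)).getD d).h,
    fun l => ((L.find? fun e => decide (e.l = l)).getD d).c,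
    fun l => ((L.find? fun e => decide (e.l = l)).getD d).u⟩

/-- inclusion -/
def FI.le (I J : FI) : Bool := decide (J.lo ≤ I.lo) && decide (I.hi ≤ J.hi)

theorem FI.le_mem {I J : FI} (h : I.le J = true) {x : ℝ} (hx : I.mem x) : J.mem x := by
  unfold FI.le at h
  rw [Bool.and_eq_true, decide_eq_true_eq, decide_eq_true_eq] at h
  have h1 : (J.lo : ℝ) ≤ I.lo := by exact_mod_cast h.1
  have h2 : (I.hi : ℝ) ≤ J.hi := by exact_mod_cast h.2
  exact ⟨h1.trans hx.1, hx.2.trans h2⟩

def CI.le (I J : CI) : Bool := I.re.le J.re && I.im.le J.im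

theorem CI.le_mem {I J : CI} (h : I.le J = true) {x : ℂ} (hx : I.mem x) : J.mem x := by
  unfold CI.le at h
  rw [Bool.and_eq_true] at h
  exact ⟨FI.le_mem h.1 hx.1, FI.le_mem h.2 hx.2⟩

/-! ### holes -/

/-- tower points as names of vertices -/
def toT (l : ℤ) (n : RN) : Nm := .T n.X n.Y n.k l

theorem pos_toT (τ η : ℤ → ℝ) (n : RN) :
    pos τ η (toT 0 n) = frM (1 / τ 0) (τ 1) (mpos n) := by
  unfold toT mpos
  show (((3 / 5 : ℝ) ^ (0 : ℤ) : ℝ) : ℂ) * frM (1 / τ 0) (τ (0 + 1)) _ = _
  simp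

theorem bdN_swap {α : Type} (A : α → α → ℤ) {F : List α} (hF : F ≠ []) (a b : α) (m m' : List α) :
    bdN A (F ++ (a :: (m ++ [b]))) - pthN A (a :: (m ++ [b])) =
      bdN A (F ++ (a :: (m' ++ [b]))) - pthN A (a :: (m' ++ [b])) := by
  obtain ⟨f, F', rfl⟩ := List.exists_cons_of_ne_nil hF
  have key : ∀ m : List α, bdN A ((f :: F') ++ (a :: (m ++ [b]))) - pthN A (a :: (m ++ [b])) =
      pthN A ((f :: F') ++ [a]) + A b f := by
    intro m
    have e : bdN A ((f :: F') ++ (a :: (m ++ [b]))) =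
        pthN A ((f :: F') ++ a :: ((m ++ [b]) ++ [f])) := by
      show pthN A (f :: ((F' ++ (a :: (m ++ [b]))) ++ [f])) = _
      congr 1
      simp
    rw [e, pthN_append]
    have e2 : a :: ((m ++ [b]) ++ [f]) = (a :: m) ++ b :: [f] := by simp
    have e4 : pthN A (a :: ((m ++ [b]) ++ [f])) = pthN A ((a :: m) ++ [b]) + pthN A [b, f] := by
      rw [e2]
      exact pthN_append A (a :: m) b [f]
    have e3 : pthN A [b, f] = A b f := by
      show A b f + 0 = _
      rw [add_zero]
    rw [e4, e3]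
    simp only [List.cons_append]
    ring
  rw [key m, key m']

theorem lfrr_pos {a b : ℝ} (ha : 0 < a) (hb : 0 < b) : 0 < frr a b := by
  unfold frr
  positivity

theorem lfrS_pos {a b : ℝ} (ha : 0 < a) (hb : 0 < b) : 0 < frS a b := by
  unfold frS
  positivity

theorem fru_ne {a b : ℝ} (ha : 0 < a) (hb : 0 < b) : fru a b ≠ 0 := by
  intro h0
  have h1 := congrArg Complex.re h0
  have h2 := congrArg Complex.im h0
  unfold fru at h1 h2
  simp only [Complex.zero_re, Complex.zero_im] at h1 h2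
  have hS := (lfrS_pos ha hb).ne'
  rw [div_eq_zero_iff] at h1 h2
  have h3 : b = a := by
    rcases h1 with h | h
    · linarith
    · exact absurd h hS
  have h4 : frS a b = a * b / 2 := by
    rcases h2 with h | h
    · linarith
    · exact absurd h hS
  rw [h3] at h4
  unfold frS at h4
  have ha' := ha.ne'
  rw [sub_self] at h4
  field_simp at h4
  nlinarith [mul_pos ha ha]

/-- filled holes -/
def Hole (γ b : ℝ) (j : ℕ) : Prop :=
  Dec0 γ (fun A => bdN A ((spn j ++ ringOut.map (toT 0)).map (lpos b j)))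

theorem ringOut_form : ∃ m, ringOut = t24 (-1) :: (m ++ [t25 0]) := by
  refine ⟨ringOut.tail.dropLast, ?_⟩
  decide +kernel

theorem tt_pos {b : ℝ} (h : IsB b) (j : ℤ) : 0 < tt b j := by
  have h1 := h.lo
  unfold tt
  split_ifs
  · positivity
  · norm_num

/-- holes can be filled -/
theorem hole_fill (hSP : ST_SP2) (hF : ST_FACT) {b : ℝ} (hb : IsB b) {γ r : ℝ} (hr0 : 0 < r)
    (hr1 : r ≤ 1) (hγ : gb b / r ≤ γ) (hγ2 : 12886 / 10000 ≤ γ) {m : ℕ} (hm : 24 ≤ m)
    (hs : Small r (sq m)) (j : ℕ) : Hole γ b j := by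
  obtain ⟨Xs, hXs, hTX⟩ := tow_TX1 hr0 hr1 (by omega) hs
  have h1 := hSP b hb j r _ hr0 hr1 hTX
  rw [← hXs] at h1
  have h2 := h1.mono ((div_le_div_of_nonneg_right (hF b hb j) hr0.le).trans hγ)
  have h3 := (tower_dec m 0 le_rfl (by omega)).mono hγ2
  set a := 1 / tt b j with ha
  set b' := tt b (j - 1) with hb'
  have ha0 : 0 < a := by
    have := tt_pos hb j
    positivity
  have hb0 : 0 < b' := tt_pos hb _
  have hne : ((frr a b' : ℝ) : ℂ) * fru a b' ≠ 0 :=
    mul_ne_zero (by exact_mod_cast (lfrr_pos ha0 hb0).ne') (fru_ne ha0 hb0)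
  have h4 := h3.lin hne (frc a b')
  refine ((dec0_single h2).add h4).congr ?_
  intro A hA
  have hlp : ∀ n : RN, lpos b j (toT 0 n) = frM a b' (mpos n) := by
    intro n
    unfold lpos
    rw [pos_toT]
    simp only [sub_zero]
    rfl
  have e1 : ((blist m 0).map par).map (fun X => frM a b' (PP (31 / 25) X)) =
      (blist m 0).map (fun n => lpos b j (toT 0 n)) := by
    rw [show (fun X => frM a b' (PP (31 / 25) X)) = (frM a b') ∘ (PP (31 / 25)) from rfl,
      ← List.map_map, tow_pts, List.map_map]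
    refine List.map_congr_left fun n _ => ?_
    simp only [Function.comp_apply]
    rw [hlp]
  have e2 : ∀ L : List RN, pthN (fun p q => A (((frr a b' : ℝ) : ℂ) * fru a b' * p + frc a b')
      (((frr a b' : ℝ) : ℂ) * fru a b' * q + frc a b')) (L.map mpos) =
      pthN A (L.map fun n => lpos b j (toT 0 n)) := by
    intro L
    rw [← pthN_map A (fun z => ((frr a b' : ℝ) : ℂ) * fru a b' * z + frc a b'), List.map_map]
    congr 1
    refine List.map_congr_left fun n _ => ?_
    simp only [Function.comp_apply]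
    rw [hlp]
    unfold frM
    ring
  have e3 : ringOut.map (RN.sh 0) = ringOut := by
    have : (RN.sh 0) = id := by
      funext n
      unfold RN.sh
      simp
    rw [this, List.map_id]
  obtain ⟨mid, hmid⟩ := ringOut_form
  show bdN A (_ ++ _) + (_ - _) = bdN A _
  rw [e3, e2, e2, e1, List.map_append, List.map_map]
  have e4 : (blist m 0).map (fun n => lpos b j (toT 0 n)) = lpos b j (toT 0 (t24 (-1))) ::
      ((bmid m 0).map (fun n => lpos b j (toT 0 n)) ++ [lpos b j (toT 0 (t25 0))]) := by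
    unfold blist
    simp
  have e5 : ringOut.map (fun n => lpos b j (toT 0 n)) = lpos b j (toT 0 (t24 (-1))) ::
      (mid.map (fun n => lpos b j (toT 0 n)) ++ [lpos b j (toT 0 (t25 0))]) := by
    rw [hmid]
    simp
  have e6 : ringOut.map (lpos b j ∘ toT 0) = ringOut.map (fun n => lpos b j (toT 0 n)) := rfl
  have hF0 : (spn j).map (lpos b j) ≠ [] := by
    intro h0
    have := List.map_eq_nil_iff.1 h0
    rcases j with _ | _ | _ | _ | _ | j <;> simp [spn] at this
  rw [e6, e4, e5]
  have := bdN_swap A hF0 (lpos b j (toT 0 (t24 (-1)))) (lpos b j (toT 0 (t25 0)))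
    ((bmid m 0).map (fun n => lpos b j (toT 0 n))) (mid.map (fun n => lpos b j (toT 0 n)))
  linarith

end Pool.Agent.Helper37.CP
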