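import Pool.Agent.Helper37.CP.Iface

/-! Modules: finite families of cells given by tables. -/

set_option autoImplicit false

namespace Pool.Agent.Helper37.CP

open Metric Set

/-- table lookup -/
def tget {α : Type} (d : α) (T : List (List α)) (i : ℕ) : α := (T.getD (i / 32) []).getD (i % 32) d

/-- the interval is within `δ` units of the integer point, in both coordinates -/
def near (δ : ℤ) (Z : Pt) (I : CI) : Bool :=
  decide ((Z.1 - δ) * 100000 ≤ I.re.lo) && (decide (I.re.hi ≤ (Z.1 + δ) * 100000) &&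
    (decide ((Z.2 - δ) * 100000 ≤ I.im.lo) && decide (I.im.hi ≤ (Z.2 + δ) * 100000)))

theorem near_aux {I : FI} {x : ℝ} {Z δ : ℤ} (h1 : (Z - δ) * 100000 ≤ I.lo)
    (h2 : I.hi ≤ (Z + δ) * 100000) (h : I.mem x) : |10000000 * x - Z| ≤ δ := by
  have h1' : ((Z : ℝ) - δ) * 100000 ≤ I.lo := by exact_mod_cast h1
  have h2' : (I.hi : ℝ) ≤ ((Z : ℝ) + δ) * 100000 := by exact_mod_cast h2
  have h3 := h.1
  have h4 := h.2
  have hS : (SC : ℝ) = 1000000000000 := by
    unfold SC
    norm_num
  rw [hS] at h3 h4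
  rw [abs_le]
  constructor <;> linarith

theorem near_spec {δ τ : ℤ} {Z : Pt} {I : CI} {z : ℂ} (h : near δ Z I = true) (hI : I.mem z)
    (hτ : 0 ≤ τ) (hδ : 2 * δ * δ ≤ τ * τ) : ‖(10000000 : ℂ) * z - toC Z‖ ≤ τ := by
  unfold near at h
  simp only [Bool.and_eq_true, decide_eq_true_eq] at h
  obtain ⟨h1, h2, h3, h4⟩ := h
  have a1 := near_aux h1 h2 hI.1
  have a2 := near_aux h3 h4 hI.2
  have hτ' : (0 : ℝ) ≤ τ := by exact_mod_cast hτ
  have hδ' : 2 * (δ : ℝ) * δ ≤ τ * τ := by exact_mod_cast hδ
  apply le_of_sq_le_sq _ hτ'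
  rw [normSq']
  have e1 : ((10000000 : ℂ) * z - toC Z).re = 10000000 * z.re - Z.1 := by
    simp [toC]
  have e2 : ((10000000 : ℂ) * z - toC Z).im = 10000000 * z.im - Z.2 := by
    simp [toC]
  rw [e1, e2]
  have b1 := abs_le.1 a1
  have b2 := abs_le.1 a2
  nlinarith

/-- all pairs of corresponding entries -/
def tabAll {α β : Type} (P : α → β → Bool) (T : List (List α)) (U : List (List β)) (da : α) (db : β) :
    Bool :=
  P da db && (decide (T.length = U.length) && (T.zip U).all fun r =>
    decide (r.1.length = r.2.length) && (r.1.zip r.2).all fun v => P v.1 v.2)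

theorem zip_getD {α β : Type} {P : α → β → Bool} {l : List α} {m : List β} (hl : l.length = m.length)
    (h : ((l.zip m).all fun v => P v.1 v.2) = true) {da : α} {db : β} (hd : P da db = true) (i : ℕ) :
    P (l.getD i da) (m.getD i db) = true := by
  rcases Nat.lt_or_ge i l.length with h1 | h1
  · rw [List.getD_eq_getElem _ _ h1, List.getD_eq_getElem _ _ (by omega)]
    rw [List.all_eq_true] at h
    refine h (l[i], m[i]'(by omega)) ?_
    rw [List.mem_iff_getElem]
    refine ⟨i, by rw [List.length_zip]; omega, ?_⟩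
    rw [List.getElem_zip]
  · rw [List.getD_eq_default _ _ h1, List.getD_eq_default _ _ (by omega)]
    exact hd

theorem tabAll_spec {α β : Type} {P : α → β → Bool} {T : List (List α)} {U : List (List β)} {da : α}
    {db : β} (h : tabAll P T U da db = true) (i : ℕ) : P (tget da T i) (tget db U i) = true := by
  unfold tabAll at h
  rw [Bool.and_eq_true, Bool.and_eq_true, decide_eq_true_eq] at h
  obtain ⟨h1, h2, h3⟩ := h
  have h4 := zip_getD (P := fun (r : List α) (s : List β) => decide (r.length = s.length) &&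
    (r.zip s).all fun v => P v.1 v.2) h2 h3 (da := []) (db := []) (by simp) (i / 32)
  simp only [Bool.and_eq_true, decide_eq_true_eq] at h4
  exact zip_getD h4.1 h4.2 h1 (i % 32)

/-- a module -/
structure MD (ν : Type) : Type where
  Z : List (List Pt)
  nm : List (List ν)
  cells : List Cell
  paths : List (List ℕ)

theorem md_dec {ν : Type} (M : MD ν) (d : ν) (encl : ν → CI) (okf : ν → Bool) (P : ν → ℂ)
    (hP : ∀ n, okf n = true → (encl n).mem (P n)) {τ δ gn gd : ℤ} {n : ℕ} (hτ : 0 ≤ τ)
    (hδ : 2 * δ * δ ≤ τ * τ) (hgd : 0 < gd)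
    (h1 : (M.cells.all fun C => C.chk τ gn gd (tget (0, 0) M.Z)) = true)
    (h2 : glue n (M.cells.map Cell.idx) M.paths = true)
    (h3 : tabAll (fun Z v => near δ Z (encl v) && okf v) M.Z M.nm (0, 0) d = true)
    {Ps : List (List ν)} (h4 : M.paths.map (List.map (tget d M.nm)) = Ps) :
    Dec0 ((gn : ℝ) / gd) (fun A => (Ps.map fun p => pthN A (p.map P)).sum) := by
  have hz : ∀ i, ‖(10000000 : ℂ) * P (tget d M.nm i) - toC (tget (0, 0) M.Z i)‖ ≤ τ := by
    intro i
    have h := tabAll_spec h3 i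
    rw [Bool.and_eq_true] at h
    exact near_spec h.1 (hP _ h.2) hτ hδ
  refine ⟨M.cells.map fun C => C.idx.map fun i => P (tget d M.nm i), ?_, ?_⟩
  · intro L hL
    obtain ⟨C, hC, rfl⟩ := List.mem_map.1 hL
    have hc := Cell.chk_spec (List.all_eq_true.1 h1 C hC) hτ hgd
      (pos := fun i => (10000000 : ℂ) * P (tget d M.nm i)) (fun i _ => hz i)
    have hl := cert_lin hc (a := (1 / 10000000 : ℂ)) (by norm_num) 0
    have e : (C.idx.map fun i => (10000000 : ℂ) * P (tget d M.nm i)).map
        (fun z => (1 / 10000000 : ℂ) * z + 0) = C.idx.map fun i => P (tget d M.nm i) := by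
      rw [List.map_map]
      refine List.map_congr_left fun i _ => ?_
      simp only [Function.comp_apply]
      ring
    rw [e] at hl
    exact hl
  · intro A hA
    have hg := glue_spec h2 (fun i j => A (P (tget d M.nm i)) (P (tget d M.nm j))) (fun i j => hA _ _)
    rw [List.map_map] at hg
    rw [List.map_map]
    have e1 : (M.cells.map ((bdN A) ∘ fun C => C.idx.map fun i => P (tget d M.nm i))).sum =
        (M.cells.map ((bdN fun i j => A (P (tget d M.nm i)) (P (tget d M.nm j))) ∘ Cell.idx)).sum := by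
      congr 1
      refine List.map_congr_left fun C _ => ?_
      exact bdN_map A _ C.idx
    rw [e1, hg, ← h4]
    show _ = ((M.paths.map (List.map (tget d M.nm))).map fun p => pthN A (p.map P)).sum
    rw [List.map_map]
    congr 1
    refine List.map_congr_left fun p _ => ?_
    simp only [Function.comp_apply]
    rw [pthN_map, pthN_map]

/-- numerical data of a cell -/
structure CD : Type where
  cx : ℤ
  cy : ℤ
  ox : ℤ
  oy : ℤ
  r : ℤ
  R : ℤ

/-- cells from indices and numerical data -/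
def mkC (I : List (List ℕ)) (D : List CD) : List Cell :=
  (I.zip D).map fun v => ⟨v.1, (v.2.cx, v.2.cy), (v.2.ox, v.2.oy), v.2.r, v.2.R⟩

/-- the check of a module -/
def modChk {ν : Type} (M : MD ν) (d : ν) (n : ℕ) (δ τ : ℤ) (encl : ν → CI) (okf : ν → Bool) : Bool :=
  (M.cells.all fun C => C.chk τ 12886 10000 (tget (0, 0) M.Z)) &&
    (glue n (M.cells.map Cell.idx) M.paths &&
      tabAll (fun Z v => near δ Z (encl v) && okf v) M.Z M.nm (0, 0) d)

theorem mod_dec {ν : Type} {M : MD ν} {d : ν} {n : ℕ} {δ τ : ℤ} {encl : ν → CI} {okf : ν → Bool}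
    (h : modChk M d n δ τ encl okf = true) {P : ν → ℂ}
    (hP : ∀ n, okf n = true → (encl n).mem (P n)) (hτ : 0 ≤ τ) (hδ : 2 * δ * δ ≤ τ * τ)
    {Ps : List (List ν)} (h4 : M.paths.map (List.map (tget d M.nm)) = Ps) :
    Dec0 (12886 / 10000) (fun A => (Ps.map fun p => pthN A (p.map P)).sum) := by
  unfold modChk at h
  rw [Bool.and_eq_true, Bool.and_eq_true] at h
  have h5 := md_dec M d encl okf P hP (gn := 12886) (gd := 10000) hτ hδ (by norm_num) h.1 h.2.1 h.2.2 h4
  have e : (((12886 : ℤ) : ℝ) / ((10000 : ℤ) : ℝ)) = 12886 / 10000 := by norm_num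
  rw [e] at h5
  exact h5

end Pool.Agent.Helper37.CP
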