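import Pool.Agent.Helper37.CP.FI

/-! Names of the vertices, positions, enclosures. -/

set_option autoImplicit false

namespace Pool.Agent.Helper37.CP

/-- names of vertices -/
inductive Nm : Type
  | N (X Y l : ℤ)
  | V (l : ℤ)
  | W (l : ℤ)
  | T (X Y k l : ℤ)
  deriving DecidableEq

/-- shift by `d` levels -/
def Nm.sh (d : ℤ) : Nm → Nm
  | .N X Y l => .N X Y (l + d)
  | .V l => .V (l + d)
  | .W l => .W (l + d)
  | .T X Y k l => .T X Y k (l + d)

/-- incircle radius of the special piece (level frame) -/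
noncomputable def frr (a b : ℝ) : ℝ := 2 / 5 / (a + b)

/-- circumradius minus inradius, in units of the inradius -/
noncomputable def frS (a b : ℝ) : ℝ := ((b - a) ^ 2 + (a * b) ^ 2) / (4 * (a * b))

/-- direction of the tangency point -/
noncomputable def fru (a b : ℝ) : ℂ :=
  ⟨-((b - a) / 2) / frS a b, -(frS a b - a * b / 2) / frS a b⟩

/-- incentre (level frame) -/
noncomputable def frc (a b : ℝ) : ℂ := ⟨-1 + a * frr a b, frr a b⟩

/-- from the normalised frame (incentre `0`, inradius `1`, tangency point `1`) to the level frame -/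
noncomputable def frM (a b : ℝ) (z : ℂ) : ℂ := frc a b + ((frr a b : ℝ) : ℂ) * (fru a b * z)

/-- the upper half plane to the outside of the circle, in the normalised frame -/
noncomputable def mob (z : ℂ) : ℂ :=
  1 - Complex.I * (z / (1 + Complex.I * ((25 / 56 : ℝ) * z)))

/-- wall tops (height `h`, parameter `t`) -/
noncomputable def wal (h t : ℝ) : ℂ := ⟨-1 + h * ((1 / t - t) / 2), h⟩

/-- base points -/
noncomputable def bp (X Y : ℤ) : ℂ := ⟨(X : ℝ) / 10000000, (Y : ℝ) / 10000000⟩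

/-- parameters of the tower points -/
noncomputable def sq (k : ℤ) : ℝ := 2 / 5 * (2 / 3) ^ k

/-- positions (`τ`: wall parameters, `η`: wall heights) -/
noncomputable def pos (τ η : ℤ → ℝ) : Nm → ℂ
  | .N X Y l => (((3 / 5 : ℝ) ^ l : ℝ) : ℂ) * bp X Y
  | .V l => (((3 / 5 : ℝ) ^ l : ℝ) : ℂ) * (-1)
  | .W l => (((3 / 5 : ℝ) ^ l : ℝ) : ℂ) * wal (η l) (τ l)
  | .T X Y k l => (((3 / 5 : ℝ) ^ l : ℝ) : ℂ) *
      frM (1 / τ l) (τ (l + 1)) (mob (((sq k : ℝ) : ℂ) * bp X Y))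

theorem pos_sh (τ η τ' η' : ℤ → ℝ) (d : ℤ) (h : ∀ l, τ (l + d) = τ' l) (h' : ∀ l, η (l + d) = η' l)
    (n : Nm) : pos τ η (n.sh d) = (((3 / 5 : ℝ) ^ d : ℝ) : ℂ) * pos τ' η' n := by
  have e : ∀ l : ℤ, (((3 / 5 : ℝ) ^ (l + d) : ℝ) : ℂ) =
      (((3 / 5 : ℝ) ^ d : ℝ) : ℂ) * (((3 / 5 : ℝ) ^ l : ℝ) : ℂ) := by
    intro l
    rw [zpow_add₀ (by norm_num)]
    push_cast
    ring
  have h1 : ∀ l, τ (l + d + 1) = τ' (l + 1) := by
    intro l
    rw [← h (l + 1)]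
    congr 1
    ring
  cases n with
  | N X Y l =>
    show (((3 / 5 : ℝ) ^ (l + d) : ℝ) : ℂ) * _ = _ * ((((3 / 5 : ℝ) ^ l : ℝ) : ℂ) * _)
    rw [e, mul_assoc]
  | V l =>
    show (((3 / 5 : ℝ) ^ (l + d) : ℝ) : ℂ) * _ = _ * ((((3 / 5 : ℝ) ^ l : ℝ) : ℂ) * _)
    rw [e, mul_assoc]
  | W l =>
    show (((3 / 5 : ℝ) ^ (l + d) : ℝ) : ℂ) * wal (η (l + d)) (τ (l + d)) =
      _ * ((((3 / 5 : ℝ) ^ l : ℝ) : ℂ) * _)
    rw [e, mul_assoc, h, h']
  | T X Y k l =>
    show (((3 / 5 : ℝ) ^ (l + d) : ℝ) : ℂ) * frM (1 / τ (l + d)) (τ (l + d + 1)) _ =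
      _ * ((((3 / 5 : ℝ) ^ l : ℝ) : ℂ) * _)
    rw [e, mul_assoc, h, h1]

/-! ### enclosures -/

/-- `(a / b) ^ l` as a fraction -/
def zp (a b : ℕ) : ℤ → ℕ × ℕ
  | .ofNat k => (a ^ k, b ^ k)
  | .negSucc k => (b ^ (k + 1), a ^ (k + 1))

theorem zp_spec {a b : ℕ} (ha : 0 < a) (hb : 0 < b) (l : ℤ) :
    ((a : ℝ) / (b : ℝ)) ^ l = ((zp a b l).1 : ℝ) / ((zp a b l).2 : ℝ) ∧ 0 < (zp a b l).2 := by
  have ha' : (a : ℝ) ≠ 0 := by exact_mod_cast ha.ne'
  have hb' : (b : ℝ) ≠ 0 := by exact_mod_cast hb.ne'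
  cases l with
  | ofNat k =>
    refine ⟨?_, pow_pos hb k⟩
    show ((a : ℝ) / (b : ℝ)) ^ (k : ℤ) = _
    rw [zpow_natCast, div_pow]
    simp only [zp]
    push_cast
    rfl
  | negSucc k =>
    refine ⟨?_, pow_pos ha (k + 1)⟩
    rw [zpow_negSucc, div_pow, inv_div]
    simp only [zp]
    push_cast
    rfl

/-- enclosure of `(3 / 5) ^ l` -/
def rI (l : ℤ) : FI := FI.rat ((zp 3 5 l).1 : ℤ) ((zp 3 5 l).2 : ℤ)

theorem rI_mem (l : ℤ) : (rI l).mem ((3 / 5 : ℝ) ^ l) := by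
  have h := zp_spec (a := 3) (b := 5) (by norm_num) (by norm_num) l
  have e : (3 / 5 : ℝ) ^ l = ((((zp 3 5 l).1 : ℕ) : ℤ) : ℝ) / ((((zp 3 5 l).2 : ℕ) : ℤ) : ℝ) := by
    push_cast
    exact_mod_cast h.1
  rw [e]
  exact FI.rat_mem _ (by exact_mod_cast h.2)

/-- enclosure of `(n / d) * (X + i Y) / 10 ^ 7` -/
def bI (n d : ℕ) (X Y : ℤ) : CI :=
  ⟨FI.rat ((n : ℤ) * X) ((d : ℤ) * 10000000), FI.rat ((n : ℤ) * Y) ((d : ℤ) * 10000000)⟩

theorem bI_mem {n d : ℕ} (hd : 0 < d) (X Y : ℤ) {c : ℝ} (hc : c = (n : ℝ) / (d : ℝ)) :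
    (bI n d X Y).mem (((c : ℝ) : ℂ) * bp X Y) := by
  have hd' : (d : ℝ) ≠ 0 := by exact_mod_cast hd.ne'
  have hd2 : (0 : ℤ) < (d : ℤ) * 10000000 := by positivity
  constructor
  · have h := FI.rat_mem ((n : ℤ) * X) hd2
    have e : (((c : ℝ) : ℂ) * bp X Y).re = (((n : ℤ) * X : ℤ) : ℝ) / (((d : ℤ) * 10000000 : ℤ) : ℝ) := by
      rw [hc]
      simp only [bp, Complex.mul_re, Complex.ofReal_re, Complex.ofReal_im, zero_mul, sub_zero]
      push_cast
      field_simp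
    rw [e]
    exact h
  · have h := FI.rat_mem ((n : ℤ) * Y) hd2
    have e : (((c : ℝ) : ℂ) * bp X Y).im = (((n : ℤ) * Y : ℤ) : ℝ) / (((d : ℤ) * 10000000 : ℤ) : ℝ) := by
      rw [hc]
      simp only [bp, Complex.mul_im, Complex.ofReal_re, Complex.ofReal_im, zero_mul, add_zero]
      push_cast
      field_simp
    rw [e]
    exact h

/-- the denominator of the Moebius map -/
def mden (z : CI) : CI :=
  ⟨(FI.rat 1 1).sub ((FI.rat 25 56).mul z.im), (FI.rat 25 56).mul z.re⟩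

theorem one_mem : (FI.rat 1 1).mem 1 := by
  have h := FI.rat_mem 1 (d := 1) (by norm_num)
  simpa using h

theorem mden_mem {z : CI} {w : ℂ} (h : z.mem w) :
    (mden z).mem (1 + Complex.I * ((25 / 56 : ℝ) * w)) := by
  have hb : (FI.rat 25 56).mem (25 / 56) := by
    have h := FI.rat_mem 25 (d := 56) (by norm_num)
    simpa using h
  constructor
  · have e : (1 + Complex.I * ((25 / 56 : ℝ) * w)).re = 1 - 25 / 56 * w.im := by
      simp
      ring
    rw [e]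
    exact FI.sub_mem one_mem (FI.mul_mem hb h.2)
  · have e : (1 + Complex.I * ((25 / 56 : ℝ) * w)).im = 25 / 56 * w.re := by
      simp
      try ring
    rw [e]
    exact FI.mul_mem hb h.1

/-- the Moebius map -/
def mobI (z : CI) : CI :=
  let w := z.mul (mden z).inv
  ⟨(FI.rat 1 1).add w.im, w.re.neg⟩

theorem mobI_mem {z : CI} {w : ℂ} (h : z.mem w) (h0 : 0 < (mden z).nsq.lo) :
    (mobI z).mem (mob w) := by
  have h1 := CI.mul_mem h (CI.inv_mem (mden_mem h) h0)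
  rw [← div_eq_mul_inv] at h1
  unfold mob
  constructor
  · have e : (1 - Complex.I * (w / (1 + Complex.I * ((25 / 56 : ℝ) * w)))).re =
        1 + (w / (1 + Complex.I * ((25 / 56 : ℝ) * w))).im := by
      rw [Complex.sub_re, Complex.I_mul_re, Complex.one_re]
      ring
    rw [e]
    exact FI.add_mem one_mem h1.2
  · have e : (1 - Complex.I * (w / (1 + Complex.I * ((25 / 56 : ℝ) * w)))).im =
        -(w / (1 + Complex.I * ((25 / 56 : ℝ) * w))).re := by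
      rw [Complex.sub_im, Complex.I_mul_im, Complex.one_im]
      ring
    rw [e]
    exact FI.neg_mem h1.1

/-- data of an environment: enclosures of the wall parameters and of the frames -/
structure Env : Type where
  t : ℤ → FI
  h : ℤ → FI
  c : ℤ → CI
  u : ℤ → CI

/-- soundness of an environment on a finite set of levels -/
structure Env.Ok (E : Env) (τ η : ℤ → ℝ) (Lw Lt : List ℤ) : Prop where
  w : ∀ l ∈ Lw, (E.t l).mem (τ l) ∧ 0 < (E.t l).lo
  h : ∀ l ∈ Lw, (E.h l).mem (η l)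
  c : ∀ l ∈ Lt, (E.c l).mem (frc (1 / τ l) (τ (l + 1)))
  u : ∀ l ∈ Lt, (E.u l).mem (((frr (1 / τ l) (τ (l + 1)) : ℝ) : ℂ) * fru (1 / τ l) (τ (l + 1)))

/-- enclosure of a wall top -/
def walI (h t : FI) : CI :=
  ⟨(FI.rat (-1) 1).add (h.mul ((FI.rat 1 2).mul (t.inv.sub t))), h⟩

theorem walI_mem {H I : FI} {h t : ℝ} (hh : H.mem h) (ht : I.mem t) (h0 : 0 < I.lo) :
    (walI H I).mem (wal h t) := by
  have e1 : (FI.rat (-1) 1).mem (-1) := by
    have h := FI.rat_mem (-1) (d := 1) (by norm_num)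
    simpa using h
  have e2 : (FI.rat 1 2).mem (1 / 2) := by
    have h := FI.rat_mem 1 (d := 2) (by norm_num)
    simpa using h
  constructor
  · have e : (wal h t).re = -1 + h * (1 / 2 * (t⁻¹ - t)) := by
      unfold wal
      simp only
      ring
    rw [e]
    exact FI.add_mem e1 (FI.mul_mem hh (FI.mul_mem e2 (FI.sub_mem (FI.inv_mem ht h0) ht)))
  · exact hh

/-- enclosure of a position -/
def Env.pos (E : Env) : Nm → CI
  | .N X Y l => bI (zp 3 5 l).1 (zp 3 5 l).2 X Y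
  | .V l => CI.smul (rI l) ⟨FI.rat (-1) 1, FI.rat 0 1⟩
  | .W l => CI.smul (rI l) (walI (E.h l) (E.t l))
  | .T X Y k l => CI.smul (rI l) ((E.c l).add ((E.u l).mul
      (mobI (bI (2 * (zp 2 3 k).1) (5 * (zp 2 3 k).2) X Y))))

/-- side conditions -/
def Nm.ok (Lw Lt : List ℤ) : Nm → Bool
  | .N _ _ _ => true
  | .V _ => true
  | .W l => Lw.contains l
  | .T X Y k l => Lt.contains l && decide (0 < (mden (bI (2 * (zp 2 3 k).1) (5 * (zp 2 3 k).2) X Y)).nsq.lo)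

theorem zp35 (l : ℤ) : (3 / 5 : ℝ) ^ l = ((zp 3 5 l).1 : ℝ) / ((zp 3 5 l).2 : ℝ) ∧ 0 < (zp 3 5 l).2 := by
  have h := zp_spec (a := 3) (b := 5) (by norm_num) (by norm_num) l
  exact ⟨by exact_mod_cast h.1, h.2⟩

theorem zp23 (l : ℤ) : (2 / 3 : ℝ) ^ l = ((zp 2 3 l).1 : ℝ) / ((zp 2 3 l).2 : ℝ) ∧ 0 < (zp 2 3 l).2 := by
  have h := zp_spec (a := 2) (b := 3) (by norm_num) (by norm_num) l
  exact ⟨by exact_mod_cast h.1, h.2⟩

theorem sq_frac (k : ℤ) : sq k = ((2 * (zp 2 3 k).1 : ℕ) : ℝ) / ((5 * (zp 2 3 k).2 : ℕ) : ℝ) := by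
  unfold sq
  rw [(zp23 k).1]
  push_cast
  rw [div_mul_div_comm]

theorem Env.pos_mem {E : Env} {τ η : ℤ → ℝ} {Lw Lt : List ℤ} (h : E.Ok τ η Lw Lt) {n : Nm}
    (hn : n.ok Lw Lt = true) : (E.pos n).mem (CP.pos τ η n) := by
  cases n with
  | N X Y l => exact bI_mem (zp35 l).2 X Y (zp35 l).1
  | V l =>
    refine CI.smul_mem (rI_mem l) ⟨?_, ?_⟩
    · have h := FI.rat_mem (-1) (d := 1) (by norm_num)
      simpa using h
    · have h := FI.rat_mem 0 (d := 1) (by norm_num)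
      simpa using h
  | W l =>
    have hl : l ∈ Lw := by simpa [Nm.ok] using hn
    obtain ⟨h1, h2⟩ := h.w l hl
    exact CI.smul_mem (rI_mem l) (walI_mem (h.h l hl) h1 h2)
  | T X Y k l =>
    simp only [Nm.ok, Bool.and_eq_true, decide_eq_true_eq] at hn
    have hl : l ∈ Lt := by simpa using hn.1
    refine CI.smul_mem (rI_mem l) ?_
    unfold frM
    rw [← mul_assoc]
    refine CI.add_mem (h.c l hl) (CI.mul_mem (h.u l hl) ?_)
    exact mobI_mem (bI_mem (by have := (zp23 k).2; positivity) X Y (sq_frac k)) hn.2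

end Pool.Agent.Helper37.CP
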