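import Pool.Agent.Helper37.CP.Data.Core

/-! Names of the outer part. -/

set_option autoImplicit false

namespace Pool.Agent.Helper37.CP

open Metric Set

/-- names of the vertices of the outer part -/
inductive OE : Type
  | N (X Y : ℤ) (r : ℕ)
  | K (r : ℕ)
  | H (r s : ℕ) (n : Nm)
  deriving DecidableEq

/-- rotation by `r` quarter turns -/
noncomputable def rot (r : ℕ) (z : ℂ) : ℂ := Complex.I ^ r * z

/-- placement of a half disc: `s = 0` direct, `s = 1` mirrored -/
noncomputable def plc (s : ℕ) (x : ℂ) : ℂ :=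
  if s = 0 then ⟨-1817 / 1000 + x.re, -33 / 10 + x.im⟩ else ⟨1817 / 1000 - x.re, -33 / 10 + x.im⟩

/-- positions -/
noncomputable def opos (x : Nm → ℂ) : OE → ℂ
  | .N X Y r => rot r (bp X Y)
  | .K r => rot r ⟨-33 / 10, -33 / 10⟩
  | .H r s n => rot r (plc s (x n))

/-- rotation of an enclosure -/
def rotI : ℕ → CI → CI
  | 0, I => I
  | r + 1, I => ⟨(rotI r I).im.neg, (rotI r I).re⟩

theorem rotI_mem {I : CI} {z : ℂ} (h : I.mem z) : ∀ r : ℕ, (rotI r I).mem (rot r z) := by
  intro r
  induction r with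
  | zero =>
    unfold rot rotI
    simpa using h
  | succ r ih =>
    have e : rot (r + 1) z = Complex.I * rot r z := by
      unfold rot
      rw [pow_succ]
      ring
    rw [e]
    constructor
    · rw [Complex.I_mul_re]
      exact FI.neg_mem ih.2
    · rw [Complex.I_mul_im]
      exact ih.1

/-- placement of an enclosure -/
def plcI (s : ℕ) (I : CI) : CI :=
  if s = 0 then ⟨(FI.rat (-1817) 1000).add I.re, (FI.rat (-33) 10).add I.im⟩
  else ⟨(FI.rat 1817 1000).sub I.re, (FI.rat (-33) 10).add I.im⟩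

theorem plcI_mem {I : CI} {z : ℂ} (h : I.mem z) (s : ℕ) : (plcI s I).mem (plc s z) := by
  have e1 : (FI.rat (-1817) 1000).mem (-1817 / 1000) := by
    have h := FI.rat_mem (-1817) (d := 1000) (by norm_num)
    simpa using h
  have e2 : (FI.rat 1817 1000).mem (1817 / 1000) := by
    have h := FI.rat_mem 1817 (d := 1000) (by norm_num)
    simpa using h
  have e3 : (FI.rat (-33) 10).mem (-33 / 10) := by
    have h := FI.rat_mem (-33) (d := 10) (by norm_num)
    simpa using h
  unfold plcI plc
  by_cases hs : s = 0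
  · rw [if_pos hs, if_pos hs]
    exact ⟨FI.add_mem e1 h.1, FI.add_mem e3 h.2⟩
  · rw [if_neg hs, if_neg hs]
    exact ⟨FI.sub_mem e2 h.1, FI.add_mem e3 h.2⟩

/-- enclosures -/
def oEnc (E : Nm → CI) : OE → CI
  | .N X Y r => rotI r (bI 1 1 X Y)
  | .K r => rotI r ⟨FI.rat (-33) 10, FI.rat (-33) 10⟩
  | .H r s n => rotI r (plcI s (E n))

/-- side conditions -/
def oOk (P : Nm → Bool) : OE → Bool
  | .N _ _ _ => true
  | .K _ => true
  | .H _ _ n => P n

theorem oEnc_mem {E : Nm → CI} {P : Nm → Bool} {x : Nm → ℂ} (h : ∀ n, P n = true → (E n).mem (x n))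
    (v : OE) (hv : oOk P v = true) : (oEnc E v).mem (opos x v) := by
  have e3 : (FI.rat (-33) 10).mem (-33 / 10) := by
    have h := FI.rat_mem (-33) (d := 10) (by norm_num)
    simpa using h
  cases v with
  | N X Y r =>
    refine rotI_mem ?_ r
    have h := bI_mem (n := 1) (d := 1) (by norm_num) X Y (c := 1) (by norm_num)
    simpa using h
  | K r => exact rotI_mem ⟨e3, e3⟩ r
  | H r s n => exact rotI_mem (plcI_mem (h n hv) s) r

/-- the environment of the outer part -/
def outEnv : Env :=
  ⟨fun _ => tBox 5, fun _ => FI.rat 91 250, fun _ => coreC, fun _ => coreU⟩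

/-- boundary paths of one side -/
def sidePs (mid : List OE) (r r' : ℕ) : List (List OE) :=
  [[.K r, .H r 0 (.V 0)], itf.map (OE.H r 0), mid, (itf.map (OE.H r 1)).reverse,
    [.H r 1 (.V 0), .K r']]

/-- names of a corner piece -/
def cornN (r r' : ℕ) : List OE :=
  [.H r' 1 (.V 0), .K r, .H r 0 (.V 0), .H r 0 (.W 0), .N 28759993 (-27714343) r',
    .N 28266135 (-28181135) r', .N 27749920 (-28737645) r', .H r' 1 (.W 0)]

end Pool.Agent.Helper37.CP
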