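import Pool.Agent.Helper37.CP.Low3

/-! Partition lemma: crossing numbers. -/

namespace Pool.Agent.Helper37.CP

open Metric Set Filter Topology

/-- twice the signed area of the triangle `p q x` -/
def cr (p q x : ℂ) : ℝ := (q.re - p.re) * (x.im - p.im) - (q.im - p.im) * (x.re - p.re)

open Classical in
/-- signed crossing number of the horizontal ray from `x` to the right with the segment `[p, q]` -/
noncomputable def N (p q x : ℂ) : ℤ :=
  (if p.im < x.im ∧ x.im < q.im ∧ 0 < cr p q x then 1 else 0) -
    (if q.im < x.im ∧ x.im < p.im ∧ 0 < cr q p x then 1 else 0)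

lemma N_neg (p q x : ℂ) : N q p x = -N p q x := by
  unfold N; ring

lemma cr_sum (p q r x : ℂ) : cr p q x + cr q r x + cr r p x = cr p q r := by
  unfold cr; ring

lemma cr_bary (p q r x : ℂ) :
    cr q r x * (p.im - x.im) + cr r p x * (q.im - x.im) + cr p q x * (r.im - x.im) = 0 := by
  unfold cr; ring

lemma cr_swap (p q x : ℂ) : cr q p x = -cr p q x := by
  unfold cr; ring

open Classical in
/-- indicator of the open triangle -/
noncomputable def tri (p q r x : ℂ) : ℤ :=
  if 0 < cr p q x ∧ 0 < cr q r x ∧ 0 < cr r p x then 1 else 0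

lemma tri_id {p q r x : ℂ} (h : 0 ≤ cr p q r) (hp : x.im ≠ p.im) (hq : x.im ≠ q.im)
    (hr : x.im ≠ r.im) (h1 : cr p q x ≠ 0) (h2 : cr q r x ≠ 0) (h3 : cr r p x ≠ 0) :
    N p q x + N q r x + N r p x = tri p q r x := by
  have hs := cr_sum p q r x
  have hb := cr_bary p q r x
  unfold N tri
  rw [cr_swap p q, cr_swap q r, cr_swap r p]
  generalize cr p q x = A at *
  generalize cr q r x = B at *
  generalize cr r p x = C at *
  generalize cr p q r = D at *
  rcases lt_or_gt_of_ne hp with hp | hp <;> rcases lt_or_gt_of_ne hq with hq | hq <;>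
    rcases lt_or_gt_of_ne hr with hr | hr <;> rcases lt_or_gt_of_ne h1 with h1 | h1 <;>
    rcases lt_or_gt_of_ne h2 with h2 | h2 <;> rcases lt_or_gt_of_ne h3 with h3 | h3 <;>
    simp only [hp, hq, hr, h1, h2, h3, not_lt_of_gt, and_true, and_false, if_true, if_false,
      true_and, false_and, neg_pos, sub_zero, zero_sub, sub_self, add_zero, zero_add,
      if_pos, if_neg, not_false_eq_true] <;>
    first
    | rfl
    | (exfalso; nlinarith)
    | skip

/-- crossing number of an open path -/
noncomputable def pth : List ℂ → ℂ → ℤ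
  | a :: b :: l, x => N a b x + pth (b :: l) x
  | _, _ => 0

@[simp] lemma pth_nil (x : ℂ) : pth [] x = 0 := rfl
@[simp] lemma pth_single (a x : ℂ) : pth [a] x = 0 := rfl
@[simp] lemma pth_cons (a b : ℂ) (l : List ℂ) (x : ℂ) :
    pth (a :: b :: l) x = N a b x + pth (b :: l) x := rfl

/-- crossing number of a closed polygon -/
noncomputable def bd : List ℂ → ℂ → ℤ
  | a :: l, x => pth (a :: (l ++ [a])) x
  | [], _ => 0

/-- number of fan triangles containing a point -/
noncomputable def fan (a : ℂ) : List ℂ → ℂ → ℤ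
  | b :: c :: l, x => tri a b c x + fan a (c :: l) x
  | _, _ => 0

@[simp] lemma fan_nil (a x : ℂ) : fan a [] x = 0 := rfl
@[simp] lemma fan_single (a b x : ℂ) : fan a [b] x = 0 := rfl
@[simp] lemma fan_cons (a b c : ℂ) (l : List ℂ) (x : ℂ) :
    fan a (b :: c :: l) x = tri a b c x + fan a (c :: l) x := rfl

lemma tri_nonneg (p q r x : ℂ) : 0 ≤ tri p q r x := by
  unfold tri
  split_ifs <;> norm_num

lemma fan_nonneg (a : ℂ) (l : List ℂ) (x : ℂ) : 0 ≤ fan a l x := by
  induction l with
  | nil => simp
  | cons b l ih =>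
    cases l with
    | nil => simp
    | cons c l =>
      rw [fan_cons]
      have := tri_nonneg a b c x
      linarith

/-- generic points with respect to a set of vertices -/
def Gen (V : Set ℂ) (x : ℂ) : Prop :=
  (∀ v ∈ V, x.im ≠ v.im) ∧ ∀ v ∈ V, ∀ w ∈ V, v ≠ w → cr v w x ≠ 0

lemma tri_id' {V : Set ℂ} {p q r x : ℂ} (hx : Gen V x) (hp : p ∈ V) (hq : q ∈ V) (hr : r ∈ V)
    (hpq : p ≠ q) (hqr : q ≠ r) (hrp : r ≠ p) (h : 0 ≤ cr p q r) :
    N p q x + N q r x + N r p x = tri p q r x :=
  tri_id h (hx.1 p hp) (hx.1 q hq) (hx.1 r hr) (hx.2 p hp q hq hpq) (hx.2 q hq r hr hqr)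
    (hx.2 r hr p hp hrp)

lemma pth_append (a : ℂ) (l l' : List ℂ) (b x : ℂ) :
    pth (a :: (l ++ b :: l')) x = pth (a :: (l ++ [b])) x + pth (b :: l') x := by
  induction l generalizing a with
  | nil => simp
  | cons c l ih =>
    simp only [List.cons_append, pth_cons]
    rw [ih c]
    ring

/-- fan triangulation -/
lemma fan_id {V : Set ℂ} {a x : ℂ} (hx : Gen V x) (ha : a ∈ V) (l : List ℂ) (hl : ∀ v ∈ l, v ∈ V)
    (hnd : (a :: l).Nodup) (hor : ∀ i (h : i + 1 < l.length), 0 ≤ cr a l[i] l[i + 1]) (b : ℂ)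
    (hb : l = b :: l.tail) : N a b x + pth (l ++ [a]) x = fan a l x := by
  induction l generalizing b with
  | nil => simp at hb
  | cons c l ih =>
    have hbc : b = c := by
      rw [List.cons_eq_cons] at hb
      exact hb.1.symm
    subst hbc
    cases l with
    | nil =>
      simp only [List.cons_append, List.nil_append, pth_cons, pth_single, fan_single]
      rw [N_neg a b]
      ring
    | cons d l =>
      have h1 := ih (fun v hv => hl v (List.mem_cons_of_mem _ hv)) (by
          rw [List.nodup_cons] at hnd ⊢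
          refine ⟨fun h => hnd.1 (List.mem_cons_of_mem _ h), ?_⟩
          exact (List.nodup_cons.1 hnd.2).2) (by
          intro i hi
          exact hor (i + 1) (by simpa using hi)) d rfl
      simp only [List.cons_append, pth_cons, fan_cons] at h1 ⊢
      rw [← h1]
      have h2 := tri_id' (p := a) (q := b) (r := d) hx ha (hl b (by simp)) (hl d (by simp))
        (by rintro rfl; simp at hnd) (by rintro rfl; simp at hnd) (by rintro rfl; simp at hnd)
        (hor 0 (by simp))
      rw [← h2, N_neg a d]
      ring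

end Pool.Agent.Helper37.CP
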