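import Pool.Agent.Helper37.CP.Part

/-! Partition lemma, second part. -/

namespace Pool.Agent.Helper37.CP

open Metric Set Filter Topology

/-- cyclic edges of a polygon -/
def edges (L : List ℂ) : List (ℂ × ℂ) := L.zip (L.tail ++ L.take 1)

/-- the intersection of the half planes -/
def HP (L : List ℂ) : Set ℂ := {x | ∀ e ∈ edges L, 0 ≤ cr e.1 e.2 x}

/-- the vertices as a set -/
def vs (L : List ℂ) : Set ℂ := {v | v ∈ L}

/-- convex polygons, given by the cyclic list of their vertices -/
structure Ok (L : List ℂ) : Prop where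
  nodup : L.Nodup
  conv : ∀ e ∈ edges L, ∀ v ∈ L, 0 ≤ cr e.1 e.2 v
  inner : ∃ c : ℂ, ∀ e ∈ edges L, 0 < cr e.1 e.2 c
  ne : L ≠ []

lemma cr_cont (p q : ℂ) : Continuous (cr p q) := by
  unfold cr
  have h1 : Continuous Complex.re := Complex.continuous_re
  have h2 : Continuous Complex.im := Complex.continuous_im
  fun_prop

lemma cr_aff (p q x y : ℂ) {a b : ℝ} (hab : a + b = 1) :
    cr p q (a • x + b • y) = a * cr p q x + b * cr p q y := by
  unfold cr
  simp only [Complex.add_re, Complex.add_im, Complex.real_smul, Complex.mul_re, Complex.mul_im,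
    Complex.ofReal_re, Complex.ofReal_im, zero_mul, sub_zero, add_zero]
  linear_combination (-(q.re - p.re) * p.im + (q.im - p.im) * p.re) * (1 - hab)

lemma cr_cyc (p q r : ℂ) : cr p q r = cr q r p := by
  unfold cr; ring

lemma vs_finite (L : List ℂ) : (vs L).Finite := List.finite_toSet L

lemma HP_convex (L : List ℂ) : Convex ℝ (HP L) := by
  intro x hx y hy a b ha hb hab e he
  rw [cr_aff _ _ _ _ hab]
  have h1 := hx e he
  have h2 := hy e he
  positivity

lemma HP_closed (L : List ℂ) : IsClosed (HP L) := by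
  have : HP L = ⋂ e ∈ {e | e ∈ edges L}, {x | 0 ≤ cr e.1 e.2 x} := by
    ext x; simp [HP]
  rw [this]
  exact isClosed_biInter fun e _ => isClosed_le continuous_const (cr_cont _ _)

lemma hull_sub {L : List ℂ} (h : Ok L) : convexHull ℝ (vs L) ⊆ HP L :=
  convexHull_min (fun v hv e he => h.conv e he v hv) (HP_convex L)

lemma tri_eq_one {p q r x : ℂ} (h : tri p q r x ≠ 0) :
    0 < cr p q x ∧ 0 < cr q r x ∧ 0 < cr r p x := by
  unfold tri at h
  by_contra hcon
  rw [if_neg hcon] at h
  exact h rfl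

lemma tri_mem {p q r x : ℂ} (h : tri p q r x ≠ 0) {K : Set ℂ} (hK : Convex ℝ K) (hp : p ∈ K)
    (hq : q ∈ K) (hr : r ∈ K) : x ∈ K := by
  obtain ⟨h1, h2, h3⟩ := tri_eq_one h
  have hD : 0 < cr p q x + cr q r x + cr r p x := by linarith
  set D := cr p q x + cr q r x + cr r p x with hDdef
  have e : x = (cr q r x / D) • p + (cr r p x / D) • q + (cr p q x / D) • r := by
    have hre : x.re * D = cr q r x * p.re + cr r p x * q.re + cr p q x * r.re := by
      rw [hDdef]; unfold cr; ring
    have him : x.im * D = cr q r x * p.im + cr r p x * q.im + cr p q x * r.im := by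
      rw [hDdef]; unfold cr; ring
    apply Complex.ext
    · simp only [Complex.add_re, Complex.real_smul, Complex.mul_re, Complex.ofReal_re,
        Complex.ofReal_im, zero_mul, sub_zero]
      field_simp
      linarith
    · simp only [Complex.add_im, Complex.real_smul, Complex.mul_im, Complex.ofReal_re,
        Complex.ofReal_im, zero_mul, add_zero]
      field_simp
      linarith
  have hsum : cr q r x / D + cr r p x / D + cr p q x / D = 1 := by
    rw [← add_div, ← add_div]
    rw [div_eq_one_iff_eq hD.ne']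
    rw [hDdef]; ring
  have h4 := hK.sum_mem (t := (Finset.univ : Finset (Fin 3)))
    (w := ![cr q r x / D, cr r p x / D, cr p q x / D]) (z := ![p, q, r])
    (by
      intro i _
      fin_cases i
      · exact (div_pos h2 hD).le
      · exact (div_pos h3 hD).le
      · exact (div_pos h1 hD).le)
    (by simp [Fin.sum_univ_three, hsum])
    (by
      intro i _
      fin_cases i
      · exact hp
      · exact hq
      · exact hr)
  rw [Fin.sum_univ_three] at h4
  rw [e]
  exact h4

lemma fan_mem {a x : ℂ} {l : List ℂ} (h : fan a l x ≠ 0) {K : Set ℂ} (hK : Convex ℝ K)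
    (ha : a ∈ K) (hl : ∀ v ∈ l, v ∈ K) : x ∈ K := by
  induction l with
  | nil => simp at h
  | cons b l ih =>
    cases l with
    | nil => simp at h
    | cons c l =>
      rw [fan_cons] at h
      by_cases h1 : tri a b c x = 0
      · rw [h1, zero_add] at h
        exact ih h (fun v hv => hl v (List.mem_cons_of_mem _ hv))
      · exact tri_mem h1 hK ha (hl b (by simp)) (hl c (by simp))

/-- discrete intermediate value argument -/
lemma fan_pos {a x : ℂ} {V : Set ℂ} (hx : Gen V x) (ha : a ∈ V) (l : List ℂ) (b : ℂ)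
    (hl : ∀ v ∈ b :: l, v ∈ V ∧ v ≠ a) (h1 : 0 < cr a b x)
    (h2 : 0 < cr ((b :: l).getLast (by simp)) a x)
    (h3 : ∀ i (h : i + 1 < (b :: l).length), 0 < cr (b :: l)[i] (b :: l)[i + 1] x) :
    1 ≤ fan a (b :: l) x := by
  induction l generalizing b with
  | nil =>
    simp only [List.getLast_singleton] at h2
    rw [cr_swap] at h2
    linarith
  | cons c l ih =>
    rw [fan_cons]
    have h4 : 0 < cr b c x := h3 0 (by simp)
    have hc := hl c (by simp)
    rcases lt_or_gt_of_ne (hx.2 c hc.1 a ha hc.2) with h5 | h5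
    · have := ih c (fun v hv => hl v (List.mem_cons_of_mem _ hv)) (by rw [cr_swap]; linarith)
        (by simpa using h2) (by
          intro i hi
          exact h3 (i + 1) (by simpa using hi))
      have h6 := tri_nonneg a b c x
      linarith
    · have h6 : tri a b c x = 1 := by
        unfold tri
        rw [if_pos ⟨h1, h4, h5⟩]
      have h7 := fan_nonneg a (c :: l) x
      linarith

lemma edges_cons (a : ℂ) (l : List ℂ) : edges (a :: l) = (a :: l).zip (l ++ [a]) := rfl

lemma edge_first (a b : ℂ) (l : List ℂ) : (a, b) ∈ edges (a :: b :: l) := by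
  rw [edges_cons]; simp

lemma edge_last (a b : ℂ) (l : List ℂ) :
    ((b :: l).getLast (by simp), a) ∈ edges (a :: b :: l) := by
  rw [edges_cons]
  have h1 : (a :: b :: l) = (a :: (b :: l).dropLast) ++ [(b :: l).getLast (by simp)] := by
    rw [List.cons_append, List.dropLast_append_getLast]
  have h2 : (a :: (b :: l).dropLast).length = (b :: l).length := by simp
  rw [h1, List.zip_append h2]
  simp

lemma edge_mid (a : ℂ) (l : List ℂ) (i : ℕ) (hi : i + 1 < l.length) :
    (l[i], l[i + 1]) ∈ edges (a :: l) := by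
  rw [edges_cons]
  rw [List.mem_iff_getElem]
  refine ⟨i + 1, by simp; omega, ?_⟩
  rw [List.getElem_zip]
  ext1
  · simp
  · simp only
    rw [List.getElem_append_left]

/-- the crossing number of a convex polygon at a generic point -/
lemma bd_fan {L : List ℂ} (h : Ok L) {V : Set ℂ} {x : ℂ} (hx : Gen V x) (hV : ∀ v ∈ L, v ∈ V) :
    0 ≤ bd L x ∧ (bd L x ≠ 0 → x ∈ convexHull ℝ (vs L)) ∧ (x ∈ HP L → 1 ≤ bd L x) := by
  obtain ⟨hnd, hconv, hin, hne⟩ := h
  rcases L with _ | ⟨a, l⟩
  · exact absurd rfl hne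
  rcases l with _ | ⟨b, l⟩
  · exfalso
    obtain ⟨c, hc⟩ := hin
    have := hc (a, a) (by simp [edges])
    unfold cr at this
    simp at this
  have hid : bd (a :: b :: l) x = fan a (b :: l) x := by
    have := fan_id hx (hV a (by simp)) (b :: l) (fun v hv => hV v (List.mem_cons_of_mem _ hv)) hnd
      (by
        intro i hi
        rw [cr_cyc]
        exact hconv _ (edge_mid a (b :: l) i hi) a (by simp)) b rfl
    rw [← this]
    rfl
  rw [hid]
  refine ⟨fan_nonneg _ _ _, ?_, ?_⟩
  · intro h
    exact fan_mem h (convex_convexHull ℝ _) (subset_convexHull ℝ _ (by simp [vs]))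
      (fun v hv => subset_convexHull ℝ _ (by simp only [vs, mem_setOf_eq]; exact List.mem_cons_of_mem _ hv))
  · intro h
    have hpos : ∀ e ∈ edges (a :: b :: l), e.1 ≠ e.2 → e.1 ∈ V → e.2 ∈ V → 0 < cr e.1 e.2 x := by
      intro e he hne h1 h2
      exact lt_of_le_of_ne (h e he) (Ne.symm (hx.2 _ h1 _ h2 hne))
    rw [List.nodup_cons] at hnd
    apply fan_pos hx (hV a (by simp))
    · intro v hv
      exact ⟨hV v (List.mem_cons_of_mem _ hv), fun h => hnd.1 (h ▸ hv)⟩
    · refine hpos _ (edge_first a b l) ?_ (hV a (by simp)) (hV b (by simp))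
      simp only
      rintro rfl
      exact hnd.1 (by simp)
    · refine hpos _ (edge_last a b l) ?_ (hV _ (List.mem_cons_of_mem _ (List.getLast_mem _)))
        (hV a (by simp))
      simp only
      intro h1
      have h2 := List.getLast_mem (l := b :: l) (by simp)
      rw [h1] at h2
      exact hnd.1 h2
    · intro i hi
      refine hpos _ (edge_mid a (b :: l) i hi) ?_ (hV _ (List.mem_cons_of_mem _ (List.getElem_mem _)))
        (hV _ (List.mem_cons_of_mem _ (List.getElem_mem _)))
      simp only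
      intro h1
      have := (hnd.2.getElem_inj_iff).1 h1
      omega

/-! ### generic points are dense -/

lemma dense_ne {f : ℂ → ℝ} {d : ℂ} {k : ℝ} (hk : k ≠ 0)
    (h : ∀ (x : ℂ) (t : ℝ), f (x + t • d) = f x + t * k) : Dense {x | f x ≠ 0} := by
  intro x
  by_cases h0 : f x = 0
  · have ht : Tendsto (fun n : ℕ => x + ((1 : ℝ) / ((n : ℝ) + 1)) • d) atTop (𝓝 (x + (0 : ℝ) • d)) :=
      tendsto_const_nhds.add (tendsto_one_div_add_atTop_nhds_zero_nat.smul_const d)
    rw [zero_smul, add_zero] at ht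
    refine mem_closure_of_tendsto ht (Eventually.of_forall fun n => ?_)
    show f _ ≠ 0
    rw [h, h0, zero_add]
    positivity
  · exact subset_closure h0

lemma dense_im (c : ℝ) : Dense {x : ℂ | x.im ≠ c} := by
  have := dense_ne (f := fun x : ℂ => x.im - c) (d := Complex.I) (k := 1) one_ne_zero (by
    intro x t
    simp
    ring)
  simpa [sub_ne_zero] using this

lemma dense_cr {p q : ℂ} (h : p ≠ q) : Dense {x : ℂ | cr p q x ≠ 0} := by
  have hk : (q.re - p.re) ^ 2 + (q.im - p.im) ^ 2 ≠ 0 := by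
    intro h0
    apply h
    have h1 : q.re - p.re = 0 := by nlinarith [sq_nonneg (q.re - p.re), sq_nonneg (q.im - p.im)]
    have h2 : q.im - p.im = 0 := by nlinarith [sq_nonneg (q.re - p.re), sq_nonneg (q.im - p.im)]
    apply Complex.ext <;> linarith
  refine dense_ne (f := cr p q) (d := ⟨-(q.im - p.im), q.re - p.re⟩) hk ?_
  intro x t
  unfold cr
  simp
  ring

lemma dense_gen {V : Set ℂ} (hV : V.Finite) : Dense {x | Gen V x} := by
  have h1 : Dense (⋂ v ∈ V, {x : ℂ | x.im ≠ v.im}) :=
    dense_biInter_of_isOpen (fun v _ => (isClosed_eq Complex.continuous_im continuous_const).isOpen_compl)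
      hV.countable (fun v _ => dense_im _)
  have h2 : Dense (⋂ e ∈ V.offDiag, {x : ℂ | cr e.1 e.2 x ≠ 0}) :=
    dense_biInter_of_isOpen (fun e _ => (isClosed_eq (cr_cont _ _) continuous_const).isOpen_compl)
      (hV.countable.prod hV.countable |>.mono (by
        rintro ⟨a, b⟩ h
        exact ⟨h.1, h.2.1⟩)) (fun e he => dense_cr he.2.2)
  have ho : IsOpen (⋂ v ∈ V, {x : ℂ | x.im ≠ v.im}) :=
    hV.isOpen_biInter fun v _ => (isClosed_eq Complex.continuous_im continuous_const).isOpen_compl
  have := h1.inter_of_isOpen_left h2 ho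
  refine this.mono ?_
  rintro x ⟨ha, hb⟩
  refine ⟨fun v hv => ?_, fun v hv w hw hvw => ?_⟩
  · exact mem_iInter₂.1 ha v hv
  · exact mem_iInter₂.1 hb (v, w) ⟨hv, hw, hvw⟩

/-- a convex polygon is the intersection of its half planes -/
lemma hull_eq {L : List ℂ} (h : Ok L) : convexHull ℝ (vs L) = HP L := by
  refine Subset.antisymm (hull_sub h) ?_
  have hcl : IsClosed (convexHull ℝ (vs L)) := ((vs_finite L).isCompact_convexHull (𝕜 := ℝ)).isClosed
  set U : Set ℂ := {x | ∀ e ∈ edges L, 0 < cr e.1 e.2 x} with hU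
  have hUo : IsOpen U := by
    have : U = ⋂ e ∈ {e | e ∈ edges L}, {x | 0 < cr e.1 e.2 x} := by
      ext x; simp [hU]
    rw [this]
    exact (List.finite_toSet _).isOpen_biInter fun e _ => isOpen_lt continuous_const (cr_cont _ _)
  have hUh : U ⊆ convexHull ℝ (vs L) := by
    have h1 : U ∩ {x | Gen (vs L) x} ⊆ convexHull ℝ (vs L) := by
      rintro x ⟨hx1, hx2⟩
      obtain ⟨-, h2, h3⟩ := bd_fan h hx2 (fun v hv => hv)
      have := h3 (fun e he => (hx1 e he).le)
      exact h2 (by omega)
    have h2 := (dense_gen (vs_finite L)).open_subset_closure_inter hUo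
    exact h2.trans (hcl.closure_subset_iff.2 h1)
  obtain ⟨c, hc⟩ := h.inner
  intro x hx
  have ht : Tendsto (fun n : ℕ => ((1 : ℝ) - 1 / ((n : ℝ) + 2)) • x + ((1 : ℝ) / ((n : ℝ) + 2)) • c)
      atTop (𝓝 x) := by
    have h1 : Tendsto (fun n : ℕ => (1 : ℝ) / ((n : ℝ) + 2)) atTop (𝓝 0) := by
      have := (tendsto_one_div_add_atTop_nhds_zero_nat (𝕜 := ℝ)).comp (tendsto_add_atTop_nat 1)
      refine this.congr fun n => ?_
      simp only [Function.comp]
      push_cast
      ring_nf
    have h2 : Tendsto (fun n : ℕ => (1 : ℝ) - 1 / ((n : ℝ) + 2)) atTop (𝓝 (1 - 0)) :=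
      tendsto_const_nhds.sub h1
    have := (h2.smul_const x).add (h1.smul_const c)
    simpa using this
  refine hcl.mem_of_tendsto ht (Eventually.of_forall fun n => hUh ?_)
  intro e he
  have hn : (0 : ℝ) < (n : ℝ) + 2 := by positivity
  rw [cr_aff _ _ _ _ (by ring)]
  have h1 := hx e he
  have h2 := hc e he
  have h3 : (0 : ℝ) < 1 / ((n : ℝ) + 2) := by positivity
  have h4 : (0 : ℝ) ≤ 1 - 1 / ((n : ℝ) + 2) := by
    rw [sub_nonneg, div_le_one hn]
    have : (0 : ℝ) ≤ n := Nat.cast_nonneg _
    linarith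
  have := mul_nonneg h4 h1
  have := mul_pos h3 h2
  linarith

lemma ok_poly {L : List ℂ} (h : Ok L) : IsPoly (convexHull ℝ (vs L)) := by
  classical
  refine ⟨⟨L.toFinset, ?_⟩, ?_⟩
  · congr 1
    ext v
    simp [vs]
  · obtain ⟨c, hc⟩ := h.inner
    rw [hull_eq h]
    have hUo : IsOpen {x : ℂ | ∀ e ∈ edges L, 0 < cr e.1 e.2 x} := by
      have : {x : ℂ | ∀ e ∈ edges L, 0 < cr e.1 e.2 x} =
          ⋂ e ∈ {e | e ∈ edges L}, {x | 0 < cr e.1 e.2 x} := by
        ext x; simp
      rw [this]
      exact (List.finite_toSet _).isOpen_biInter fun e _ => isOpen_lt continuous_const (cr_cont _ _)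
    exact ⟨c, interior_maximal (fun x hx e he => (hx e he).le) hUo hc⟩

/-- **partition lemma** -/
theorem part {Ls : List (List ℂ)} {LK : List ℂ} (hLs : ∀ L ∈ Ls, Ok L) (hK : Ok LK)
    {V : Set ℂ} (hV : V.Finite) (hVs : ∀ L ∈ Ls, ∀ v ∈ L, v ∈ V) (hVK : ∀ v ∈ LK, v ∈ V)
    (hK1 : ∀ x, Gen V x → bd LK x ≤ 1)
    (hsum : ∀ x, Gen V x → (Ls.map fun L => bd L x).sum = bd LK x) :
    IsPart (convexHull ℝ (vs LK)) (fun i : Fin Ls.length => convexHull ℝ (vs Ls[i])) := by
  have hmem : ∀ i : Fin Ls.length, Ls[i] ∈ Ls := fun i => List.getElem_mem _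
  have hpoly : ∀ i : Fin Ls.length, IsPoly (convexHull ℝ (vs Ls[i])) := fun i => ok_poly (hLs _ (hmem i))
  have hsum' : ∀ x, Gen V x → ∑ i : Fin Ls.length, bd Ls[i] x = bd LK x := by
    intro x hx
    rw [← hsum x hx]
    rw [← List.sum_ofFn]
    congr 1
    exact List.ofFn_getElem_eq_map Ls fun L => bd L x
  have hnn : ∀ x, Gen V x → ∀ i : Fin Ls.length, 0 ≤ bd Ls[i] x := fun x hx i =>
    (bd_fan (hLs _ (hmem i)) hx (hVs _ (hmem i))).1
  have hpos : ∀ x, Gen V x → ∀ i : Fin Ls.length, x ∈ convexHull ℝ (vs Ls[i]) → 1 ≤ bd Ls[i] x :=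
    fun x hx i hxi => (bd_fan (hLs _ (hmem i)) hx (hVs _ (hmem i))).2.2 (hull_sub (hLs _ (hmem i)) hxi)
  have hd := dense_gen hV
  have hpK := ok_poly hK
  have hclK : IsClosed (convexHull ℝ (vs LK)) := (poly_compact hpK).isClosed
  refine ⟨hpoly, ?_, ?_⟩
  · -- disjointness
    intro i j hij
    rw [Set.disjoint_iff_inter_eq_empty, ← Set.not_nonempty_iff_eq_empty]
    intro hne
    obtain ⟨x, hx, hg⟩ := hd.inter_open_nonempty _ (isOpen_interior.inter isOpen_interior) hne
    have h1 := hpos x hg i (interior_subset hx.1)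
    have h2 := hpos x hg j (interior_subset hx.2)
    have h3 : bd Ls[i] x + bd Ls[j] x ≤ ∑ l : Fin Ls.length, bd Ls[l] x := by
      rw [← Finset.sum_pair (f := fun l : Fin Ls.length => bd Ls[l] x) hij]
      exact Finset.sum_le_sum_of_subset_of_nonneg (Finset.subset_univ _) fun l _ _ => hnn x hg l
    rw [hsum' x hg] at h3
    have h4 := hK1 x hg
    omega
  · apply Subset.antisymm
    · refine iUnion_subset fun i => ?_
      rw [← poly_closure (hpoly i)]
      have h1 : interior (convexHull ℝ (vs Ls[i])) ∩ {x | Gen V x} ⊆ convexHull ℝ (vs LK) := by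
        rintro x ⟨hx, hg⟩
        have h2 := hpos x hg i (interior_subset hx)
        have h3 : bd Ls[i] x ≤ ∑ l : Fin Ls.length, bd Ls[l] x :=
          Finset.single_le_sum (f := fun l : Fin Ls.length => bd Ls[l] x) (fun l _ => hnn x hg l)
            (Finset.mem_univ i)
        rw [hsum' x hg] at h3
        exact (bd_fan hK hg hVK).2.1 (by omega)
      exact closure_minimal ((hd.open_subset_closure_inter isOpen_interior).trans
        (closure_minimal h1 hclK)) hclK
    · rw [← poly_closure hpK]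
      have hcl : IsClosed (⋃ i : Fin Ls.length, convexHull ℝ (vs Ls[i])) :=
        isClosed_iUnion_of_finite fun i => (poly_compact (hpoly i)).isClosed
      have h1 : interior (convexHull ℝ (vs LK)) ∩ {x | Gen V x} ⊆
          ⋃ i : Fin Ls.length, convexHull ℝ (vs Ls[i]) := by
        rintro x ⟨hx, hg⟩
        have h2 := (bd_fan hK hg hVK).2.2 (hull_sub hK (interior_subset hx))
        rw [← hsum' x hg] at h2
        obtain ⟨i, -, hi⟩ : ∃ i ∈ (Finset.univ : Finset (Fin Ls.length)), bd Ls[i] x ≠ 0 := by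
          by_contra hcon
          push Not at hcon
          rw [Finset.sum_eq_zero hcon] at h2
          omega
        exact mem_iUnion.2 ⟨i, (bd_fan (hLs _ (hmem i)) hg (hVs _ (hmem i))).2.1 hi⟩
      exact closure_minimal ((hd.open_subset_closure_inter isOpen_interior).trans
        (closure_minimal h1 hcl)) hcl

end Pool.Agent.Helper37.CP
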