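import Pool.Agent.Helper37.CP.Asm2
import Pool.Agent.Helper37.CP.Data.Outer

/-! Placement of the half discs in the square. -/

set_option autoImplicit false

namespace Pool.Agent.Helper37.CP

open Metric Set

/-- certified families, modulo additivity on a class of lines -/
def DecP (Q : (ℂ → ℂ → ℤ) → Prop) (γ : ℝ) (Φ : (ℂ → ℂ → ℤ) → ℤ) : Prop :=
  ∃ Ls : List (List ℂ), (∀ L ∈ Ls, Cert γ L) ∧ ∀ A, Anti A → Q A → (Ls.map (bdN A)).sum = Φ A

theorem Dec0.decP {γ : ℝ} {Φ : (ℂ → ℂ → ℤ) → ℤ} (h : Dec0 γ Φ) (Q : (ℂ → ℂ → ℤ) → Prop) :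
    DecP Q γ Φ := by
  obtain ⟨Ls, h1, h2⟩ := h
  exact ⟨Ls, h1, fun A hA _ => h2 A hA⟩

theorem DecP.add {Q : (ℂ → ℂ → ℤ) → Prop} {γ : ℝ} {Φ Ψ : (ℂ → ℂ → ℤ) → ℤ} (h : DecP Q γ Φ)
    (h' : DecP Q γ Ψ) : DecP Q γ (fun A => Φ A + Ψ A) := by
  obtain ⟨Ls, h1, h2⟩ := h
  obtain ⟨Ls', h1', h2'⟩ := h'
  refine ⟨Ls ++ Ls', ?_, ?_⟩
  · intro L hL
    rcases List.mem_append.1 hL with h | h
    · exact h1 L h
    · exact h1' L h
  · intro A hA hF
    rw [List.map_append, List.sum_append, h2 A hA hF, h2' A hA hF]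

theorem DecP.congr {Q : (ℂ → ℂ → ℤ) → Prop} {γ : ℝ} {Φ Ψ : (ℂ → ℂ → ℤ) → ℤ} (h : DecP Q γ Φ)
    (e : ∀ A, Anti A → Q A → Φ A = Ψ A) : DecP Q γ Ψ := by
  obtain ⟨Ls, h1, h2⟩ := h
  exact ⟨Ls, h1, fun A hA hF => by rw [h2 A hA hF, e A hA hF]⟩

/-- additivity on the four side lines of the square `[-33/10, 33/10]²` -/
def L4 (A : ℂ → ℂ → ℤ) : Prop := ∀ r : ℕ, ∀ x y z : ℝ,
  A (rot r ⟨x, -33 / 10⟩) (rot r ⟨y, -33 / 10⟩) + A (rot r ⟨y, -33 / 10⟩) (rot r ⟨z, -33 / 10⟩) =
    A (rot r ⟨x, -33 / 10⟩) (rot r ⟨z, -33 / 10⟩)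

theorem plc0 (z : ℂ) : plc 0 z = z + ⟨-1817 / 1000, -33 / 10⟩ := by
  unfold plc
  rw [if_pos rfl]
  apply Complex.ext
  · simp
    ring
  · simp
    ring

theorem plc1 (z : ℂ) : plc 1 z = ⟨1817 / 1000, -33 / 10⟩ - starRingEnd ℂ z := by
  unfold plc
  rw [if_neg one_ne_zero]
  apply Complex.ext
  · simp
  · simp

theorem rot_ne (r : ℕ) : Complex.I ^ r ≠ 0 := pow_ne_zero r Complex.I_ne_zero

theorem real_pt {p : ℂ} (h : p.im = 0) : p = ⟨p.re, 0⟩ := by
  apply Complex.ext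
  · rfl
  · exact h

theorem place0 {γ : ℝ} {Φ : (ℂ → ℂ → ℤ) → ℤ} (h : Dec γ Φ) (r : ℕ) :
    DecP L4 γ (fun A => Φ (fun p q => A (rot r (plc 0 p)) (rot r (plc 0 q)))) := by
  obtain ⟨Ls, h1, h2⟩ := h
  have eg : ∀ z : ℂ, rot r (plc 0 z) = Complex.I ^ r * z + Complex.I ^ r * ⟨-1817 / 1000, -33 / 10⟩ := by
    intro z
    rw [plc0]
    unfold rot
    ring
  refine ⟨Ls.map fun L => L.map fun z => Complex.I ^ r * z + Complex.I ^ r * ⟨-1817 / 1000, -33 / 10⟩,
    ?_, ?_⟩
  · intro L hL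
    obtain ⟨L', hL', rfl⟩ := List.mem_map.1 hL
    exact cert_lin (h1 L' hL') (rot_ne r) _
  · intro A hA hF
    show _ = Φ (fun p q => A (rot r (plc 0 p)) (rot r (plc 0 q)))
    rw [← h2 (fun p q => A (rot r (plc 0 p)) (rot r (plc 0 q))) (fun p q => hA _ _) ?_, List.map_map]
    · congr 1
      refine List.map_congr_left fun L _ => ?_
      simp only [Function.comp_apply, bdN_map, eg]
    · intro p q s hp hq hs
      have e : ∀ z : ℂ, z.im = 0 → rot r (plc 0 z) = rot r ⟨z.re + -1817 / 1000, -33 / 10⟩ := by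
        intro z hz
        congr 1
        unfold plc
        rw [if_pos rfl, hz]
        apply Complex.ext
        · simp only
          ring
        · simp
      simp only
      rw [e p hp, e q hq, e s hs]
      exact hF r _ _ _

theorem place1 {γ : ℝ} {Φ : (ℂ → ℂ → ℤ) → ℤ} (h : Dec γ Φ) (r : ℕ) :
    DecP L4 γ (fun A => Φ (fun p q => A (rot r (plc 1 q)) (rot r (plc 1 p)))) := by
  obtain ⟨Ls, h1, h2⟩ := h
  have eg : ∀ z : ℂ, rot r (plc 1 z) =
      -Complex.I ^ r * starRingEnd ℂ z + Complex.I ^ r * ⟨1817 / 1000, -33 / 10⟩ := by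
    intro z
    rw [plc1]
    unfold rot
    ring
  refine ⟨Ls.map fun L => ((L.map (starRingEnd ℂ)).reverse).map
    fun z => -Complex.I ^ r * z + Complex.I ^ r * ⟨1817 / 1000, -33 / 10⟩, ?_, ?_⟩
  · intro L hL
    obtain ⟨L', hL', rfl⟩ := List.mem_map.1 hL
    exact cert_lin (cert_conj (h1 L' hL')) (neg_ne_zero.2 (rot_ne r)) _
  · intro A hA hF
    show _ = Φ (fun p q => A (rot r (plc 1 q)) (rot r (plc 1 p)))
    rw [← h2 (fun p q => A (rot r (plc 1 q)) (rot r (plc 1 p))) (fun p q => hA _ _) ?_, List.map_map]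
    · congr 1
      refine List.map_congr_left fun L _ => ?_
      simp only [Function.comp_apply]
      rw [bdN_map, bdN_reverse _ (fun i j => hA _ _), bdN_map]
      have e1 : (fun p q => A (rot r (plc 1 q)) (rot r (plc 1 p))) =
          fun p q => -A (rot r (plc 1 p)) (rot r (plc 1 q)) := by
        funext p q
        exact hA _ _
      rw [e1]
      have e2 : ∀ (B : ℂ → ℂ → ℤ) (l : List ℂ), pthN (fun p q => -B p q) l = -pthN B l := by
        intro B l
        induction l with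
        | nil => rfl
        | cons c l ih =>
          cases l with
          | nil => rfl
          | cons d l =>
            show -B c d + _ = -(B c d + _)
            rw [ih]
            ring
      have e3 : ∀ (B : ℂ → ℂ → ℤ) (l : List ℂ), bdN (fun p q => -B p q) l = -bdN B l := by
        intro B l
        cases l with
        | nil => rfl
        | cons c l => exact e2 B _
      rw [e3]
      simp only [eg]
    · intro p q s hp hq hs
      have e : ∀ z : ℂ, z.im = 0 → rot r (plc 1 z) = rot r ⟨1817 / 1000 - z.re, -33 / 10⟩ := by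
        intro z hz
        congr 1
        unfold plc
        rw [if_neg one_ne_zero, hz]
        apply Complex.ext
        · simp only
        · simp
      simp only
      rw [e p hp, e q hq, e s hs, hA (rot r ⟨1817 / 1000 - q.re, _⟩), hA (rot r ⟨1817 / 1000 - s.re, _⟩),
        hA (rot r ⟨1817 / 1000 - s.re, _⟩) (rot r ⟨1817 / 1000 - p.re, _⟩)]
      have := hF r (1817 / 1000 - p.re) (1817 / 1000 - q.re) (1817 / 1000 - s.re)
      linarith

theorem pthN_negate (B : ℂ → ℂ → ℤ) (l : List ℂ) : pthN (fun p q => -B p q) l = -pthN B l := by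
  induction l with
  | nil => rfl
  | cons c l ih =>
    cases l with
    | nil => rfl
    | cons d l =>
      show -B c d + _ = -(B c d + _)
      rw [ih]
      ring

/-- a direct half disc -/
theorem half0 {γ b : ℝ} {n : ℕ} (h : FillJ γ b n) (r : ℕ) :
    DecP L4 γ (fun A => A (opos (lpos b n) (.H r 0 (.V 0))) (opos (lpos b n) (.H r 0 u0)) -
      pthN A ((itf.map (OE.H r 0)).map (opos (lpos b n)))) := by
  refine (place0 h r).congr ?_
  intro A hA hF
  simp only
  rw [← pthN_map A (fun z => rot r (plc 0 z)), List.map_map, List.map_map]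
  rfl

/-- a mirrored half disc -/
theorem half1 {γ b : ℝ} {n : ℕ} (h : FillJ γ b n) (r : ℕ) :
    DecP L4 γ (fun A => A (opos (lpos b n) (.H r 1 u0)) (opos (lpos b n) (.H r 1 (.V 0))) +
      pthN A ((itf.map (OE.H r 1)).map (opos (lpos b n)))) := by
  refine (place1 h r).congr ?_
  intro A hA hF
  simp only
  have e1 : (fun p q => A (rot r (plc 1 q)) (rot r (plc 1 p))) =
      fun p q => -A (rot r (plc 1 p)) (rot r (plc 1 q)) := by
    funext p q
    exact hA _ _
  rw [e1, pthN_negate, ← pthN_map A (fun z => rot r (plc 1 z)), List.map_map, List.map_map, sub_neg_eq_add]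
  rfl

theorem outEnv_ok {b : ℝ} (hb : IsB b) {n : ℕ} (hn : 5 ≤ n) :
    outEnv.Ok (fun l => tt b (n - l)) (fun l => hh (n - l)) [0] [] := by
  refine ⟨?_, ?_, ?_, ?_⟩
  · intro l hl
    simp only [List.mem_cons, List.not_mem_nil, or_false] at hl
    subst hl
    refine ⟨?_, by decide +kernel⟩
    show (tBox 5).mem (tt b ((n : ℤ) - 0))
    rw [sub_zero]
    exact tBox_mem hb hn
  · intro l hl
    simp only [List.mem_cons, List.not_mem_nil, or_false] at hl
    subst hl
    show (FI.rat 91 250).mem (hh ((n : ℤ) - 0))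
    rw [hh_ne (by omega)]
    exact h_mem
  · intro l hl
    simp at hl
  · intro l hl
    simp at hl

theorem out_dec {b : ℝ} (hb : IsB b) {n : ℕ} (hn : 5 ≤ n) :
    Dec0 (12886 / 10000) (fun A => ((sidePs mid0 0 1 ++ (sidePs mid1 1 2 ++ (sidePs mid2 2 3 ++
      sidePs mid3 3 0))).map fun p => pthN A (p.map (opos (lpos b n)))).sum -
      ([cornN 0 3, cornN 1 0, cornN 2 1, cornN 3 2].map
        fun p => bdN A (p.map (opos (lpos b n)))).sum) :=
  md_dec_holes outMD outH (.N 0 0 0) (oEnc outEnv.pos) (oOk (Nm.ok [0] [])) (opos (lpos b n))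
    (fun v hv => oEnc_mem (fun m hm => Env.pos_mem (outEnv_ok hb hn) hm) v hv) (τ := 10) (δ := 7)
    (by norm_num) (by norm_num) out_geo out_glue out_near out_paths out_holes

theorem plc0_real {z : ℂ} (hz : z.im = 0) : plc 0 z = ⟨z.re + -1817 / 1000, -33 / 10⟩ := by
  unfold plc
  rw [if_pos rfl, hz]
  apply Complex.ext
  · simp only
    ring
  · simp

theorem plc1_real {z : ℂ} (hz : z.im = 0) : plc 1 z = ⟨1817 / 1000 - z.re, -33 / 10⟩ := by
  unfold plc
  rw [if_neg one_ne_zero, hz]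
  apply Complex.ext
  · simp only
  · simp

theorem u0_im (b : ℝ) (j : ℤ) : (lpos b j u0).im = 0 := N_im b j _ _

/-- the boundary of one side together with the two half discs -/
theorem side_sum {A : ℂ → ℂ → ℤ} (hA : Anti A) (hF : L4 A) (b : ℝ) (n : ℕ) (r r' : ℕ)
    (hr : rot r' ⟨-33 / 10, -33 / 10⟩ = rot r ⟨33 / 10, -33 / 10⟩) :
    ((sidePs [.H r 0 u0, .N 609365 (-33000000) r, .H r 1 u0] r r').map
      fun p => pthN A (p.map (opos (lpos b n)))).sum +
    (A (opos (lpos b n) (.H r 0 (.V 0))) (opos (lpos b n) (.H r 0 u0)) -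
      pthN A ((itf.map (OE.H r 0)).map (opos (lpos b n)))) +
    (A (opos (lpos b n) (.H r 1 u0)) (opos (lpos b n) (.H r 1 (.V 0))) +
      pthN A ((itf.map (OE.H r 1)).map (opos (lpos b n)))) =
    A (rot r ⟨-33 / 10, -33 / 10⟩) (rot r ⟨33 / 10, -33 / 10⟩) := by
  unfold sidePs
  simp only [List.map_cons, List.map_nil, List.sum_cons, List.sum_nil, add_zero]
  rw [List.map_reverse, pthN_reverse A hA]
  have e2 : ∀ p q : ℂ, pthN A [p, q] = A p q := by
    intro p q
    show A p q + 0 = _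
    rw [add_zero]
  have e3 : ∀ p q s : ℂ, pthN A [p, q, s] = A p q + A q s := by
    intro p q s
    show A p q + (A q s + 0) = _
    rw [add_zero]
  rw [e2, e2, e3]
  have k0 : opos (lpos b n) (.K r) = rot r ⟨-33 / 10, -33 / 10⟩ := rfl
  have k1 : opos (lpos b n) (.K r') = rot r ⟨33 / 10, -33 / 10⟩ := hr
  have k2 : opos (lpos b n) (.H r 0 (.V 0)) = rot r ⟨(lpos b n (.V 0)).re + -1817 / 1000, -33 / 10⟩ := by
    show rot r (plc 0 _) = _
    rw [plc0_real (V_im b n 0)]
  have k3 : opos (lpos b n) (.H r 0 u0) = rot r ⟨(lpos b n u0).re + -1817 / 1000, -33 / 10⟩ := by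
    show rot r (plc 0 _) = _
    rw [plc0_real (u0_im b n)]
  have k4 : opos (lpos b n) (.H r 1 (.V 0)) = rot r ⟨1817 / 1000 - (lpos b n (.V 0)).re, -33 / 10⟩ := by
    show rot r (plc 1 _) = _
    rw [plc1_real (V_im b n 0)]
  have k5 : opos (lpos b n) (.H r 1 u0) = rot r ⟨1817 / 1000 - (lpos b n u0).re, -33 / 10⟩ := by
    show rot r (plc 1 _) = _
    rw [plc1_real (u0_im b n)]
  have k6 : opos (lpos b n) (.N 609365 (-33000000) r) = rot r ⟨609365 / 10000000, -33 / 10⟩ := by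
    show rot r (bp _ _) = _
    congr 1
    unfold bp
    norm_num
  rw [k0, k1, k2, k3, k4, k5, k6]
  have f := hF r
  generalize (lpos b n (.V 0)).re + -1817 / 1000 = x1
  generalize (lpos b n u0).re + -1817 / 1000 = x2
  generalize 1817 / 1000 - (lpos b n (.V 0)).re = x4
  generalize 1817 / 1000 - (lpos b n u0).re = x3
  generalize (609365 / 10000000 : ℝ) = x5
  have f1 := f (-33 / 10) x1 x2
  have f2 := f (-33 / 10) x2 x5
  have f3 := f (-33 / 10) x5 x3
  have f4 := f (-33 / 10) x3 x4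
  have f5 := f (-33 / 10) x4 (33 / 10)
  linarith

theorem rot3 (z : ℂ) : rot 3 z = ⟨z.im, -z.re⟩ := by
  unfold rot
  have e : Complex.I ^ 3 = -Complex.I := by
    rw [pow_succ, Complex.I_sq]
    ring
  rw [e]
  apply Complex.ext
  · simp
  · simp

theorem corn_map (b : ℝ) (n : ℕ) (hn : 1 ≤ n) (r r' : ℕ) (hr : ∀ z, rot r' z = rot r (rot 3 z)) :
    (cornN r r').map (opos (lpos b n)) = (cornerL (tt b n)).map (rot r) := by
  have hV : lpos b n (.V 0) = -1 := by
    show ((((3 / 5 : ℝ) ^ (0 : ℤ) : ℝ) : ℂ) * (-1)) = -1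
    simp
  have hW : lpos b n (.W 0) = ⟨-1 + 91 / 250 * ((1 / tt b n - tt b n) / 2), 91 / 250⟩ := by
    show ((((3 / 5 : ℝ) ^ (0 : ℤ) : ℝ) : ℂ) * wal (hh ((n : ℤ) - 0)) (tt b ((n : ℤ) - 0))) = _
    rw [sub_zero, hh_ne (by omega)]
    unfold wal
    simp
  unfold cornN cornerL
  simp only [List.map_cons, List.map_nil, opos, hr, hV, hW, rot3]
  generalize (1 / tt b n - tt b n) / 2 = w
  refine List.cons_eq_cons.2 ⟨?_, List.cons_eq_cons.2 ⟨?_, List.cons_eq_cons.2 ⟨?_,
    List.cons_eq_cons.2 ⟨?_, List.cons_eq_cons.2 ⟨?_, List.cons_eq_cons.2 ⟨?_,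
    List.cons_eq_cons.2 ⟨?_, List.cons_eq_cons.2 ⟨?_, rfl⟩⟩⟩⟩⟩⟩⟩⟩
  · congr 1
    unfold plc
    apply Complex.ext <;> simp <;> norm_num
  · rfl
  · congr 1
    unfold plc
    apply Complex.ext <;> simp <;> norm_num
  · congr 1
    unfold plc
    apply Complex.ext <;> simp <;> norm_num
    ring
  · congr 1
    unfold bp
    apply Complex.ext <;> simp <;> norm_num
  · congr 1
    unfold bp
    apply Complex.ext <;> simp <;> norm_num
  · congr 1
    unfold bp
    apply Complex.ext <;> simp <;> norm_num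
  · congr 1
    unfold plc
    apply Complex.ext <;> simp <;> norm_num
    ring

/-- **the whole square** -/
theorem whole {γ b : ℝ} (hb : IsB b) (hγ : 12886 / 10000 ≤ γ) {n : ℕ} (hn : 5 ≤ n)
    (hf : FillJ γ b n) (hc : Cert γ (cornerL (tt b n))) :
    DecP L4 γ (fun A => A (rot 0 ⟨-33 / 10, -33 / 10⟩) (rot 0 ⟨33 / 10, -33 / 10⟩) +
      (A (rot 1 ⟨-33 / 10, -33 / 10⟩) (rot 1 ⟨33 / 10, -33 / 10⟩) +
      (A (rot 2 ⟨-33 / 10, -33 / 10⟩) (rot 2 ⟨33 / 10, -33 / 10⟩) +
      A (rot 3 ⟨-33 / 10, -33 / 10⟩) (rot 3 ⟨33 / 10, -33 / 10⟩)))) := by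
  have ho := ((out_dec hb hn).mono hγ).decP L4
  have hcr : ∀ r r' : ℕ, (∀ z, rot r' z = rot r (rot 3 z)) →
      DecP L4 γ (fun A => bdN A ((cornN r r').map (opos (lpos b n)))) := by
    intro r r' h
    refine Dec0.decP (dec0_single ?_) L4
    rw [corn_map b n (by omega) r r' h]
    have h1 := cert_lin hc (rot_ne r) 0
    have e : (fun z => Complex.I ^ r * z + 0) = rot r := by
      funext z
      unfold rot
      rw [add_zero]
    rw [e] at h1
    exact h1
  have hI4 : Complex.I ^ 4 = 1 := Complex.I_pow_four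
  have c0 := hcr 0 3 (by intro z; unfold rot; ring)
  have c1 := hcr 1 0 (by
    intro z
    unfold rot
    linear_combination (-z) * hI4)
  have c2 := hcr 2 1 (by
    intro z
    unfold rot
    linear_combination (-z * Complex.I) * hI4)
  have c3 := hcr 3 2 (by
    intro z
    unfold rot
    linear_combination (-z * Complex.I ^ 2) * hI4)
  refine ((((((((((((ho.add c0).add c1).add c2).add c3).add (half0 hf 0)).add (half1 hf 0)).add
    (half0 hf 1)).add (half1 hf 1)).add (half0 hf 2)).add (half1 hf 2)).add (half0 hf 3)).add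
    (half1 hf 3)).congr ?_
  intro A hA hF
  have q1 : ∀ r : ℕ, rot (r + 1) ⟨-33 / 10, -33 / 10⟩ = rot r ⟨33 / 10, -33 / 10⟩ := by
    intro r
    unfold rot
    rw [pow_succ, mul_assoc]
    congr 1
    apply Complex.ext <;> simp <;> norm_num
  have q0 : rot 0 ⟨-33 / 10, -33 / 10⟩ = rot 3 ⟨33 / 10, -33 / 10⟩ := by
    rw [← q1 3]
    unfold rot
    rw [hI4, pow_zero]
  have s0 := side_sum hA hF b n 0 1 (q1 0)
  have s1 := side_sum hA hF b n 1 2 (q1 1)
  have s2 := side_sum hA hF b n 2 3 (q1 2)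
  have s3 := side_sum hA hF b n 3 0 q0
  have m0 : mid0 = [.H 0 0 u0, .N 609365 (-33000000) 0, .H 0 1 u0] := rfl
  have m1 : mid1 = [.H 1 0 u0, .N 609365 (-33000000) 1, .H 1 1 u0] := rfl
  have m2 : mid2 = [.H 2 0 u0, .N 609365 (-33000000) 2, .H 2 1 u0] := rfl
  have m3 : mid3 = [.H 3 0 u0, .N 609365 (-33000000) 3, .H 3 1 u0] := rfl
  rw [← m0] at s0
  rw [← m1] at s1
  rw [← m2] at s2
  rw [← m3] at s3
  rw [List.map_append, List.sum_append, List.map_append, List.sum_append, List.map_append,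
    List.sum_append]
  have hco : ∀ f : List OE → ℤ, ([cornN 0 3, cornN 1 0, cornN 2 1, cornN 3 2].map f).sum =
      f (cornN 0 3) + (f (cornN 1 0) + (f (cornN 2 1) + f (cornN 3 2))) := by
    intro f
    simp only [List.map_cons, List.map_nil, List.sum_cons, List.sum_nil, add_zero]
  rw [hco]
  linarith

end Pool.Agent.Helper37.CP
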