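import Pool.Agent.Helper37.CP.Mod

/-! Towers: rings of cells around the tangency point. -/

set_option autoImplicit false

namespace Pool.Agent.Helper37.CP

open Metric Set

/-- names of tower points: base point and exponent -/
structure RN : Type where
  X : ℤ
  Y : ℤ
  k : ℤ
  deriving DecidableEq

/-- shift -/
def RN.sh (K : ℤ) (n : RN) : RN := ⟨n.X, n.Y, n.k + K⟩

/-- position in the normalised frame -/
noncomputable def mpos (n : RN) : ℂ := mob (((sq n.k : ℝ) : ℂ) * bp n.X n.Y)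

/-- rescaled position at level `K` -/
noncomputable def rpos (K : ℤ) (n : RN) : ℂ :=
  ((((2 / 3 : ℝ) ^ n.k : ℝ) : ℂ) * bp n.X n.Y) /
    (1 + Complex.I * ((25 / 56 : ℝ) * (((sq (K + n.k) : ℝ) : ℂ) * bp n.X n.Y)))

theorem sq_add (K k : ℤ) : sq (K + k) = sq K * (2 / 3) ^ k := by
  unfold sq
  rw [zpow_add₀ (by norm_num)]
  ring

theorem mpos_sh (K : ℤ) (n : RN) :
    mpos (n.sh K) = (-Complex.I * ((sq K : ℝ) : ℂ)) * rpos K n + 1 := by
  unfold mpos rpos mob RN.sh
  simp only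
  rw [add_comm n.k K]
  have e : (((sq (K + n.k) : ℝ) : ℂ) * bp n.X n.Y) =
      ((sq K : ℝ) : ℂ) * ((((2 / 3 : ℝ) ^ n.k : ℝ) : ℂ) * bp n.X n.Y) := by
    rw [sq_add]
    push_cast
    ring
  generalize 1 + Complex.I * ((25 / 56 : ℝ) * (((sq (K + n.k) : ℝ) : ℂ) * bp n.X n.Y)) = D
  rw [e]
  ring

/-! ### enclosures -/

/-- enclosure of `p / (1 + i (25/56) w)` -/
def quo (p w : CI) : CI := p.mul (mden w).inv

theorem quo_mem {p w : CI} {p' w' : ℂ} (hp : p.mem p') (hw : w.mem w')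
    (h0 : 0 < (mden w).nsq.lo) : (quo p w).mem (p' / (1 + Complex.I * ((25 / 56 : ℝ) * w'))) := by
  rw [div_eq_mul_inv]
  exact CI.mul_mem hp (CI.inv_mem (mden_mem hw) h0)

/-- the argument at level `K` -/
def rarg (K : ℤ) (n : RN) : CI := bI (2 * (zp 2 3 (K + n.k)).1) (5 * (zp 2 3 (K + n.k)).2) n.X n.Y

/-- enclosure at level `K` -/
def rEnc (K : ℤ) (n : RN) : CI := quo (bI (zp 2 3 n.k).1 (zp 2 3 n.k).2 n.X n.Y) (rarg K n)

/-- side condition at level `K` -/
def rOk (K : ℤ) (n : RN) : Bool := decide (0 < (mden (rarg K n)).nsq.lo)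

theorem rEnc_mem {K : ℤ} {n : RN} (h : rOk K n = true) : (rEnc K n).mem (rpos K n) := by
  unfold rOk at h
  rw [decide_eq_true_eq] at h
  exact quo_mem (bI_mem (zp23 n.k).2 n.X n.Y (zp23 n.k).1)
    (bI_mem (by have := (zp23 (K + n.k)).2; positivity) n.X n.Y (sq_frac (K + n.k))) h

/-- the argument at all levels `≥ K` -/
def farg (K : ℤ) (n : RN) : CI :=
  CI.smul ⟨0, (FI.rat ((2 * (zp 2 3 (K + n.k)).1 : ℕ) : ℤ) ((5 * (zp 2 3 (K + n.k)).2 : ℕ) : ℤ)).hi⟩
    (bI 1 1 n.X n.Y)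

/-- enclosure at all levels `≥ K` -/
def fEnc (K : ℤ) (n : RN) : CI := quo (bI (zp 2 3 n.k).1 (zp 2 3 n.k).2 n.X n.Y) (farg K n)

/-- side condition at all levels `≥ K` -/
def fOk (K : ℤ) (n : RN) : Bool := decide (0 < (mden (farg K n)).nsq.lo)

theorem sq_pos (k : ℤ) : 0 < sq k := by
  unfold sq
  positivity

theorem sq_anti {k l : ℤ} (h : k ≤ l) : sq l ≤ sq k := by
  unfold sq
  have := zpow_le_zpow_right_of_le_one₀ (a := (2 / 3 : ℝ)) (by norm_num) (by norm_num) h
  linarith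

theorem fEnc_mem {K K' : ℤ} {n : RN} (h : fOk K n = true) (hK : K ≤ K') :
    (fEnc K n).mem (rpos K' n) := by
  unfold fOk at h
  rw [decide_eq_true_eq] at h
  refine quo_mem (bI_mem (zp23 n.k).2 n.X n.Y (zp23 n.k).1) (CI.smul_mem ?_ ?_) h
  · have h1 := sq_anti (show K + n.k ≤ K' + n.k by omega)
    have h2 := sq_pos (K' + n.k)
    have h3 := (zp23 (K + n.k)).2
    have h4 := (FI.rat_mem ((2 * (zp 2 3 (K + n.k)).1 : ℕ) : ℤ)
      (d := ((5 * (zp 2 3 (K + n.k)).2 : ℕ) : ℤ)) (by positivity)).2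
    have h5 : sq (K + n.k) = (((2 * (zp 2 3 (K + n.k)).1 : ℕ) : ℤ) : ℝ) /
        (((5 * (zp 2 3 (K + n.k)).2 : ℕ) : ℤ) : ℝ) := by
      rw [sq_frac]
      push_cast
      ring
    rw [← h5] at h4
    have hS := SC_pos
    constructor
    · simp only [Int.cast_zero]
      positivity
    · exact (mul_le_mul_of_nonneg_right h1 hS.le).trans h4
  · have h := bI_mem (n := 1) (d := 1) (by norm_num) n.X n.Y (c := 1) (by norm_num)
    simpa using h

/-! ### one level -/

/-- the transfer from rescaled positions to positions -/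
theorem ring_lin {g : ℝ} {Ps : List (List RN)} {K : ℤ}
    (h : Dec0 g (fun A => (Ps.map fun p => pthN A (p.map (rpos K))).sum)) :
    Dec0 g (fun A => (Ps.map fun p => pthN A ((p.map (RN.sh K)).map mpos)).sum) := by
  have ha : (-Complex.I * ((sq K : ℝ) : ℂ)) ≠ 0 := by
    have := (sq_pos K).ne'
    simp [this]
  refine (h.lin ha 1).congr ?_
  intro A hA
  congr 1
  refine List.map_congr_left fun p _ => ?_
  rw [← pthN_map (fun p q => A p q) (fun z => (-Complex.I * ((sq K : ℝ) : ℂ)) * z + 1), List.map_map,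
    List.map_map]
  congr 1
  refine List.map_congr_left fun n _ => ?_
  simp only [Function.comp_apply]
  rw [mpos_sh]

end Pool.Agent.Helper37.CP
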