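import Pool.Agent.Helper37.CP.Fill

/-! From certified families of cells to partitions of the square. -/

set_option autoImplicit false

namespace Pool.Agent.Helper37.CP

open Metric Set

open Classical in
/-- half-open crossing number -/
noncomputable def NN (x p q : ℂ) : ℤ :=
  (if p.im ≤ x.im ∧ x.im < q.im ∧ 0 < cr p q x then 1 else 0) -
    (if q.im ≤ x.im ∧ x.im < p.im ∧ 0 < cr q p x then 1 else 0)

theorem NN_anti (x : ℂ) : Anti (NN x) := by
  intro p q
  unfold NN
  ring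

theorem NN_eq {x p q : ℂ} (hp : x.im ≠ p.im) (hq : x.im ≠ q.im) : N p q x = NN x p q := by
  unfold N NN
  have e1 : p.im < x.im ↔ p.im ≤ x.im := ⟨le_of_lt, fun h => lt_of_le_of_ne h (Ne.symm hp)⟩
  have e2 : q.im < x.im ↔ q.im ≤ x.im := ⟨le_of_lt, fun h => lt_of_le_of_ne h (Ne.symm hq)⟩
  simp only [e1, e2]

theorem NN_horiz {x p q : ℂ} (h : p.im = q.im) : NN x p q = 0 := by
  unfold NN
  rw [if_neg, if_neg]
  · rfl
  · rintro ⟨h1, h2, -⟩
    linarith
  · rintro ⟨h1, h2, -⟩
    linarith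

open Classical in
/-- the potential on vertical lines -/
noncomputable def ph0 (a : ℝ) (x : ℂ) (c : ℝ) : ℤ := if x.re < a ∧ c ≤ x.im then 1 else 0

/-- the potential on vertical lines -/
noncomputable def ph (a : ℝ) (x p : ℂ) : ℤ := ph0 a x p.im

theorem NN_vert {x p q : ℂ} {a : ℝ} (hp : p.re = a) (hq : q.re = a) :
    NN x p q = ph a x p - ph a x q := by
  have e1 : cr p q x = (q.im - p.im) * (a - x.re) := by
    unfold cr
    rw [hp, hq]
    ring
  have e2 : cr q p x = (p.im - q.im) * (a - x.re) := by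
    unfold cr
    rw [hp, hq]
    ring
  unfold NN ph ph0
  rw [e1, e2]
  rcases lt_or_ge x.re a with h | h
  · have h' : 0 < a - x.re := by linarith
    by_cases hpx : p.im ≤ x.im <;> by_cases hqx : q.im ≤ x.im
    · rw [if_neg (by rintro ⟨-, h2, -⟩; linarith), if_neg (by rintro ⟨-, h2, -⟩; linarith),
        if_pos ⟨h, hpx⟩, if_pos ⟨h, hqx⟩]
      rfl
    · push Not at hqx
      rw [if_pos ⟨hpx, hqx, mul_pos (by linarith) h'⟩, if_neg (by rintro ⟨h1, -, -⟩; linarith),
        if_pos ⟨h, hpx⟩, if_neg (by rintro ⟨-, h2⟩; linarith)]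
    · push Not at hpx
      rw [if_neg (by rintro ⟨h1, -, -⟩; linarith), if_pos ⟨hqx, hpx, mul_pos (by linarith) h'⟩,
        if_neg (by rintro ⟨-, h2⟩; linarith), if_pos ⟨h, hqx⟩]
    · rw [if_neg (by rintro ⟨h1, -, -⟩; exact hpx h1), if_neg (by rintro ⟨h1, -, -⟩; exact hqx h1),
        if_neg (by rintro ⟨-, h2⟩; exact hpx h2), if_neg (by rintro ⟨-, h2⟩; exact hqx h2)]
  · rw [if_neg (c := x.re < a ∧ p.im ≤ x.im) (by rintro ⟨h1, -⟩; linarith),
      if_neg (c := x.re < a ∧ q.im ≤ x.im) (by rintro ⟨h1, -⟩; linarith), if_neg, if_neg]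
    · rintro ⟨h1, h2, h3⟩
      have h4 : 0 < p.im - q.im := by linarith
      have h5 := mul_nonpos_of_nonneg_of_nonpos h4.le (by linarith : a - x.re ≤ 0)
      linarith
    · rintro ⟨h1, h2, h3⟩
      have h4 : 0 < q.im - p.im := by linarith
      have h5 := mul_nonpos_of_nonneg_of_nonpos h4.le (by linarith : a - x.re ≤ 0)
      linarith

/-- additivity on a line -/
def Lin (S : Set ℂ) (A : ℂ → ℂ → ℤ) : Prop := ∀ p ∈ S, ∀ q ∈ S, ∀ r ∈ S, A p q + A q r = A p r

/-- additivity on the four sides of the unit square -/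
structure Sid (A : ℂ → ℂ → ℤ) : Prop where
  b : Lin {p | p.im = 0} A
  t : Lin {p | p.im = 1} A
  l : Lin {p | p.re = 0} A
  r : Lin {p | p.re = 1} A

theorem NN_sid (x : ℂ) : Sid (NN x) := by
  refine ⟨?_, ?_, ?_, ?_⟩
  · intro p hp q hq r hr
    rw [NN_horiz (show p.im = q.im from by rw [hp, hq]), NN_horiz (show q.im = r.im from by rw [hq, hr]),
      NN_horiz (show p.im = r.im from by rw [hp, hr])]
    rfl
  · intro p hp q hq r hr
    rw [NN_horiz (show p.im = q.im from by rw [hp, hq]), NN_horiz (show q.im = r.im from by rw [hq, hr]),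
      NN_horiz (show p.im = r.im from by rw [hp, hr])]
    rfl
  · intro p hp q hq r hr
    rw [NN_vert hp hq, NN_vert hq hr, NN_vert hp hr]
    ring
  · intro p hp q hq r hr
    rw [NN_vert hp hq, NN_vert hq hr, NN_vert hp hr]
    ring

/-- the corners -/
def LK : List ℂ := [0, 1, ⟨1, 1⟩, Complex.I]

theorem LK_ok : Ok LK := by
  refine ⟨?_, ?_, ⟨⟨1 / 2, 1 / 2⟩, ?_⟩, by simp [LK]⟩
  · unfold LK
    simp [Complex.ext_iff]
  · intro e he v hv
    simp only [LK, edges, List.tail_cons, List.take_succ_cons, List.take_zero, List.cons_append,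
      List.nil_append, List.zip_cons_cons, List.zip_nil_right, List.mem_cons, List.not_mem_nil,
      or_false] at he hv
    rcases he with rfl | rfl | rfl | rfl <;> rcases hv with rfl | rfl | rfl | rfl <;>
      simp [cr]
  · intro e he
    simp only [LK, edges, List.tail_cons, List.take_succ_cons, List.take_zero, List.cons_append,
      List.nil_append, List.zip_cons_cons, List.zip_nil_right, List.mem_cons, List.not_mem_nil,
      or_false] at he
    rcases he with rfl | rfl | rfl | rfl <;> simp [cr] <;> norm_num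

theorem LK_hull : convexHull ℝ (vs LK) = sqr := by
  rw [hull_eq LK_ok]
  ext x
  unfold HP sqr
  simp only [LK, edges, List.tail_cons, List.take_succ_cons, List.take_zero, List.cons_append,
      List.nil_append, List.zip_cons_cons, List.zip_nil_right, List.mem_cons, List.not_mem_nil,
      or_false, mem_ofPred_eq, forall_eq_or_imp, forall_eq]
  simp only [cr, Complex.one_re, Complex.one_im, Complex.zero_re, Complex.zero_im, Complex.I_re,
    Complex.I_im]
  constructor
  · rintro ⟨h1, h2, h3, h4⟩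
    refine ⟨?_, ?_, ?_, ?_⟩ <;> linarith
  · rintro ⟨h1, h2, h3, h4⟩
    refine ⟨?_, ?_, ?_, ?_⟩ <;> linarith

theorem bd_NN {L : List ℂ} {x : ℂ} (h : ∀ v ∈ L, x.im ≠ v.im) : bd L x = bdN (NN x) L := by
  have key : ∀ l : List ℂ, (∀ v ∈ l, x.im ≠ v.im) → pth l x = pthN (NN x) l := by
    intro l
    induction l with
    | nil => intro _; rfl
    | cons a l ih =>
      intro hl
      cases l with
      | nil => rfl
      | cons b l =>
        rw [pth_cons, ih (fun v hv => hl v (List.mem_cons_of_mem _ hv)),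
          NN_eq (hl a (by simp)) (hl b (by simp))]
        rfl
  cases L with
  | nil => rfl
  | cons a l =>
    refine key _ ?_
    intro v hv
    apply h v
    simp only [List.mem_cons, List.mem_append, List.not_mem_nil, or_false] at hv ⊢
    tauto

theorem LK_le {x : ℂ} (h : ∀ v ∈ LK, x.im ≠ v.im) : bd LK x ≤ 1 := by
  rw [bd_NN h]
  show pthN (NN x) [0, 1, ⟨1, 1⟩, Complex.I, 0] ≤ 1
  show NN x 0 1 + (NN x 1 ⟨1, 1⟩ + (NN x ⟨1, 1⟩ Complex.I + (NN x Complex.I 0 + 0))) ≤ 1
  rw [NN_horiz (p := 0) (q := 1) (by simp), NN_horiz (p := ⟨1, 1⟩) (q := Complex.I) (by simp),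
    NN_vert (a := 1) (p := 1) (q := ⟨1, 1⟩) (by simp) (by simp),
    NN_vert (a := 0) (p := Complex.I) (q := 0) (by simp) (by simp)]
  unfold ph
  rw [Complex.one_im, Complex.I_im, Complex.zero_im]
  show 0 + (ph0 1 x 0 - ph0 1 x 1 + (0 + (ph0 0 x 1 - ph0 0 x 0 + 0))) ≤ 1
  unfold ph0
  by_cases h1 : x.re < 1 ∧ 0 ≤ x.im
  · by_cases h2 : x.re < 0 ∧ 1 ≤ x.im
    · rw [if_pos h1, if_pos (c := x.re < 1 ∧ 1 ≤ x.im) ⟨h1.1, h2.2⟩, if_pos h2,
        if_pos (c := x.re < 0 ∧ 0 ≤ x.im) ⟨h2.1, h1.2⟩]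
      norm_num
    · rw [if_pos h1, if_neg h2]
      split_ifs <;> norm_num
  · by_cases h2 : x.re < 0 ∧ 1 ≤ x.im
    · exfalso
      exact h1 ⟨by linarith [h2.1], by linarith [h2.2]⟩
    · rw [if_neg h1, if_neg h2]
      split_ifs <;> norm_num

/-- **partitions of the square** -/
theorem square_part {γ : ℝ} {Ls : List (List ℂ)} (h1 : ∀ L ∈ Ls, Cert γ L)
    (h2 : ∀ A, Anti A → Sid A → (Ls.map (bdN A)).sum = bdN A LK) :
    ∃ (n : ℕ) (P : Fin n → Set ℂ), IsPart sqr P ∧ ∀ i, gam (P i) ≤ γ := by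
  classical
  let V : Set ℂ := {v | v ∈ LK ∨ v ∈ Ls.flatten}
  have hV : V.Finite := (List.finite_toSet LK).union (List.finite_toSet Ls.flatten)
  have hVs : ∀ L ∈ Ls, ∀ v ∈ L, v ∈ V := fun L hL v hv => Or.inr (List.mem_flatten.2 ⟨L, hL, hv⟩)
  have hVK : ∀ v ∈ LK, v ∈ V := fun v hv => Or.inl hv
  have hp := part (Ls := Ls) (LK := LK) (fun L hL => (h1 L hL).ok) LK_ok hV hVs hVK
    (fun x hx => LK_le (fun v hv => hx.1 v (hVK v hv))) (by
      intro x hx
      rw [bd_NN (fun v hv => hx.1 v (hVK v hv)), ← h2 (NN x) (NN_anti x) (NN_sid x)]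
      congr 1
      refine List.map_congr_left fun L hL => ?_
      exact bd_NN (fun v hv => hx.1 v (hVs L hL v hv)))
  rw [LK_hull] at hp
  exact ⟨Ls.length, _, hp, fun i => cert_gam (h1 _ (List.getElem_mem _))⟩

end Pool.Agent.Helper37.CP
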