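import Pool.Agent.Helper37.CP.Cert

/-! Certificates with a tolerance, checked by integer arithmetic. -/

set_option autoImplicit false

namespace Pool.Agent.Helper37.CP

open Metric Set

/-- an integer point -/
abbrev Pt : Type := ℤ × ℤ

/-- the integer point as a complex number -/
def toC (z : Pt) : ℂ := ⟨(z.1 : ℝ), (z.2 : ℝ)⟩

/-- a cell: indices of the vertices, a centre, a circumcentre, an inradius and a circumradius -/
structure Cell : Type where
  idx : List ℕ
  c : Pt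
  o : Pt
  r : ℤ
  R : ℤ

def icr (p q x : Pt) : ℤ := (q.1 - p.1) * (x.2 - p.2) - (q.2 - p.2) * (x.1 - p.1)

def il1 (p q : Pt) : ℤ := ((q.1 - p.1).natAbs + (q.2 - p.2).natAbs : ℕ)

def in2 (p q : Pt) : ℤ := (q.1 - p.1) * (q.1 - p.1) + (q.2 - p.2) * (q.2 - p.2)

/-- cyclic edges -/
def cedges {α : Type} (L : List α) : List (α × α) := L.zip (L.tail ++ L.take 1)

/-- pairwise distances at least `d` -/
def farL (d : ℤ) : List Pt → Bool
  | [] => true
  | a :: l => (l.all fun b => decide (d < in2 a b)) && farL d l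

/-- the check of the centre -/
def cenOk (τ r : ℤ) (c p q : Pt) : Bool :=
  let W := icr p q c - 2 * r * τ - 2 * τ * (il1 p c + τ)
  decide (0 < W) && decide ((r + τ) * (r + τ) * in2 p q ≤ W * W)

/-- the check of a cell -/
def Cell.chk (τ gn gd : ℤ) (Z : ℕ → Pt) (C : Cell) : Bool :=
  let ps := C.idx.map fun i => (i, Z i)
  let es := cedges ps
  (decide (0 < C.r) && (decide (τ ≤ C.R) && decide (C.R * gd ≤ gn * C.r))) &&
  ((farL (4 * τ * τ) (ps.map Prod.snd) && !ps.isEmpty) &&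
  ((es.all fun e => ps.all fun v => (v.1 == e.1.1) || ((v.1 == e.2.1) ||
      decide (2 * τ * (il1 e.1.2 e.2.2 + il1 e.1.2 v.2 + 2 * τ) ≤ icr e.1.2 e.2.2 v.2))) &&
  ((es.all fun e => cenOk τ C.r C.c e.1.2 e.2.2) &&
  ps.all fun v => decide (in2 v.2 C.o ≤ (C.R - τ) * (C.R - τ)))))

/-! ### soundness -/

theorem icr_cast (p q x : Pt) : ((icr p q x : ℤ) : ℝ) = cr (toC p) (toC q) (toC x) := by
  unfold icr cr toC
  push_cast
  ring

theorem in2_cast (p q : Pt) : ((in2 p q : ℤ) : ℝ) = ‖toC q - toC p‖ ^ 2 := by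
  rw [normSq']
  unfold in2 toC
  simp only [Complex.sub_re, Complex.sub_im]
  push_cast
  ring

theorem il1_cast (p q : Pt) : ‖toC q - toC p‖ ≤ ((il1 p q : ℤ) : ℝ) := by
  have h1 := Complex.norm_le_abs_re_add_abs_im (toC q - toC p)
  unfold il1
  rw [Int.cast_natCast, Nat.cast_add, Nat.cast_natAbs, Nat.cast_natAbs, Int.cast_abs, Int.cast_abs]
  unfold toC at h1 ⊢
  simp only [Complex.sub_re, Complex.sub_im] at h1
  push_cast
  exact h1

/-- the cross product of two vectors -/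
def crs (u v : ℂ) : ℝ := u.re * v.im - u.im * v.re

theorem crs_abs (u v : ℂ) : |crs u v| ≤ ‖u‖ * ‖v‖ := by
  apply abs_le_of_sq_le_sq _ (by positivity)
  rw [mul_pow, normSq', normSq']
  unfold crs
  nlinarith [sq_nonneg (u.re * v.re + u.im * v.im)]

theorem cr_eq_crs (p q x : ℂ) : cr p q x = crs (q - p) (x - p) := by
  unfold cr crs
  simp only [Complex.sub_re, Complex.sub_im]

theorem crs_add (u v u' v' : ℂ) : crs (u + u') (v + v') = crs u v + (crs u v' + (crs u' v + crs u' v')) := by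
  unfold crs
  simp only [Complex.add_re, Complex.add_im]
  ring

/-- perturbation of the cross product -/
theorem cr_pert {p q x p' q' x' : ℂ} {a b : ℝ} (ha : 0 ≤ a) (h1 : ‖(q' - q) - (p' - p)‖ ≤ a)
    (h2 : ‖(x' - x) - (p' - p)‖ ≤ b) : cr p q x - (‖q - p‖ * b + (a * ‖x - p‖ + a * b)) ≤ cr p' q' x' := by
  have e1 : q' - p' = (q - p) + ((q' - q) - (p' - p)) := by ring
  have e2 : x' - p' = (x - p) + ((x' - x) - (p' - p)) := by ring
  rw [cr_eq_crs p' q' x', e1, e2, crs_add, ← cr_eq_crs]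
  have h3 := (abs_le.1 (crs_abs (q - p) ((x' - x) - (p' - p)))).1
  have h4 := (abs_le.1 (crs_abs ((q' - q) - (p' - p)) (x - p))).1
  have h5 := (abs_le.1 (crs_abs ((q' - q) - (p' - p)) ((x' - x) - (p' - p)))).1
  have h6 : ‖q - p‖ * ‖(x' - x) - (p' - p)‖ ≤ ‖q - p‖ * b :=
    mul_le_mul_of_nonneg_left h2 (norm_nonneg _)
  have h7 : ‖(q' - q) - (p' - p)‖ * ‖x - p‖ ≤ a * ‖x - p‖ :=
    mul_le_mul_of_nonneg_right h1 (norm_nonneg _)
  have h8 : ‖(q' - q) - (p' - p)‖ * ‖(x' - x) - (p' - p)‖ ≤ a * b :=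
    mul_le_mul h1 h2 (norm_nonneg _) ha
  linarith

theorem edges_map' (f : ℕ → ℂ) (L : List ℕ) : edges (L.map f) = (cedges L).map (Prod.map f f) := by
  unfold edges cedges
  rw [← List.map_tail, ← List.map_take, ← List.map_append, List.zip_map]

theorem cedges_map {α β : Type} (f : α → β) (L : List α) :
    cedges (L.map f) = (cedges L).map (Prod.map f f) := by
  unfold cedges
  rw [← List.map_tail, ← List.map_take, ← List.map_append, List.zip_map]

theorem mem_cedges {α : Type} {L : List α} {e : α × α} (he : e ∈ cedges L) : e.1 ∈ L ∧ e.2 ∈ L := by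
  unfold cedges at he
  obtain ⟨a, b⟩ := e
  have h1 := List.of_mem_zip he
  refine ⟨h1.1, ?_⟩
  rcases List.mem_append.1 h1.2 with h | h
  · exact List.mem_of_mem_tail h
  · exact List.mem_of_mem_take h

theorem farL_spec {τ : ℤ} {Z : ℕ → Pt} {pos : ℕ → ℂ} (hτ : 0 ≤ τ) :
    ∀ L : List ℕ, (∀ i ∈ L, ‖pos i - toC (Z i)‖ ≤ τ) → farL (4 * τ * τ) (L.map Z) = true →
    (L.map pos).Nodup := by
  intro L
  induction L with
  | nil => intro _ _; exact List.nodup_nil
  | cons a l ih =>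
    intro hp h
    simp only [List.map_cons, farL, Bool.and_eq_true, List.all_eq_true, List.mem_map,
      decide_eq_true_eq] at h
    rw [List.map_cons, List.nodup_cons]
    refine ⟨?_, ih (fun i hi => hp i (List.mem_cons_of_mem _ hi)) h.2⟩
    intro hmem
    obtain ⟨b, hb, hab⟩ := List.mem_map.1 hmem
    have h1 := h.1 (Z b) ⟨b, hb, rfl⟩
    have h2 : ((4 * τ * τ : ℤ) : ℝ) < ((in2 (Z a) (Z b) : ℤ) : ℝ) := by exact_mod_cast h1
    rw [in2_cast] at h2
    have h3 : ‖toC (Z b) - toC (Z a)‖ ≤ 2 * τ := by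
      have e : toC (Z b) - toC (Z a) = (pos a - toC (Z a)) - (pos b - toC (Z b)) := by
        rw [hab]
        ring
      rw [e]
      have := norm_sub_le (pos a - toC (Z a)) (pos b - toC (Z b))
      have h4 := hp a (by simp)
      have h5 := hp b (List.mem_cons_of_mem _ hb)
      linarith
    have h4 : ‖toC (Z b) - toC (Z a)‖ ^ 2 ≤ (2 * τ) ^ 2 := pow_le_pow_left₀ (norm_nonneg _) h3 2
    push_cast at h2
    linarith

theorem Cell.chk_spec {τ gn gd : ℤ} {Z : ℕ → Pt} {C : Cell} (h : C.chk τ gn gd Z = true)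
    (hτ : 0 ≤ τ) (hgd : 0 < gd) {pos : ℕ → ℂ} (hp : ∀ i ∈ C.idx, ‖pos i - toC (Z i)‖ ≤ τ) :
    Cert ((gn : ℝ) / gd) (C.idx.map pos) := by
  unfold Cell.chk at h
  simp only [Bool.and_eq_true, decide_eq_true_eq, List.all_eq_true, Bool.or_eq_true, beq_iff_eq,
    cedges_map, List.mem_map, forall_exists_index, and_imp, List.map_map, Bool.not_eq_true',
    List.isEmpty_eq_false_iff] at h
  obtain ⟨⟨hr, hR1, hR2⟩, ⟨hfar, hne⟩, hconv, hcen, hcirc⟩ := h
  have hτ' : (0 : ℝ) ≤ τ := by exact_mod_cast hτ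
  have hr' : (0 : ℝ) < C.r := by exact_mod_cast hr
  have hcenter : ∀ e ∈ edges (C.idx.map pos), (C.r : ℝ) * ‖e.2 - e.1‖ ≤ cr e.1 e.2 (toC C.c) ∧
      0 < cr e.1 e.2 (toC C.c) := by
    intro e he
    rw [edges_map'] at he
    obtain ⟨⟨i, j⟩, hij, rfl⟩ := List.mem_map.1 he
    obtain ⟨hi, hj⟩ := mem_cedges hij
    simp only at hi hj
    have h1 := hcen _ (i, j) hij rfl
    simp only [cenOk, Prod.map_apply, Bool.and_eq_true, decide_eq_true_eq] at h1
    obtain ⟨hW0, hW1⟩ := h1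
    set W : ℤ := icr (Z i) (Z j) C.c - 2 * C.r * τ - 2 * τ * (il1 (Z i) C.c + τ) with hW
    show (C.r : ℝ) * ‖pos j - pos i‖ ≤ cr (pos i) (pos j) (toC C.c) ∧ _
    have hu : ‖pos j - pos i‖ ≤ ‖toC (Z j) - toC (Z i)‖ + 2 * τ := by
      have e : pos j - pos i = (toC (Z j) - toC (Z i)) + ((pos j - toC (Z j)) - (pos i - toC (Z i))) := by
        ring
      rw [e]
      have a1 := norm_add_le (toC (Z j) - toC (Z i)) ((pos j - toC (Z j)) - (pos i - toC (Z i)))
      have a2 := norm_sub_le (pos j - toC (Z j)) (pos i - toC (Z i))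
      have a3 := hp i hi
      have a4 := hp j hj
      linarith
    have hpert := cr_pert (p := toC (Z i)) (q := toC (Z j)) (x := toC C.c) (p' := pos i) (q' := pos j)
      (x' := toC C.c) (a := 2 * (τ : ℝ)) (b := τ) (by positivity)
      (by
        have a2 := norm_sub_le (pos j - toC (Z j)) (pos i - toC (Z i))
        have a3 := hp i hi
        have a4 := hp j hj
        linarith)
      (by
        rw [sub_self, zero_sub, norm_neg]
        exact hp i hi)
    have hl1 := il1_cast (Z i) C.c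
    have hWr : (W : ℝ) = cr (toC (Z i)) (toC (Z j)) (toC C.c) - 2 * C.r * τ -
        2 * τ * ((il1 (Z i) C.c : ℤ) + τ) := by
      rw [hW, ← icr_cast]
      push_cast
      ring
    have hW0' : (0 : ℝ) < W := by exact_mod_cast hW0
    have hW1' : ((C.r : ℝ) + τ) * ‖toC (Z j) - toC (Z i)‖ ≤ W := by
      have a1 : (((C.r + τ) * (C.r + τ) * in2 (Z i) (Z j) : ℤ) : ℝ) ≤ ((W * W : ℤ) : ℝ) := by
        exact_mod_cast hW1
      push_cast at a1
      rw [in2_cast] at a1
      apply le_of_sq_le_sq _ hW0'.le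
      calc (((C.r : ℝ) + τ) * ‖toC (Z j) - toC (Z i)‖) ^ 2 =
          ((C.r : ℝ) + τ) * ((C.r : ℝ) + τ) * ‖toC (Z j) - toC (Z i)‖ ^ 2 := by ring
        _ ≤ _ := a1
        _ = (W : ℝ) ^ 2 := by ring
    have hmul : 2 * (τ : ℝ) * ‖toC C.c - toC (Z i)‖ ≤ 2 * τ * ((il1 (Z i) C.c : ℤ) : ℝ) :=
      mul_le_mul_of_nonneg_left hl1 (by positivity)
    have hlow : (W : ℝ) + 2 * C.r * τ - ‖toC (Z j) - toC (Z i)‖ * τ ≤
        cr (pos i) (pos j) (toC C.c) := by
      nlinarith
    refine ⟨?_, ?_⟩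
    · calc (C.r : ℝ) * ‖pos j - pos i‖ ≤ C.r * (‖toC (Z j) - toC (Z i)‖ + 2 * τ) :=
          mul_le_mul_of_nonneg_left hu hr'.le
        _ ≤ _ := by nlinarith
    · refine lt_of_lt_of_le ?_ hlow
      rcases eq_or_lt_of_le (norm_nonneg (toC (Z j) - toC (Z i))) with h0 | h0
      · rw [← h0]
        have : 0 ≤ 2 * (C.r : ℝ) * τ := by positivity
        linarith
      · have a1 : 0 < (C.r : ℝ) * ‖toC (Z j) - toC (Z i)‖ := mul_pos hr' h0
        have : 0 ≤ 2 * (C.r : ℝ) * τ := by positivity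
        nlinarith
  refine ⟨⟨?_, ?_, ?_, ?_⟩, toC C.c, toC C.o, C.r, C.R, hr', ?_, ?_, ?_⟩
  · exact farL_spec hτ C.idx hp hfar
  · intro e he v hv
    rw [edges_map'] at he
    obtain ⟨⟨i, j⟩, hij, rfl⟩ := List.mem_map.1 he
    obtain ⟨l, hl, rfl⟩ := List.mem_map.1 hv
    obtain ⟨hi, hj⟩ := mem_cedges hij
    simp only at hi hj
    show 0 ≤ cr (pos i) (pos j) (pos l)
    have h1 := hconv _ (i, j) hij rfl _ l hl rfl
    simp only [Prod.map_apply] at h1
    rcases h1 with h1 | h1 | h1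
    · rw [h1]
      unfold cr
      simp
    · rw [h1]
      unfold cr
      have : (pos j).re - (pos i).re = (pos j).re - (pos i).re := rfl
      nlinarith
    · have hpert := cr_pert (p := toC (Z i)) (q := toC (Z j)) (x := toC (Z l)) (p' := pos i)
        (q' := pos j) (x' := pos l) (a := 2 * (τ : ℝ)) (b := 2 * τ) (by positivity)
        (by
          have a2 := norm_sub_le (pos j - toC (Z j)) (pos i - toC (Z i))
          have a3 := hp i hi
          have a4 := hp j hj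
          linarith)
        (by
          have a2 := norm_sub_le (pos l - toC (Z l)) (pos i - toC (Z i))
          have a3 := hp i hi
          have a4 := hp l hl
          linarith)
      have a1 : ((2 * τ * (il1 (Z i) (Z j) + il1 (Z i) (Z l) + 2 * τ) : ℤ) : ℝ) ≤
          ((icr (Z i) (Z j) (Z l) : ℤ) : ℝ) := by exact_mod_cast h1
      rw [icr_cast] at a1
      push_cast at a1
      have a2 := mul_le_mul_of_nonneg_left (il1_cast (Z i) (Z j)) (by positivity : 0 ≤ 2 * (τ : ℝ))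
      have a3 := mul_le_mul_of_nonneg_left (il1_cast (Z i) (Z l)) (by positivity : 0 ≤ 2 * (τ : ℝ))
      linarith
  · exact ⟨toC C.c, fun e he => (hcenter e he).2⟩
  · intro h0
    rw [List.map_eq_nil_iff] at h0
    exact hne (by rw [h0]; rfl)
  · have hgd' : (0 : ℝ) < gd := by exact_mod_cast hgd
    have a1 : ((C.R * gd : ℤ) : ℝ) ≤ ((gn * C.r : ℤ) : ℝ) := by exact_mod_cast hR2
    push_cast at a1
    rw [div_mul_eq_mul_div, le_div_iff₀ hgd']
    exact a1
  · exact fun e he => (hcenter e he).1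
  · intro v hv
    obtain ⟨l, hl, rfl⟩ := List.mem_map.1 hv
    have h1 := hcirc _ l hl rfl
    have a1 : ((in2 (Z l) C.o : ℤ) : ℝ) ≤ (((C.R - τ) * (C.R - τ) : ℤ) : ℝ) := by exact_mod_cast h1
    rw [in2_cast] at a1
    have hR1' : (0 : ℝ) ≤ C.R - τ := by
      have : (τ : ℝ) ≤ C.R := by exact_mod_cast hR1
      linarith
    have a2 : ‖toC C.o - toC (Z l)‖ ≤ C.R - τ := by
      apply le_of_sq_le_sq _ hR1'
      calc ‖toC C.o - toC (Z l)‖ ^ 2 ≤ _ := a1
        _ = ((C.R : ℝ) - τ) ^ 2 := by push_cast; ring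
    have e : pos l - toC C.o = (pos l - toC (Z l)) - (toC C.o - toC (Z l)) := by ring
    rw [e]
    have a3 := norm_sub_le (pos l - toC (Z l)) (toC C.o - toC (Z l))
    have a4 := hp l hl
    linarith

end Pool.Agent.Helper37.CP
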