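import Pool.Agent.Helper37.CP.Tol

/-! The critical pieces: polygons with a geometric sequence of vertices on a circle tangent to the
incircle. -/

set_option autoImplicit false

namespace Pool.Agent.Helper37.CP

open Metric Set Filter Topology

/-! ### points of the circle -/

/-- the point with parameter `X` on the circle through `1` and `-s` with centre on the real axis -/
noncomputable def PP (s X : ℝ) : ℂ := ⟨(1 - s * X ^ 2) / (1 + X ^ 2), -((1 + s) * X) / (1 + X ^ 2)⟩

/-- the bracket in the cross product of `P X`, `P Y`, `v` -/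
def GG (s X Y : ℝ) (v : ℂ) : ℝ := (1 - v.re) + (X + Y) * v.im + (s + v.re) * (X * Y)

theorem den_pos (X : ℝ) : 0 < 1 + X ^ 2 := by positivity

theorem cr_PPV (s X Y : ℝ) (v : ℂ) :
    cr (PP s X) (PP s Y) v = (1 + s) * (X - Y) * GG s X Y v / ((1 + X ^ 2) * (1 + Y ^ 2)) := by
  have h1 := (den_pos X).ne'
  have h2 := (den_pos Y).ne'
  unfold cr PP GG
  field_simp
  ring

theorem cr_PP0 (s X Y : ℝ) :
    cr (PP s X) (PP s Y) 0 = (1 + s) * (X - Y) * (1 + s * (X * Y)) / ((1 + X ^ 2) * (1 + Y ^ 2)) := by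
  rw [cr_PPV]
  unfold GG
  simp

theorem GG_PP (s X Y Z : ℝ) : GG s X Y (PP s Z) = (1 + s) * ((Y - Z) * (X - Z)) / (1 + Z ^ 2) := by
  have h1 := (den_pos Z).ne'
  unfold GG PP
  simp only
  field_simp
  ring

theorem norm_PP (s X Y : ℝ) : ‖PP s Y - PP s X‖ ^ 2 =
    (1 + s) ^ 2 * (X - Y) ^ 2 / ((1 + X ^ 2) * (1 + Y ^ 2)) := by
  have h1 := (den_pos X).ne'
  have h2 := (den_pos Y).ne'
  rw [normSq']
  unfold PP
  simp only [Complex.sub_re, Complex.sub_im]
  field_simp
  ring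

/-- edges of the tower are outside the circle of radius `r` around `0` -/
theorem tower_edge {s X Y r : ℝ} (hs : 0 ≤ s) (hXY : Y ≤ X) (hr : 0 ≤ r) (h0 : 0 ≤ 1 + s * (X * Y))
    (h : r ^ 2 * ((1 + X ^ 2) * (1 + Y ^ 2)) ≤ (1 + s * (X * Y)) ^ 2) :
    r * ‖PP s Y - PP s X‖ ≤ cr (PP s X) (PP s Y) 0 := by
  have hD : 0 < (1 + X ^ 2) * (1 + Y ^ 2) := mul_pos (den_pos X) (den_pos Y)
  rw [cr_PP0]
  have hnn : 0 ≤ (1 + s) * (X - Y) * (1 + s * (X * Y)) / ((1 + X ^ 2) * (1 + Y ^ 2)) := by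
    have : 0 ≤ X - Y := by linarith
    positivity
  apply le_of_sq_le_sq _ hnn
  rw [mul_pow, norm_PP, div_pow, mul_div_assoc', div_le_div_iff₀ hD (by positivity)]
  have h2 := mul_le_mul_of_nonneg_left h (by positivity : 0 ≤ (1 + s) ^ 2 * (X - Y) ^ 2 *
    ((1 + X ^ 2) * (1 + Y ^ 2)))
  calc r ^ 2 * ((1 + s) ^ 2 * (X - Y) ^ 2) * ((1 + X ^ 2) * (1 + Y ^ 2)) ^ 2 =
      (1 + s) ^ 2 * (X - Y) ^ 2 * ((1 + X ^ 2) * (1 + Y ^ 2)) *
        (r ^ 2 * ((1 + X ^ 2) * (1 + Y ^ 2))) := by ring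
    _ ≤ _ := h2
    _ = ((1 + s) * (X - Y) * (1 + s * (X * Y))) ^ 2 * ((1 + X ^ 2) * (1 + Y ^ 2)) := by ring

/-- consecutive points with ratio `q` -/
theorem ratio_ok {s q X : ℝ} (hs : 1 ≤ s) (hq0 : 0 < q) (hq : 1 + q ^ 2 ≤ 2 * s * q) :
    0 ≤ 1 + s * (X * (q * X)) ∧
      1 ^ 2 * ((1 + X ^ 2) * (1 + (q * X) ^ 2)) ≤ (1 + s * (X * (q * X))) ^ 2 := by
  have h1 : 0 ≤ s * (X * (q * X)) := by
    have : X * (q * X) = q * X ^ 2 := by ring
    rw [this]
    positivity
  refine ⟨by linarith, ?_⟩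
  have h2 : 1 ≤ s ^ 2 := by nlinarith
  have h3 : 0 ≤ X ^ 2 := sq_nonneg X
  have h4 : 0 ≤ q ^ 2 * X ^ 4 := by positivity
  nlinarith [mul_le_mul_of_nonneg_right hq h3, mul_le_mul_of_nonneg_right h2 h4]

/-- points of the circle are inside the circumcircle -/
theorem PP_circ {s X R : ℝ} (hs : 0 ≤ s) (hR : 1 + s ≤ 2 * R) : ‖PP s X - (-((R : ℂ) - 1))‖ ≤ R := by
  have hR0 : 0 ≤ R := by linarith
  apply le_of_sq_le_sq _ hR0
  have e : PP s X - (-((R : ℂ) - 1)) =
      (⟨(PP s X).re + (R - 1), (PP s X).im⟩ : ℂ) := by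
    apply Complex.ext
    · simp
      ring
    · simp
  rw [e, normSq']
  have h1 := (den_pos X).ne'
  have key : R ^ 2 - (((PP s X).re + (R - 1)) ^ 2 + (PP s X).im ^ 2) =
      (1 + s) * X ^ 2 * (2 * R - (1 + s)) / (1 + X ^ 2) := by
    unfold PP
    simp only
    field_simp
    ring
  have h2 : 0 ≤ (1 + s) * X ^ 2 * (2 * R - (1 + s)) / (1 + X ^ 2) := by
    have : 0 ≤ 2 * R - (1 + s) := by linarith
    have := den_pos X
    positivity
  simp only
  linarith

/-- quadratic polynomials on an interval -/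
theorem bern {α β γ a b x : ℝ} (hax : a ≤ x) (hxb : x ≤ b) (hab : a < b)
    (h0 : 0 ≤ α + β * a + γ * a ^ 2) (h2 : 0 ≤ α + β * b + γ * b ^ 2)
    (h1 : 0 ≤ 2 * α + β * (a + b) + 2 * γ * (a * b)) : 0 ≤ α + β * x + γ * x ^ 2 := by
  have e : (b - a) ^ 2 * (α + β * x + γ * x ^ 2) = (b - x) ^ 2 * (α + β * a + γ * a ^ 2) +
      (x - a) * (b - x) * (2 * α + β * (a + b) + 2 * γ * (a * b)) +
      (x - a) ^ 2 * (α + β * b + γ * b ^ 2) := by ring
  have h3 : 0 ≤ (x - a) * (b - x) := mul_nonneg (by linarith) (by linarith)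
  have h4 : 0 ≤ (b - a) ^ 2 * (α + β * x + γ * x ^ 2) := by
    rw [e]
    positivity
  exact nonneg_of_mul_nonneg_right h4 (by nlinarith)

theorem bern_pos {α β γ a b x : ℝ} (hax : a ≤ x) (hxb : x ≤ b) (hab : a < b)
    (h0 : 0 < α + β * a + γ * a ^ 2) (h2 : 0 < α + β * b + γ * b ^ 2)
    (h1 : 0 ≤ 2 * α + β * (a + b) + 2 * γ * (a * b)) : 0 < α + β * x + γ * x ^ 2 := by
  have e : (b - a) ^ 2 * (α + β * x + γ * x ^ 2) = (b - x) ^ 2 * (α + β * a + γ * a ^ 2) +
      (x - a) * (b - x) * (2 * α + β * (a + b) + 2 * γ * (a * b)) +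
      (x - a) ^ 2 * (α + β * b + γ * b ^ 2) := by ring
  have h3 : 0 ≤ (x - a) * (b - x) := mul_nonneg (by linarith) (by linarith)
  have h4 : 0 < (b - a) ^ 2 * (α + β * x + γ * x ^ 2) := by
    rw [e]
    have h5 : 0 ≤ (x - a) * (b - x) * (2 * α + β * (a + b) + 2 * γ * (a * b)) := mul_nonneg h3 h1
    rcases eq_or_lt_of_le hax with h6 | h6
    · have : 0 < (b - x) ^ 2 * (α + β * a + γ * a ^ 2) := mul_pos (by nlinarith) h0
      have : 0 ≤ (x - a) ^ 2 * (α + β * b + γ * b ^ 2) := by positivity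
      linarith
    · have : 0 < (x - a) ^ 2 * (α + β * b + γ * b ^ 2) := mul_pos (by nlinarith) h2
      have : 0 ≤ (b - x) ^ 2 * (α + β * a + γ * a ^ 2) := by positivity
      linarith
  exact (pos_iff_pos_of_mul_pos h4).1 (by nlinarith)

/-! ### edges of a concatenation -/

/-- edges of an open path -/
def pedges {α : Type} (L : List α) : List (α × α) := L.zip L.tail

theorem mem_pedges {α : Type} {L : List α} {e : α × α} : e ∈ pedges L ↔
    ∃ (i : ℕ) (hi : i + 1 < L.length), e = (L[i], L[i + 1]) := by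
  unfold pedges
  rw [List.mem_iff_getElem]
  constructor
  · rintro ⟨i, hi, rfl⟩
    have hi' : i + 1 < L.length := by
      rw [List.length_zip, List.length_tail] at hi
      omega
    refine ⟨i, hi', ?_⟩
    rw [List.getElem_zip, List.getElem_tail]
  · rintro ⟨i, hi, rfl⟩
    refine ⟨i, by rw [List.length_zip, List.length_tail]; omega, ?_⟩
    rw [List.getElem_zip, List.getElem_tail]

theorem edges_append (F G : List ℂ) (hF : F ≠ []) (hG : G ≠ []) {e : ℂ × ℂ}
    (he : e ∈ edges (F ++ G)) : e ∈ pedges F ∨ e = (F.getLast hF, G.head hG) ∨ e ∈ pedges G ∨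
      e = (G.getLast hG, F.head hF) := by
  rw [mem_edges_iff] at he
  obtain ⟨i, hi, rfl⟩ := he
  have hFl : 0 < F.length := List.length_pos_iff.2 hF
  have hGl : 0 < G.length := List.length_pos_iff.2 hG
  have hn : (F ++ G).length = F.length + G.length := List.length_append
  rcases lt_trichotomy (i + 1) F.length with h | h | h
  · left
    rw [mem_pedges]
    refine ⟨i, h, ?_⟩
    have e1 : (i + 1) % (F ++ G).length = i + 1 := Nat.mod_eq_of_lt (by omega)
    simp only [e1]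
    rw [List.getElem_append_left (by omega), List.getElem_append_left h]
  · right; left
    have e1 : (i + 1) % (F ++ G).length = i + 1 := Nat.mod_eq_of_lt (by omega)
    simp only [e1]
    rw [List.getElem_append_left (by omega), List.getElem_append_right (by omega),
      List.getLast_eq_getElem, List.head_eq_getElem]
    congr 1
    · congr 1
      omega
    · congr 1
      omega
  · rcases Nat.lt_or_ge (i + 1) (F ++ G).length with h2 | h2
    · right; right; left
      rw [mem_pedges]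
      refine ⟨i - F.length, by omega, ?_⟩
      have e1 : (i + 1) % (F ++ G).length = i + 1 := Nat.mod_eq_of_lt h2
      simp only [e1]
      rw [List.getElem_append_right (by omega), List.getElem_append_right (by omega)]
      congr 1
      congr 1
      omega
    · right; right; right
      have e2 : i + 1 = (F ++ G).length := by omega
      have e1 : (i + 1) % (F ++ G).length = 0 := by rw [e2, Nat.mod_self]
      simp only [e1]
      rw [List.getElem_append_right (by omega), List.getElem_append_left hFl,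
        List.getLast_eq_getElem, List.head_eq_getElem]
      congr 1
      congr 1
      omega

/-! ### towers -/

/-- parameters of the vertices of a tower -/
noncomputable def tg (q XL XR : ℝ) (m i : ℕ) : ℝ :=
  if i ≤ m then XR * q ^ i else XL * q ^ (2 * m + 1 - i)

/-- the vertices of a tower -/
noncomputable def tow (s q XL XR : ℝ) (m : ℕ) : List ℂ :=
  (List.range (2 * m + 2)).map fun i => PP s (tg q XL XR m i)

/-- the hypotheses on the remaining vertices -/
structure TD (s q XL XR R : ℝ) (F : List ℂ) : Prop where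
  s1 : 1 ≤ s
  q0 : 0 < q
  q1 : q < 1
  qs : 1 + q ^ 2 ≤ 2 * s * q
  hR : 1 + s ≤ 2 * R
  hL : XL < 0
  hRt : 0 < XR
  ne : F ≠ []
  nodup : F.Nodup
  ff : ∀ e ∈ pedges F, ∀ f ∈ F, 0 ≤ cr e.1 e.2 f
  fP : ∀ e ∈ pedges F, ∀ X, XL ≤ X → X ≤ XR → 0 ≤ cr e.1 e.2 (PP s X)
  j1 : ∀ f ∈ F, 0 ≤ cr (F.getLast ne) (PP s XR) f
  j1P : ∀ X, XL ≤ X → X ≤ XR → 0 ≤ GG s XR X (F.getLast ne)
  j2 : ∀ f ∈ F, 0 ≤ cr (PP s XL) (F.head ne) f
  j2P : ∀ X, XL ≤ X → X ≤ XR → 0 ≤ GG s X XL (F.head ne)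
  tR : ∀ v ∈ F, ∀ X, 0 < X → X ≤ XR → 0 < GG s X (q * X) v
  tL : ∀ v ∈ F, ∀ X, XL ≤ X → X < 0 → 0 < GG s (q * X) X v
  tC : ∀ v ∈ F, ∀ t, 0 < t → t ≤ 1 → 0 < GG s (XR * t) (XL * t) v
  cen : ∀ e ∈ pedges F, ‖e.2 - e.1‖ ≤ cr e.1 e.2 0
  cen1 : ‖PP s XR - F.getLast ne‖ ≤ cr (F.getLast ne) (PP s XR) 0
  cen2 : ‖F.head ne - PP s XL‖ ≤ cr (PP s XL) (F.head ne) 0
  circ : ∀ f ∈ F, ‖f - (-((R : ℂ) - 1))‖ ≤ R

/-- the cap condition -/
def Cap (s q XL XR r : ℝ) (m : ℕ) : Prop :=
  0 ≤ 1 + s * (XR * q ^ m * (XL * q ^ m)) ∧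
    r ^ 2 * ((1 + (XR * q ^ m) ^ 2) * (1 + (XL * q ^ m) ^ 2)) ≤
      (1 + s * (XR * q ^ m * (XL * q ^ m))) ^ 2

theorem cap_ev {s q XL XR r : ℝ} (hq0 : 0 < q) (hq1 : q < 1) (hr0 : 0 < r) (hr : r < 1) :
    ∃ m₀ : ℕ, ∀ m, m₀ ≤ m → Cap s q XL XR r m := by
  have h0 : Tendsto (fun m : ℕ => q ^ m) atTop (𝓝 0) := tendsto_pow_atTop_nhds_zero_of_lt_one hq0.le hq1
  have hX : Tendsto (fun m : ℕ => XR * q ^ m) atTop (𝓝 0) := by simpa using h0.const_mul XR
  have hY : Tendsto (fun m : ℕ => XL * q ^ m) atTop (𝓝 0) := by simpa using h0.const_mul XL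
  have h1 : Tendsto (fun m : ℕ => 1 + s * (XR * q ^ m * (XL * q ^ m))) atTop (𝓝 1) := by
    have := ((hX.mul hY).const_mul s).const_add 1
    simpa using this
  have h2 : Tendsto (fun m : ℕ => r ^ 2 * ((1 + (XR * q ^ m) ^ 2) * (1 + (XL * q ^ m) ^ 2))) atTop
      (𝓝 (r ^ 2)) := by
    have := (((hX.pow 2).const_add 1).mul ((hY.pow 2).const_add 1)).const_mul (r ^ 2)
    simpa using this
  have h3 : Tendsto (fun m : ℕ => (1 + s * (XR * q ^ m * (XL * q ^ m))) ^ 2) atTop (𝓝 1) := by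
    simpa using h1.pow 2
  have h4 : r ^ 2 < 1 := by nlinarith
  have e1 : ∀ᶠ m : ℕ in atTop, 0 ≤ 1 + s * (XR * q ^ m * (XL * q ^ m)) :=
    (h1.eventually (lt_mem_nhds (zero_lt_one))).mono fun m hm => le_of_lt hm
  have e2 := h2.eventually_lt h3 h4
  obtain ⟨m₀, hm₀⟩ := eventually_atTop.1 (e1.and e2)
  exact ⟨m₀, fun m hm => ⟨(hm₀ m hm).1, (hm₀ m hm).2.le⟩⟩

section

variable {s q XL XR R : ℝ} {F : List ℂ}

theorem tg_range (h : TD s q XL XR R F) (m i : ℕ) (hi : i < 2 * m + 2) :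
    XL ≤ tg q XL XR m i ∧ tg q XL XR m i ≤ XR := by
  have hq : ∀ k : ℕ, 0 < q ^ k ∧ q ^ k ≤ 1 := fun k =>
    ⟨pow_pos h.q0 k, pow_le_one₀ h.q0.le h.q1.le⟩
  have hL := h.hL
  have hRt := h.hRt
  unfold tg
  split_ifs with h1
  · obtain ⟨a, b⟩ := hq i
    constructor <;> nlinarith
  · obtain ⟨a, b⟩ := hq (2 * m + 1 - i)
    constructor <;> nlinarith

theorem tg_lt (h : TD s q XL XR R F) (m i : ℕ) (hi : i + 1 < 2 * m + 2) :
    tg q XL XR m (i + 1) < tg q XL XR m i := by
  have hq : ∀ k : ℕ, 0 < q ^ k := fun k => pow_pos h.q0 k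
  have hL := h.hL
  have hRt := h.hRt
  have hq1 := h.q1
  unfold tg
  split_ifs with h1 h2 h2
  · rw [pow_succ]
    have := mul_pos hRt (hq i)
    nlinarith
  · omega
  · have a1 := mul_pos hRt (hq i)
    have a2 := hq (2 * m + 1 - (i + 1))
    nlinarith
  · have e : 2 * m + 1 - i = 2 * m + 1 - (i + 1) + 1 := by omega
    rw [e, pow_succ]
    have a2 := hq (2 * m + 1 - (i + 1))
    have a3 : XL * q ^ (2 * m + 1 - (i + 1)) < 0 := mul_neg_of_neg_of_pos hL a2
    nlinarith

theorem tg_anti (h : TD s q XL XR R F) (m : ℕ) : ∀ i j : ℕ, i < j → j < 2 * m + 2 →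
    tg q XL XR m j < tg q XL XR m i := by
  intro i j hij hj
  induction j with
  | zero => omega
  | succ j ih =>
    rcases Nat.lt_or_ge i j with h1 | h1
    · exact (tg_lt h m j hj).trans (ih h1 (by omega))
    · have : i = j := by omega
      rw [this]
      exact tg_lt h m j hj

theorem tg_step (h : TD s q XL XR R F) (m i : ℕ) (hi : i + 1 < 2 * m + 2) :
    (∃ X, 0 < X ∧ X ≤ XR ∧ tg q XL XR m i = X ∧ tg q XL XR m (i + 1) = q * X) ∨
    (∃ X, XL ≤ X ∧ X < 0 ∧ tg q XL XR m i = q * X ∧ tg q XL XR m (i + 1) = X) ∨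
    (tg q XL XR m i = XR * q ^ m ∧ tg q XL XR m (i + 1) = XL * q ^ m) := by
  have hq : ∀ k : ℕ, 0 < q ^ k ∧ q ^ k ≤ 1 := fun k =>
    ⟨pow_pos h.q0 k, pow_le_one₀ h.q0.le h.q1.le⟩
  have hL := h.hL
  have hRt := h.hRt
  rcases lt_trichotomy i m with h1 | h1 | h1
  · left
    refine ⟨XR * q ^ i, mul_pos hRt (hq i).1, ?_, ?_, ?_⟩
    · have := hq i
      nlinarith
    · unfold tg
      rw [if_pos h1.le]
    · unfold tg
      rw [if_pos (by omega), pow_succ]
      ring
  · right; right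
    subst h1
    unfold tg
    rw [if_pos le_rfl, if_neg (by omega)]
    refine ⟨rfl, ?_⟩
    congr 2
    omega
  · right; left
    refine ⟨XL * q ^ (2 * m + 1 - (i + 1)), ?_, ?_, ?_, ?_⟩
    · have := hq (2 * m + 1 - (i + 1))
      nlinarith
    · exact mul_neg_of_neg_of_pos hL (hq _).1
    · unfold tg
      rw [if_neg (by omega)]
      have e : 2 * m + 1 - i = 2 * m + 1 - (i + 1) + 1 := by omega
      rw [e, pow_succ]
      ring
    · unfold tg
      rw [if_neg (by omega)]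

theorem GG_tow (h : TD s q XL XR R F) (m i : ℕ) (hi : i + 1 < 2 * m + 2) (v : ℂ) (hv : v ∈ F) :
    0 < GG s (tg q XL XR m i) (tg q XL XR m (i + 1)) v := by
  rcases tg_step h m i hi with ⟨X, h1, h2, h3, h4⟩ | ⟨X, h1, h2, h3, h4⟩ | ⟨h3, h4⟩
  · rw [h3, h4]
    exact h.tR v hv X h1 h2
  · rw [h3, h4]
    exact h.tL v hv X h1 h2
  · rw [h3, h4]
    exact h.tC v hv (q ^ m) (pow_pos h.q0 m) (pow_le_one₀ h.q0.le h.q1.le)

theorem tow_ne (s q XL XR : ℝ) (m : ℕ) : tow s q XL XR m ≠ [] := by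
  intro h
  have := congrArg List.length h
  simp [tow] at this

theorem tow_head (s q XL XR : ℝ) (m : ℕ) (h : tow s q XL XR m ≠ []) :
    (tow s q XL XR m).head h = PP s XR := by
  rw [List.head_eq_getElem]
  simp [tow, tg]

theorem tow_last (s q XL XR : ℝ) (m : ℕ) (h : tow s q XL XR m ≠ []) :
    (tow s q XL XR m).getLast h = PP s XL := by
  rw [List.getLast_eq_getElem]
  simp only [tow, List.getElem_map, List.getElem_range, List.length_map, List.length_range]
  congr 1
  unfold tg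
  rw [if_neg (by omega)]
  have : 2 * m + 1 - (2 * m + 2 - 1) = 0 := by omega
  rw [this]
  simp

theorem mem_tow {m : ℕ} {z : ℂ} : z ∈ tow s q XL XR m ↔ ∃ i < 2 * m + 2, z = PP s (tg q XL XR m i) := by
  unfold tow
  rw [List.mem_map]
  constructor
  · rintro ⟨i, hi, rfl⟩
    exact ⟨i, List.mem_range.1 hi, rfl⟩
  · rintro ⟨i, hi, rfl⟩
    exact ⟨i, List.mem_range.2 hi, rfl⟩

theorem mem_pedges_tow {m : ℕ} {e : ℂ × ℂ} (he : e ∈ pedges (tow s q XL XR m)) :
    ∃ i, i + 1 < 2 * m + 2 ∧ e = (PP s (tg q XL XR m i), PP s (tg q XL XR m (i + 1))) := by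
  rw [mem_pedges] at he
  obtain ⟨i, hi, rfl⟩ := he
  have hl : (tow s q XL XR m).length = 2 * m + 2 := by simp [tow]
  refine ⟨i, by omega, ?_⟩
  simp only [tow, List.getElem_map, List.getElem_range]

theorem PP_inj (hs : 0 < 1 + s) {X Y : ℝ} (h : PP s X = PP s Y) : X = Y := by
  have h1 := norm_PP s X Y
  rw [h, sub_self, norm_zero] at h1
  have h2 : (1 + s) ^ 2 * (X - Y) ^ 2 = 0 := by
    have hD : 0 < (1 + X ^ 2) * (1 + Y ^ 2) := mul_pos (den_pos X) (den_pos Y)
    rw [eq_div_iff hD.ne'] at h1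
    linarith
  rcases mul_eq_zero.1 h2 with h3 | h3
  · exact absurd h3 (by positivity)
  · exact sub_eq_zero.1 (pow_eq_zero_iff (two_ne_zero) |>.1 h3)

/-- the certificate of a critical piece -/
theorem tower_cert (h : TD s q XL XR R F) {r : ℝ} (hr0 : 0 < r) (hr1 : r ≤ 1) {m : ℕ}
    (hcap : Cap s q XL XR r m) : Cert (R / r) (F ++ tow s q XL XR m) := by
  have hs0 : 0 ≤ s := by linarith [h.s1]
  have hs : 0 < 1 + s := by linarith
  have hT := tow_ne s q XL XR m
  have hR0 : 0 < R := by linarith [h.hR]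
  have hin := tg_range h m
  -- distinct vertices
  have hdis : ∀ f ∈ F, ∀ i < 2 * m + 2, f ≠ PP s (tg q XL XR m i) := by
    intro f hf i hi heq
    rcases Nat.lt_or_ge (i + 1) (2 * m + 2) with h1 | h1
    · have h2 := GG_tow h m i h1 f hf
      rw [heq, GG_PP, sub_self, mul_zero, mul_zero, zero_div] at h2
      exact lt_irrefl _ h2
    · have h2 := GG_tow h m (i - 1) (by omega) f hf
      have h3 : i - 1 + 1 = i := by omega
      rw [h3, heq, GG_PP, sub_self, zero_mul, mul_zero, zero_div] at h2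
      exact lt_irrefl _ h2
  have hnd : (F ++ tow s q XL XR m).Nodup := by
    rw [List.nodup_append]
    refine ⟨h.nodup, ?_, ?_⟩
    · unfold tow
      refine List.Nodup.map_on ?_ List.nodup_range
      intro i hi j hj hij
      rw [List.mem_range] at hi hj
      have h1 := PP_inj hs hij
      rcases lt_trichotomy i j with h2 | h2 | h2
      · exact absurd h1 (tg_anti h m i j h2 hj).ne'
      · exact h2
      · exact absurd h1 (tg_anti h m j i h2 hi).ne
    · intro a ha b hb hab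
      obtain ⟨i, hi, rfl⟩ := mem_tow.1 hb
      exact hdis a ha i hi hab
  -- the centre
  have hcen : ∀ e ∈ edges (F ++ tow s q XL XR m), r * ‖e.2 - e.1‖ ≤ cr e.1 e.2 0 := by
    intro e he
    have hle : ∀ x : ℝ, 0 ≤ x → r * x ≤ x := fun x hx => by nlinarith
    rcases edges_append F _ h.ne hT he with h1 | h1 | h1 | h1
    · exact (hle _ (norm_nonneg _)).trans (h.cen e h1)
    · rw [h1, tow_head]
      exact (hle _ (norm_nonneg _)).trans h.cen1
    · obtain ⟨i, hi, rfl⟩ := mem_pedges_tow h1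
      simp only
      rcases tg_step h m i hi with ⟨X, a1, a2, a3, a4⟩ | ⟨X, a1, a2, a3, a4⟩ | ⟨a3, a4⟩
      · rw [a3, a4]
        obtain ⟨b1, b2⟩ := ratio_ok (X := X) h.s1 h.q0 h.qs
        have := tower_edge (X := X) (Y := q * X) hs0 (by nlinarith [h.q1]) zero_le_one b1 b2
        rw [one_mul] at this
        exact (hle _ (norm_nonneg _)).trans this
      · rw [a3, a4]
        obtain ⟨b1, b2⟩ := ratio_ok (X := X) h.s1 h.q0 h.qs
        have c1 : q * X * X = X * (q * X) := by ring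
        have := tower_edge (s := s) (X := q * X) (Y := X) hs0 (by nlinarith [h.q1]) zero_le_one
          (by rw [c1]; exact b1) (by rw [c1, mul_comm (1 + (q * X) ^ 2)]; exact b2)
        rw [one_mul] at this
        exact (hle _ (norm_nonneg _)).trans this
      · rw [a3, a4]
        refine tower_edge hs0 ?_ hr0.le hcap.1 hcap.2
        have := pow_pos h.q0 m
        nlinarith [h.hL, h.hRt]
    · rw [h1, tow_last]
      exact (hle _ (norm_nonneg _)).trans h.cen2
  have hlen : 2 ≤ (F ++ tow s q XL XR m).length := by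
    rw [List.length_append]
    have : (tow s q XL XR m).length = 2 * m + 2 := by simp [tow]
    omega
  refine ⟨⟨hnd, ?_, ⟨0, ?_⟩, ?_⟩, 0, -((R : ℂ) - 1), r, R, hr0, ?_, hcen, ?_⟩
  · -- convexity
    intro e he v hv
    rcases edges_append F _ h.ne hT he with h1 | h1 | h1 | h1
    · rcases List.mem_append.1 hv with h2 | h2
      · exact h.ff e h1 v h2
      · obtain ⟨i, hi, rfl⟩ := mem_tow.1 h2
        exact h.fP e h1 _ (hin i hi).1 (hin i hi).2
    · rw [h1, tow_head]
      rcases List.mem_append.1 hv with h2 | h2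
      · exact h.j1 v h2
      · obtain ⟨i, hi, rfl⟩ := mem_tow.1 h2
        show 0 ≤ cr (F.getLast h.ne) (PP s XR) (PP s (tg q XL XR m i))
        rw [cr_cyc, cr_PPV]
        have a1 := h.j1P _ (hin i hi).1 (hin i hi).2
        have a2 : 0 ≤ XR - tg q XL XR m i := by linarith [(hin i hi).2]
        have a3 : 0 < (1 + XR ^ 2) * (1 + (tg q XL XR m i) ^ 2) := mul_pos (den_pos _) (den_pos _)
        positivity
    · obtain ⟨i, hi, rfl⟩ := mem_pedges_tow h1
      simp only
      rw [cr_PPV]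
      have a2 : 0 ≤ tg q XL XR m i - tg q XL XR m (i + 1) := by linarith [tg_lt h m i hi]
      have a3 : 0 < (1 + (tg q XL XR m i) ^ 2) * (1 + (tg q XL XR m (i + 1)) ^ 2) :=
        mul_pos (den_pos _) (den_pos _)
      have a4 : 0 ≤ GG s (tg q XL XR m i) (tg q XL XR m (i + 1)) v := by
        rcases List.mem_append.1 hv with h2 | h2
        · exact (GG_tow h m i hi v h2).le
        · obtain ⟨j, hj, rfl⟩ := mem_tow.1 h2
          rw [GG_PP]
          have b1 := den_pos (tg q XL XR m j)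
          have b2 : 0 ≤ (tg q XL XR m (i + 1) - tg q XL XR m j) * (tg q XL XR m i - tg q XL XR m j) := by
            rcases lt_trichotomy j i with c1 | c1 | c1
            · have d1 := tg_anti h m j i c1 (by omega)
              have d2 := tg_lt h m i hi
              exact mul_nonneg_of_nonpos_of_nonpos (by linarith) (by linarith)
            · rw [c1, sub_self, mul_zero]
            · rcases Nat.lt_or_ge (i + 1) j with c2 | c2
              · have d1 := tg_anti h m (i + 1) j c2 hj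
                have d2 := tg_lt h m i hi
                exact mul_nonneg (by linarith) (by linarith)
              · have : j = i + 1 := by omega
                rw [this, sub_self, zero_mul]
          positivity
      positivity
    · rw [h1, tow_last]
      rcases List.mem_append.1 hv with h2 | h2
      · exact h.j2 v h2
      · obtain ⟨i, hi, rfl⟩ := mem_tow.1 h2
        show 0 ≤ cr (PP s XL) (F.head h.ne) (PP s (tg q XL XR m i))
        rw [cr_cyc, cr_cyc, cr_PPV]
        have a1 := h.j2P _ (hin i hi).1 (hin i hi).2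
        have a2 : 0 ≤ tg q XL XR m i - XL := by linarith [(hin i hi).1]
        have a3 : 0 < (1 + (tg q XL XR m i) ^ 2) * (1 + XL ^ 2) := mul_pos (den_pos _) (den_pos _)
        positivity
  · intro e he
    have h1 := hcen e he
    rw [mem_edges_iff] at he
    obtain ⟨i, hi, rfl⟩ := he
    refine lt_of_lt_of_le (mul_pos hr0 ?_) h1
    rw [norm_pos_iff, sub_ne_zero]
    intro heq
    have h2 := (hnd.getElem_inj_iff).1 heq
    by_cases h3 : i + 1 < (F ++ tow s q XL XR m).length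
    · rw [Nat.mod_eq_of_lt h3] at h2
      omega
    · have h4 : i + 1 = (F ++ tow s q XL XR m).length := by omega
      rw [h4, Nat.mod_self] at h2
      omega
  · intro h0
    exact h.ne (List.append_eq_nil_iff.1 h0).1
  · rw [div_mul_cancel₀ _ hr0.ne']
  · intro v hv
    rcases List.mem_append.1 hv with h2 | h2
    · exact h.circ v h2
    · obtain ⟨i, hi, rfl⟩ := mem_tow.1 h2
      exact PP_circ hs0 h.hR

end

end Pool.Agent.Helper37.CP
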