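import Pool.Agent.Helper37.CP.Names

/-! The certificate of the special pieces (general list of points on the circle). -/

set_option autoImplicit false

namespace Pool.Agent.Helper37.CP

open Metric Set

/-- polar form of `(1 + X ^ 2) * cr p q (PP s X)` -/
noncomputable def CRp (s X Y : ℝ) (p q : ℂ) : ℝ :=
  (q.re - p.re) * (-((1 + s) * (X + Y)) / 2 - p.im * (1 + X * Y)) -
    (q.im - p.im) * (1 - s * (X * Y) - p.re * (1 + X * Y))

theorem CRp_diag (s X : ℝ) (p q : ℂ) : CRp s X X p q = (1 + X ^ 2) * cr p q (PP s X) := by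
  have h1 := (den_pos X).ne'
  unfold CRp cr PP
  field_simp
  ring

theorem CRp_pos {s XL XR X : ℝ} {p q : ℂ} (h1 : XL ≤ X) (h2 : X ≤ XR) (h3 : XL < XR)
    (hR : 0 ≤ CRp s XR XR p q) (hL : 0 ≤ CRp s XL XL p q) (hM : 0 ≤ CRp s XR XL p q) :
    0 ≤ cr p q (PP s X) := by
  have e : (XR - XL) ^ 2 * CRp s X X p q = (X - XL) ^ 2 * CRp s XR XR p q +
      2 * ((X - XL) * (XR - X)) * CRp s XR XL p q + (XR - X) ^ 2 * CRp s XL XL p q := by
    unfold CRp
    ring
  have a1 : 0 ≤ X - XL := by linarith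
  have a2 : 0 ≤ XR - X := by linarith
  have a3 : 0 < (XR - XL) ^ 2 := by
    have : 0 < XR - XL := by linarith
    positivity
  have h4 : 0 ≤ (XR - XL) ^ 2 * CRp s X X p q := by
    rw [e]
    positivity
  have h5 : 0 ≤ CRp s X X p q := by
    by_contra hc
    push Not at hc
    have := mul_neg_of_pos_of_neg a3 hc
    linarith
  rw [CRp_diag] at h5
  by_contra hc
  push Not at hc
  have := mul_neg_of_pos_of_neg (den_pos X) hc
  linarith

theorem GG_pos {s XL XR X Y : ℝ} {v : ℂ} (h1 : XL ≤ X) (h2 : X ≤ XR) (k1 : XL ≤ Y) (k2 : Y ≤ XR)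
    (h3 : XL < XR) (hR : 0 < GG s XR XR v) (hL : 0 < GG s XL XL v) (hM : 0 < GG s XR XL v) :
    0 < GG s X Y v := by
  have e : (XR - XL) ^ 2 * GG s X Y v = (X - XL) * (Y - XL) * GG s XR XR v +
      ((X - XL) * (XR - Y) + (XR - X) * (Y - XL)) * GG s XR XL v +
      (XR - X) * (XR - Y) * GG s XL XL v := by
    unfold GG
    ring
  have a1 : 0 ≤ X - XL := by linarith
  have a2 : 0 ≤ XR - X := by linarith
  have b1 : 0 ≤ Y - XL := by linarith
  have b2 : 0 ≤ XR - Y := by linarith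
  have a3 : 0 < XR - XL := by linarith
  set m := min (GG s XR XR v) (min (GG s XR XL v) (GG s XL XL v)) with hm
  have hm0 : 0 < m := lt_min hR (lt_min hM hL)
  have m1 : m ≤ GG s XR XR v := min_le_left _ _
  have m2 : m ≤ GG s XR XL v := (min_le_right _ _).trans (min_le_left _ _)
  have m3 : m ≤ GG s XL XL v := (min_le_right _ _).trans (min_le_right _ _)
  have h4 : (XR - XL) ^ 2 * m ≤ (XR - XL) ^ 2 * GG s X Y v := by
    rw [e]
    have c1 := mul_le_mul_of_nonneg_left m1 (mul_nonneg a1 b1)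
    have c2 := mul_le_mul_of_nonneg_left m2
      (add_nonneg (mul_nonneg a1 b2) (mul_nonneg a2 b1))
    have c3 := mul_le_mul_of_nonneg_left m3 (mul_nonneg a2 b2)
    have c4 : (XR - XL) ^ 2 * m = (X - XL) * (Y - XL) * m +
      ((X - XL) * (XR - Y) + (XR - X) * (Y - XL)) * m + (XR - X) * (XR - Y) * m := by ring
    rw [c4]
    linarith
  have h5 := le_of_mul_le_mul_left h4 (by positivity)
  linarith

/-- the hypotheses on the remaining vertices -/
structure TD2 (s XL XR R : ℝ) (F : List ℂ) : Prop where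
  s1 : 1 ≤ s
  hR : 1 + s ≤ 2 * R
  hLR : XL < XR
  ne : F ≠ []
  nodup : F.Nodup
  ff : ∀ e ∈ pedges F, ∀ f ∈ F, 0 ≤ cr e.1 e.2 f
  fP : ∀ e ∈ pedges F, 0 ≤ CRp s XR XR e.1 e.2 ∧ 0 ≤ CRp s XL XL e.1 e.2 ∧ 0 ≤ CRp s XR XL e.1 e.2
  gg : ∀ v ∈ F, 0 < GG s XR XR v ∧ 0 < GG s XL XL v ∧ 0 < GG s XR XL v
  j1 : ∀ f ∈ F, 0 ≤ cr (F.getLast ne) (PP s XR) f
  j2 : ∀ f ∈ F, 0 ≤ cr (PP s XL) (F.head ne) f
  cen : ∀ e ∈ pedges F, ‖e.2 - e.1‖ ≤ cr e.1 e.2 0
  cen1 : ‖PP s XR - F.getLast ne‖ ≤ cr (F.getLast ne) (PP s XR) 0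
  cen2 : ‖F.head ne - PP s XL‖ ≤ cr (PP s XL) (F.head ne) 0
  circ : ∀ f ∈ F, ‖f - (-((R : ℂ) - 1))‖ ≤ R

/-- admissible consecutive parameters -/
def Gd (s r : ℝ) (X Y : ℝ) : Prop :=
  Y < X ∧ 0 ≤ 1 + s * (X * Y) ∧ r ^ 2 * ((1 + X ^ 2) * (1 + Y ^ 2)) ≤ (1 + s * (X * Y)) ^ 2

/-- the hypotheses on the list of parameters -/
structure TX (s XL XR r : ℝ) (Xs : List ℝ) : Prop where
  ne : Xs ≠ []
  head : Xs.head ne = XR
  last : Xs.getLast ne = XL
  step : ∀ e ∈ pedges Xs, Gd s r e.1 e.2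

section

variable {s XL XR R r : ℝ} {F : List ℂ} {Xs : List ℝ}

theorem pedges_map {α β : Type} (f : α → β) (L : List α) :
    pedges (L.map f) = (pedges L).map (Prod.map f f) := by
  unfold pedges
  rw [← List.map_tail, List.zip_map]

theorem TX.anti (h : TX s XL XR r Xs) : ∀ (i j : ℕ) (hj : j < Xs.length) (hij : i < j),
    Xs[j] < Xs[i]'(by omega) := by
  intro i j
  induction j with
  | zero => intro _ h; omega
  | succ j ih =>
    intro hj hij
    have h1 : (Xs[j]'(by omega), Xs[j + 1]) ∈ pedges Xs := by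
      rw [mem_pedges]
      exact ⟨j, hj, rfl⟩
    have h2 := (h.step _ h1).1
    simp only at h2
    rcases Nat.lt_or_ge i j with h3 | h3
    · exact h2.trans (ih (by omega) h3)
    · have : i = j := by omega
      subst this
      exact h2

theorem TX.range (h : TX s XL XR r Xs) {X : ℝ} (hX : X ∈ Xs) : XL ≤ X ∧ X ≤ XR := by
  obtain ⟨i, hi, rfl⟩ := List.mem_iff_getElem.1 hX
  constructor
  · rw [← h.last, List.getLast_eq_getElem]
    rcases Nat.lt_or_ge i (Xs.length - 1) with h1 | h1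
    · exact (h.anti i (Xs.length - 1) (by omega) h1).le
    · have : i = Xs.length - 1 := by omega
      subst this
      exact le_refl _
  · rw [← h.head, List.head_eq_getElem]
    rcases Nat.eq_zero_or_pos i with h1 | h1
    · subst h1
      exact le_refl _
    · exact (h.anti 0 i hi h1).le

theorem TX.sep (h : TX s XL XR r Xs) {e : ℝ × ℝ} (he : e ∈ pedges Xs) {Z : ℝ} (hZ : Z ∈ Xs) :
    0 ≤ (e.2 - Z) * (e.1 - Z) := by
  obtain ⟨i, hi, rfl⟩ := mem_pedges.1 he
  obtain ⟨j, hj, rfl⟩ := List.mem_iff_getElem.1 hZ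
  simp only
  have h2 := h.anti i (i + 1) hi (by omega)
  rcases lt_trichotomy j i with c1 | c1 | c1
  · have d1 := h.anti j i (by omega) c1
    exact mul_nonneg_of_nonpos_of_nonpos (by linarith) (by linarith)
  · subst c1
    rw [sub_self, mul_zero]
  · rcases Nat.lt_or_ge (i + 1) j with c2 | c2
    · have d1 := h.anti (i + 1) j hj c2
      exact mul_nonneg (by linarith) (by linarith)
    · have : j = i + 1 := by omega
      subst this
      rw [sub_self, zero_mul]

theorem pedge_mem {α : Type} {L : List α} {e : α × α} (he : e ∈ pedges L) : e.1 ∈ L ∧ e.2 ∈ L := by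
  obtain ⟨i, hi, rfl⟩ := mem_pedges.1 he
  exact ⟨List.getElem_mem _, List.getElem_mem _⟩

/-- the certificate of a special piece -/
theorem special_cert (h : TD2 s XL XR R F) (hx : TX s XL XR r Xs) (hr0 : 0 < r) (hr1 : r ≤ 1) :
    Cert (R / r) (F ++ Xs.map (PP s)) := by
  have hs0 : 0 ≤ s := by linarith [h.s1]
  have hs : 0 < 1 + s := by linarith
  have hT : Xs.map (PP s) ≠ [] := by
    intro h0
    exact hx.ne (List.map_eq_nil_iff.1 h0)
  have hhead : (Xs.map (PP s)).head hT = PP s XR := by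
    rw [List.head_map, hx.head]
  have hlast : (Xs.map (PP s)).getLast hT = PP s XL := by
    rw [List.getLast_map, hx.last]
  have hR0 : 0 < R := by linarith [h.hR]
  have hggX : ∀ v ∈ F, ∀ X Y : ℝ, XL ≤ X → X ≤ XR → XL ≤ Y → Y ≤ XR → 0 < GG s X Y v := by
    intro v hv X Y a b c d
    obtain ⟨g1, g2, g3⟩ := h.gg v hv
    exact GG_pos a b c d h.hLR g1 g2 g3
  -- distinct vertices
  have hdis : ∀ f ∈ F, ∀ X ∈ Xs, f ≠ PP s X := by
    intro f hf X hX heq
    obtain ⟨a, b⟩ := hx.range hX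
    have h2 := hggX f hf X X a b a b
    rw [heq, GG_PP, sub_self, mul_zero, mul_zero, zero_div] at h2
    exact lt_irrefl _ h2
  have hXnd : Xs.Nodup := by
    rw [List.nodup_iff_injective_getElem]
    intro i j hij
    simp only at hij
    by_contra hne
    rcases lt_or_gt_of_ne (fun hc => hne (Fin.ext hc) : (i : ℕ) ≠ (j : ℕ)) with h1 | h1
    · exact absurd hij (hx.anti i j j.2 h1).ne'
    · exact absurd hij (hx.anti j i i.2 h1).ne
  have hnd : (F ++ Xs.map (PP s)).Nodup := by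
    rw [List.nodup_append]
    refine ⟨h.nodup, hXnd.map_on ?_, ?_⟩
    · intro X _ Y _ hXY
      exact PP_inj hs hXY
    · intro a ha b hb hab
      obtain ⟨X, hX, rfl⟩ := List.mem_map.1 hb
      exact hdis a ha X hX hab
  -- the centre
  have hle : ∀ x : ℝ, 0 ≤ x → r * x ≤ x := fun x hx => by nlinarith
  have hcen : ∀ e ∈ edges (F ++ Xs.map (PP s)), r * ‖e.2 - e.1‖ ≤ cr e.1 e.2 0 := by
    intro e he
    rcases edges_append F _ h.ne hT he with h1 | h1 | h1 | h1
    · exact (hle _ (norm_nonneg _)).trans (h.cen e h1)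
    · rw [h1, hhead]
      exact (hle _ (norm_nonneg _)).trans h.cen1
    · rw [pedges_map] at h1
      obtain ⟨e', he', rfl⟩ := List.mem_map.1 h1
      obtain ⟨g1, g2, g3⟩ := hx.step e' he'
      exact tower_edge hs0 g1.le hr0.le g2 g3
    · rw [h1, hlast]
      exact (hle _ (norm_nonneg _)).trans h.cen2
  have hlen : 2 ≤ (F ++ Xs.map (PP s)).length := by
    rw [List.length_append, List.length_map]
    have a1 := List.length_pos_iff.2 h.ne
    have a2 := List.length_pos_iff.2 hx.ne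
    omega
  refine ⟨⟨hnd, ?_, ⟨0, ?_⟩, ?_⟩, 0, -((R : ℂ) - 1), r, R, hr0, ?_, hcen, ?_⟩
  · -- convexity
    intro e he v hv
    rcases edges_append F _ h.ne hT he with h1 | h1 | h1 | h1
    · rcases List.mem_append.1 hv with h2 | h2
      · exact h.ff e h1 v h2
      · obtain ⟨X, hX, rfl⟩ := List.mem_map.1 h2
        obtain ⟨a, b⟩ := hx.range hX
        obtain ⟨g1, g2, g3⟩ := h.fP e h1
        exact CRp_pos a b h.hLR g1 g2 g3
    · rw [h1, hhead]
      rcases List.mem_append.1 hv with h2 | h2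
      · exact h.j1 v h2
      · obtain ⟨X, hX, rfl⟩ := List.mem_map.1 h2
        obtain ⟨a, b⟩ := hx.range hX
        show 0 ≤ cr (F.getLast h.ne) (PP s XR) (PP s X)
        rw [cr_cyc, cr_PPV]
        have a1 := (hggX _ (List.getLast_mem h.ne) XR X h.hLR.le le_rfl a b).le
        have a2 : 0 ≤ XR - X := by linarith
        have a3 : 0 < (1 + XR ^ 2) * (1 + X ^ 2) := mul_pos (den_pos _) (den_pos _)
        positivity
    · rw [pedges_map] at h1
      obtain ⟨e', he', rfl⟩ := List.mem_map.1 h1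
      show 0 ≤ cr (PP s e'.1) (PP s e'.2) v
      rw [cr_PPV]
      have a2 : 0 ≤ e'.1 - e'.2 := by linarith [(hx.step e' he').1]
      have a3 : 0 < (1 + e'.1 ^ 2) * (1 + e'.2 ^ 2) := mul_pos (den_pos _) (den_pos _)
      have a4 : 0 ≤ GG s e'.1 e'.2 v := by
        rcases List.mem_append.1 hv with h2 | h2
        · obtain ⟨m1, m2⟩ := pedge_mem he'
          obtain ⟨a, b⟩ := hx.range m1
          obtain ⟨c, d⟩ := hx.range m2
          exact (hggX v h2 _ _ a b c d).le
        · obtain ⟨Z, hZ, rfl⟩ := List.mem_map.1 h2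
          rw [GG_PP]
          have b1 := den_pos Z
          have b2 := hx.sep he' hZ
          positivity
      positivity
    · rw [h1, hlast]
      rcases List.mem_append.1 hv with h2 | h2
      · exact h.j2 v h2
      · obtain ⟨X, hX, rfl⟩ := List.mem_map.1 h2
        obtain ⟨a, b⟩ := hx.range hX
        show 0 ≤ cr (PP s XL) (F.head h.ne) (PP s X)
        rw [cr_cyc, cr_cyc, cr_PPV]
        have a1 := (hggX _ (List.head_mem h.ne) X XL a b le_rfl h.hLR.le).le
        have a2 : 0 ≤ X - XL := by linarith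
        have a3 : 0 < (1 + X ^ 2) * (1 + XL ^ 2) := mul_pos (den_pos _) (den_pos _)
        positivity
  · intro e he
    have h1 := hcen e he
    rw [mem_edges_iff] at he
    obtain ⟨i, hi, rfl⟩ := he
    refine lt_of_lt_of_le (mul_pos hr0 ?_) h1
    rw [norm_pos_iff, sub_ne_zero]
    intro heq
    have h2 := (hnd.getElem_inj_iff).1 heq
    by_cases h3 : i + 1 < (F ++ Xs.map (PP s)).length
    · rw [Nat.mod_eq_of_lt h3] at h2
      omega
    · have h4 : i + 1 = (F ++ Xs.map (PP s)).length := by omega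
      rw [h4, Nat.mod_self] at h2
      omega
  · intro h0
    exact h.ne (List.append_eq_nil_iff.1 h0).1
  · rw [div_mul_cancel₀ _ hr0.ne']
  · intro v hv
    rcases List.mem_append.1 hv with h2 | h2
    · exact h.circ v h2
    · obtain ⟨X, hX, rfl⟩ := List.mem_map.1 h2
      exact PP_circ hs0 h.hR

end

end Pool.Agent.Helper37.CP
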