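import Pool.Agent.Helper37.CP.Data.Ring0
import Pool.Agent.Helper37.CP.Data.Ring1
import Pool.Agent.Helper37.CP.Data.Ring2
import Pool.Agent.Helper37.CP.Data.Ring3
import Pool.Agent.Helper37.CP.Data.RingF

/-! Assembly of the towers. -/

set_option autoImplicit false

namespace Pool.Agent.Helper37.CP

open Metric Set Filter Topology

theorem ring_all (K : ℤ) (hK : 0 ≤ K) : RingLvl K := by
  rcases lt_or_ge K 23 with h | h
  · interval_cases K
    · exact ring_lvl0
    · exact ring_lvl1
    · exact ring_lvl2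
    · exact ring_lvl3
    · exact ring_lvl4
    · exact ring_lvl5
    · exact ring_lvl6
    · exact ring_lvl7
    · exact ring_lvl8
    · exact ring_lvl9
    · exact ring_lvl10
    · exact ring_lvl11
    · exact ring_lvl12
    · exact ring_lvl13
    · exact ring_lvl14
    · exact ring_lvl15
    · exact ring_lvl16
    · exact ring_lvl17
    · exact ring_lvl18
    · exact ring_lvl19
    · exact ring_lvl20
    · exact ring_lvl21
    · exact ring_lvl22
  · exact ring_lvlf h

/-- inner base points of a tower of height `n` above level `K` -/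
def bmid : ℕ → ℤ → List RN
  | 0, K => capMid.map (RN.sh K)
  | n + 1, K => t24 K :: (bmid n (K + 1) ++ [t25 (K + 1)])

/-- base points of a tower -/
def blist (n : ℕ) (K : ℤ) : List RN := t24 (K - 1) :: (bmid n K ++ [t25 K])

theorem blist_succ (n : ℕ) (K : ℤ) : blist (n + 1) K = t24 (K - 1) :: (blist n (K + 1) ++ [t25 K]) := by
  unfold blist
  simp only [bmid, add_sub_cancel_right, List.cons_append]

theorem pthN_ends {α : Type} (A : α → α → ℤ) (x a : α) (m : List α) (b y : α) :
    pthN A (x :: ((a :: (m ++ [b])) ++ [y])) = A x a + pthN A (a :: (m ++ [b])) + A b y := by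
  have e : x :: ((a :: (m ++ [b])) ++ [y]) = (x :: a :: m) ++ b :: [y] := by simp
  rw [e, pthN_append]
  have e2 : pthN A [b, y] = A b y := by
    show A b y + 0 = _
    rw [add_zero]
  rw [e2]
  simp only [List.cons_append]
  rfl

theorem RN.sh_sh (a b : ℤ) (n : RN) : (n.sh a).sh b = n.sh (a + b) := by
  unfold RN.sh
  simp only [RN.mk.injEq, true_and]
  ring

theorem t24_sh (a b : ℤ) : (t24 a).sh b = t24 (a + b) := rfl
theorem t25_sh (a b : ℤ) : (t25 a).sh b = t25 (a + b) := rfl

/-- **towers** -/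
theorem tower_dec : ∀ (n : ℕ) (K : ℤ), 0 ≤ K → 24 ≤ K + n →
    Dec0 (12886 / 10000) (fun A => pthN A ((ringOut.map (RN.sh K)).map mpos) -
      pthN A ((blist n K).map mpos)) := by
  intro n
  induction n with
  | zero =>
    intro K hK h24
    refine (ring_lin (cap_lvlf (K := K) (by push_cast at h24; omega))).congr ?_
    intro A hA
    have e1 : ((t24 (-1) :: (capMid ++ [t25 0])).reverse.map (RN.sh K)) = (blist 0 K).reverse := by
      rw [List.map_reverse]
      congr 1
      unfold blist bmid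
      rw [List.map_cons, List.map_append, t24_sh]
      have a1 : (-1 : ℤ) + K = K - 1 := by ring
      rw [a1]
      congr 2
      show [(t25 0).sh K] = [t25 K]
      rw [t25_sh, zero_add]
    simp only [List.map_cons, List.map_nil, List.sum_cons, List.sum_nil, add_zero] at *
    rw [e1, List.map_reverse, pthN_reverse A hA]
    ring
  | succ n ih =>
    intro K hK h24
    have h1 := ih (K + 1) (by omega) (by push_cast at h24 ⊢; omega)
    have h2 := ring_lin (ring_all K hK)
    refine (h2.add h1).congr ?_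
    intro A hA
    have e1 : ((ringOut.map (RN.sh 1)).reverse.map (RN.sh K)) =
        (ringOut.map (RN.sh (K + 1))).reverse := by
      rw [List.map_reverse, List.map_map]
      congr 2
      funext v
      simp only [Function.comp_apply]
      rw [RN.sh_sh, add_comm]
    have e2 : (blist (n + 1) K).map mpos = mpos (t24 (K - 1)) :: ((mpos (t24 K) ::
        ((bmid n (K + 1)).map mpos ++ [mpos (t25 (K + 1))])) ++ [mpos (t25 K)]) := by
      rw [blist_succ]
      unfold blist
      simp
    have e3 : (blist n (K + 1)).map mpos = mpos (t24 K) ::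
        ((bmid n (K + 1)).map mpos ++ [mpos (t25 (K + 1))]) := by
      unfold blist
      simp
    simp only [List.map_cons, List.map_nil, List.sum_cons, List.sum_nil, add_zero]
    rw [e1, e2, pthN_ends, ← e3, List.map_reverse, pthN_reverse A hA, t25_sh, t25_sh, t24_sh, t24_sh]
    have e4 : pthN A [mpos (t25 (0 + K)), mpos (t25 (1 + K))] = A (mpos (t25 K)) (mpos (t25 (K + 1))) := by
      show A _ _ + 0 = _
      rw [add_zero, zero_add, add_comm 1 K]
    have e5 : pthN A [mpos (t24 (0 + K)), mpos (t24 (-1 + K))] = A (mpos (t24 K)) (mpos (t24 (K - 1))) := by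
      show A _ _ + 0 = _
      have a1 : (-1 : ℤ) + K = K - 1 := by ring
      rw [add_zero, zero_add, a1]
    rw [e4, e5, hA (mpos (t24 K)) (mpos (t24 (K - 1))), hA (mpos (t25 K)) (mpos (t25 (K + 1)))]
    ring

/-! ### parameters of the base points -/

/-- the parameter of a base point -/
noncomputable def par (n : RN) : ℝ := 25 / 56 * (sq n.k * ((n.X : ℝ) / 10000000))

theorem mpos_par {n : RN} (h : n.Y = 0) : mpos n = PP (31 / 25) (par n) := by
  unfold mpos
  have e1 : (((sq n.k : ℝ) : ℂ) * bp n.X n.Y) = ((sq n.k * ((n.X : ℝ) / 10000000) : ℝ) : ℂ) := by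
    unfold bp
    rw [h]
    apply Complex.ext
    · simp
    · simp
  rw [e1]
  unfold par
  generalize sq n.k * ((n.X : ℝ) / 10000000) = x
  unfold mob PP
  have hD : (1 + (25 / 56 * x) ^ 2 : ℝ) ≠ 0 := by positivity
  have hD2 : (1 + Complex.I * ((25 / 56 : ℝ) * (x : ℂ))) ≠ 0 := by
    intro h0
    have := congrArg Complex.re h0
    simp at this
  have e2 : (x : ℂ) / (1 + Complex.I * ((25 / 56 : ℝ) * (x : ℂ))) =
      ⟨x / (1 + (25 / 56 * x) ^ 2), -(25 / 56 * x ^ 2) / (1 + (25 / 56 * x) ^ 2)⟩ := by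
    rw [div_eq_iff hD2]
    apply Complex.ext
    · simp
      field_simp
      ring
    · simp
      field_simp
      ring
  rw [e2]
  apply Complex.ext
  · simp
    field_simp
    ring
  · simp
    field_simp
    ring

/-! ### consecutive parameters -/

/-- consecutive elements -/
def Chn {α : Type} (R : α → α → Prop) (L : List α) : Prop := ∀ e ∈ pedges L, R e.1 e.2

theorem chn_cons {α : Type} {R : α → α → Prop} {a b : α} {l : List α} (h1 : R a b)
    (h2 : Chn R (b :: l)) : Chn R (a :: b :: l) := by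
  intro e he
  have : pedges (a :: b :: l) = (a, b) :: pedges (b :: l) := rfl
  rw [this] at he
  rcases List.mem_cons.1 he with rfl | h
  · exact h1
  · exact h2 e h

theorem chn_snoc {α : Type} {R : α → α → Prop} (m : List α) : ∀ {a b y : α},
    Chn R (a :: (m ++ [b])) → R b y → Chn R ((a :: (m ++ [b])) ++ [y]) := by
  induction m with
  | nil =>
    intro a b y h1 h2
    have hab : R a b := h1 (a, b) (by simp [pedges])
    exact chn_cons hab (chn_cons h2 (by intro e he; simp [pedges] at he))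
  | cons c m ih =>
    intro a b y h1 h2
    have h3 : Chn R (c :: (m ++ [b])) := by
      intro e he
      apply h1 e
      show e ∈ (a, c) :: pedges (c :: (m ++ [b]))
      exact List.mem_cons_of_mem _ he
    have hac : R a c := h1 (a, c) (by
      show (a, c) ∈ (a, c) :: pedges (c :: (m ++ [b]))
      exact List.mem_cons_self)
    exact chn_cons hac (ih h3 h2)

theorem chn_ends {α : Type} {R : α → α → Prop} {x a b y : α} {m : List α} (h0 : R x a)
    (h1 : Chn R (a :: (m ++ [b]))) (h2 : R b y) : Chn R (x :: ((a :: (m ++ [b])) ++ [y])) :=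
  chn_cons h0 (chn_snoc m h1 h2)

theorem par24 (k : ℤ) : par (t24 k) = 25 / 56 * (sq k * (8682970 / 10000000)) := by
  unfold par t24
  norm_num

theorem par25 (k : ℤ) : par (t25 k) = 25 / 56 * (sq k * (-10433832 / 10000000)) := by
  unfold par t25
  norm_num

theorem sq_succ (k : ℤ) : sq (k + 1) = 2 / 3 * sq k := by
  rw [sq_add]
  norm_num
  ring

theorem gd_ratio {r X : ℝ} (hr0 : 0 < r) (hr1 : r ≤ 1) :
    0 ≤ 1 + 31 / 25 * (X * (2 / 3 * X)) ∧
      r ^ 2 * ((1 + X ^ 2) * (1 + (2 / 3 * X) ^ 2)) ≤ (1 + 31 / 25 * (X * (2 / 3 * X))) ^ 2 := by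
  obtain ⟨h1, h2⟩ := ratio_ok (s := 31 / 25) (q := 2 / 3) (X := X) (by norm_num) (by norm_num)
    (by norm_num)
  refine ⟨h1, le_trans ?_ h2⟩
  have : r ^ 2 ≤ 1 ^ 2 := pow_le_pow_left₀ hr0.le hr1 2
  exact mul_le_mul_of_nonneg_right this (by positivity)

theorem gd24 {r : ℝ} (hr0 : 0 < r) (hr1 : r ≤ 1) (K : ℤ) :
    Gd (31 / 25) r (par (t24 (K - 1))) (par (t24 K)) := by
  have h := sq_succ (K - 1)
  rw [sub_add_cancel] at h
  have hp := sq_pos (K - 1)
  have e : par (t24 K) = 2 / 3 * par (t24 (K - 1)) := by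
    rw [par24, par24, h]
    ring
  rw [e]
  obtain ⟨h1, h2⟩ := gd_ratio (X := par (t24 (K - 1))) hr0 hr1
  refine ⟨?_, h1, h2⟩
  rw [par24]
  nlinarith

theorem gd25 {r : ℝ} (hr0 : 0 < r) (hr1 : r ≤ 1) (K : ℤ) :
    Gd (31 / 25) r (par (t25 (K + 1))) (par (t25 K)) := by
  have h := sq_succ K
  have hp := sq_pos K
  have e : par (t25 (K + 1)) = 2 / 3 * par (t25 K) := by
    rw [par25, par25, h]
    ring
  rw [e]
  obtain ⟨h1, h2⟩ := gd_ratio (X := par (t25 K)) hr0 hr1
  refine ⟨?_, ?_, ?_⟩
  · rw [par25]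
    nlinarith
  · rw [mul_comm (2 / 3 * par (t25 K))]
    exact h1
  · rw [mul_comm (2 / 3 * par (t25 K)) (par (t25 K)), mul_comm (1 + (2 / 3 * par (t25 K)) ^ 2)]
    exact h2

/-- the largest distance at which the cap can be placed -/
def Small (r e : ℝ) : Prop := 0 < e ∧ r * (1 + e ^ 2) ≤ 1 - 31 / 25 * e ^ 2

theorem gd_small {r e X Y : ℝ} (hr0 : 0 < r) (h : Small r e) (hX : |X| ≤ e) (hY : |Y| ≤ e)
    (hXY : Y < X) : Gd (31 / 25) r X Y := by
  obtain ⟨he, h1⟩ := h
  have hX2 : X ^ 2 ≤ e ^ 2 := by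
    rw [← sq_abs X]
    exact pow_le_pow_left₀ (abs_nonneg X) hX 2
  have hY2 : Y ^ 2 ≤ e ^ 2 := by
    rw [← sq_abs Y]
    exact pow_le_pow_left₀ (abs_nonneg Y) hY 2
  have hXYe : -(e ^ 2) ≤ X * Y := by nlinarith [sq_nonneg (X + Y)]
  have h2 : 0 < r * (1 + e ^ 2) := by positivity
  have h3 : r * (1 + e ^ 2) ≤ 1 + 31 / 25 * (X * Y) := by nlinarith
  refine ⟨hXY, by linarith, ?_⟩
  calc r ^ 2 * ((1 + X ^ 2) * (1 + Y ^ 2)) ≤ r ^ 2 * ((1 + e ^ 2) * (1 + e ^ 2)) := by
        have a1 : 1 + X ^ 2 ≤ 1 + e ^ 2 := by linarith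
        have a2 : 1 + Y ^ 2 ≤ 1 + e ^ 2 := by linarith
        have a3 := mul_le_mul a1 a2 (by positivity) (by positivity)
        exact mul_le_mul_of_nonneg_left a3 (by positivity)
    _ = (r * (1 + e ^ 2)) ^ 2 := by ring
    _ ≤ (1 + 31 / 25 * (X * Y)) ^ 2 := pow_le_pow_left₀ h2.le h3 2

theorem cap_chn {r : ℝ} (hr0 : 0 < r) {K : ℤ} (h : Small r (sq K)) :
    Chn (Gd (31 / 25) r) ((blist 0 K).map par) := by
  have hp := sq_pos K
  have h24 : par (t24 (K - 1)) = 25 / 56 * (sq K * (13024455 / 10000000)) := by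
    have h := sq_succ (K - 1)
    rw [sub_add_cancel] at h
    rw [par24, h]
    ring
  have hm : ∀ c : ℤ, par (RN.sh K ⟨c, 0, 0⟩) = 25 / 56 * (sq K * (c / 10000000)) := by
    intro c
    unfold par RN.sh
    simp
  have key : ∀ c d : ℝ, |c| ≤ 14000000 → |d| ≤ 14000000 → d < c →
      Gd (31 / 25) r (25 / 56 * (sq K * (c / 10000000))) (25 / 56 * (sq K * (d / 10000000))) := by
    intro c d hc hd hcd
    refine gd_small hr0 h ?_ ?_ ?_
    · rw [abs_le] at hc ⊢
      constructor <;> nlinarith
    · rw [abs_le] at hd ⊢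
      constructor <;> nlinarith
    · nlinarith
  unfold blist bmid capMid
  simp only [List.map_cons, List.map_nil, List.cons_append, List.nil_append, hm, h24, par25]
  push_cast
  have knil : ∀ c : ℝ, Chn (Gd (31 / 25) r) [c] := by
    intro c e he
    simp [pedges] at he
  refine chn_cons (key _ _ ?_ ?_ ?_) (chn_cons (key _ _ ?_ ?_ ?_) (chn_cons (key _ _ ?_ ?_ ?_)
    (chn_cons (key _ _ ?_ ?_ ?_) (chn_cons (key _ _ ?_ ?_ ?_) (chn_cons (key _ _ ?_ ?_ ?_)
      (chn_cons (key _ _ ?_ ?_ ?_) (knil _))))))) <;>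
    first
    | (rw [abs_le]; constructor <;> norm_num)
    | norm_num

theorem tow_chn {r : ℝ} (hr0 : 0 < r) (hr1 : r ≤ 1) : ∀ (n : ℕ) (K : ℤ), Small r (sq (K + n)) →
    Chn (Gd (31 / 25) r) ((blist n K).map par) := by
  intro n
  induction n with
  | zero =>
    intro K h
    apply cap_chn hr0
    simpa using h
  | succ n ih =>
    intro K h
    have h1 := ih (K + 1) (by
      have e : K + 1 + (n : ℤ) = K + ((n + 1 : ℕ) : ℤ) := by
        push_cast
        ring
      rw [e]
      exact h)
    have e2 : (blist (n + 1) K).map par = par (t24 (K - 1)) :: ((par (t24 K) ::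
        ((bmid n (K + 1)).map par ++ [par (t25 (K + 1))])) ++ [par (t25 K)]) := by
      rw [blist_succ]
      unfold blist
      simp
    have e3 : (blist n (K + 1)).map par = par (t24 K) ::
        ((bmid n (K + 1)).map par ++ [par (t25 (K + 1))]) := by
      unfold blist
      simp
    rw [e2]
    rw [e3] at h1
    exact chn_ends (gd24 hr0 hr1 K) h1 (gd25 hr0 hr1 K)

theorem blist_Y : ∀ (n : ℕ) (K : ℤ), ∀ v ∈ blist n K, v.Y = 0 := by
  intro n
  induction n with
  | zero =>
    intro K v hv
    unfold blist bmid capMid at hv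
    simp only [List.map_cons, List.map_nil, List.cons_append, List.nil_append, List.mem_cons,
      List.not_mem_nil, or_false] at hv
    rcases hv with rfl | rfl | rfl | rfl | rfl | rfl | rfl | rfl <;> rfl
  | succ n ih =>
    intro K v hv
    rw [blist_succ] at hv
    simp only [List.mem_cons, List.mem_append, List.not_mem_nil, or_false] at hv
    rcases hv with rfl | h | rfl
    · rfl
    · exact ih (K + 1) v h
    · rfl

/-- parameters of the whole tower -/
theorem tow_TX {r : ℝ} (hr0 : 0 < r) (hr1 : r ≤ 1) {n : ℕ} (h : Small r (sq n)) :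
    TX (31 / 25) XLc XRc r ((blist n 0).map par) := by
  refine ⟨by simp [blist], ?_, ?_, ?_⟩
  · unfold blist
    simp only [List.map_cons, List.head_cons]
    rw [par24]
    rfl
  · have e : (blist n 0).map par = (par (t24 (0 - 1)) :: (bmid n 0).map par) ++ [par (t25 0)] := by
      unfold blist
      simp
    simp only [e, List.getLast_append_singleton]
    rw [par25]
    rfl
  · exact tow_chn hr0 hr1 n 0 (by simpa using h)

theorem chn_tail {α : Type} {R : α → α → Prop} {a : α} {l : List α} (h : Chn R (a :: l)) :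
    Chn R l := by
  cases l with
  | nil => intro e he; simp [pedges] at he
  | cons b l =>
    intro e he
    apply h e
    show e ∈ (a, b) :: pedges (b :: l)
    exact List.mem_cons_of_mem _ he

/-- parameters of the tower without the largest one -/
theorem tow_TX1 {r : ℝ} (hr0 : 0 < r) (hr1 : r ≤ 1) {n : ℕ} (hn : 1 ≤ n) (h : Small r (sq n)) :
    ∃ Xs, (blist n 0).map par = XRc :: Xs ∧ TX (31 / 25) XLc XR1 r Xs := by
  obtain ⟨k, rfl⟩ := Nat.exists_eq_add_of_le hn
  have h0 := (tow_TX hr0 hr1 h).step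
  have e : (blist (1 + k) 0).map par = XRc :: ((par (t24 0) :: ((bmid k 1).map par ++
      [par (t25 1)])) ++ [par (t25 0)]) := by
    rw [add_comm 1 k, blist_succ]
    unfold blist
    simp only [List.map_cons, List.map_append, List.map_nil, zero_add, par24, zero_sub,
      List.cons_append]
    rfl
  rw [e] at h0
  refine ⟨_, e, ⟨by simp, ?_, ?_, chn_tail h0⟩⟩
  · simp only [List.cons_append, List.head_cons]
    rw [par24]
    rfl
  · simp only [List.cons_append, List.getLast_cons_cons]
    have e2 : par (t24 0) :: (List.map par (bmid k 1) ++ [par (t25 1)] ++ [par (t25 0)]) =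
        (par (t24 0) :: (List.map par (bmid k 1) ++ [par (t25 1)])) ++ [par (t25 0)] := by simp
    simp only [e2, List.getLast_append_singleton]
    rw [par25]
    rfl

theorem tow_pts (n : ℕ) : ((blist n 0).map par).map (PP (31 / 25)) = (blist n 0).map mpos := by
  rw [List.map_map]
  refine List.map_congr_left fun v hv => ?_
  simp only [Function.comp_apply]
  rw [mpos_par (blist_Y n 0 v hv)]

/-- small caps exist -/
theorem small_ev {r : ℝ} (hr1 : r < 1) : ∃ n₀ : ℕ, ∀ n : ℕ, n₀ ≤ n → Small r (sq n) := by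
  have h0 : Tendsto (fun n : ℕ => sq n) atTop (𝓝 0) := by
    have h := (tendsto_pow_atTop_nhds_zero_of_lt_one (r := (2 / 3 : ℝ)) (by norm_num)
      (by norm_num)).const_mul (2 / 5)
    rw [mul_zero] at h
    refine h.congr ?_
    intro n
    unfold sq
    rw [zpow_natCast]
  have h1 : Tendsto (fun n : ℕ => r * (1 + sq n ^ 2)) atTop (𝓝 r) := by
    have h := ((h0.pow 2).const_add 1).const_mul r
    simpa using h
  have h2 : Tendsto (fun n : ℕ => 1 - 31 / 25 * sq n ^ 2) atTop (𝓝 1) := by
    have h := ((h0.pow 2).const_mul (31 / 25)).const_sub 1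
    simpa using h
  obtain ⟨n₀, hn₀⟩ := eventually_atTop.1 (h1.eventually_lt h2 hr1)
  exact ⟨n₀, fun n hn => ⟨sq_pos _, (hn₀ n hn).le⟩⟩

end Pool.Agent.Helper37.CP
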